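import Pool.Agent.Lib.MP_0087d5_lc.NEGS.Along

/-!
The OR-chain of the blocks and the choice of a block at which a property seldom holds.
-/

set_option autoImplicit false

namespace Pool.Agent.DN

open Finset Pool.Agent.NEG Pool.Agent.NEGS

section Chain

variable {E N : Type} {L : ℕ}

/-- the chain: the tests `τ` in the blocks before `j`, empty blocks from `j` on -/
def Wc (t : N → E → Bool) (j : ℕ) (τ : Fin L → N) (e : Fin L × E) : Bool :=
  decide ((e.1 : ℕ) < j) && t (τ e.1) e.2

/-- the substitution with free block `j`, the tests `τ` before `j`, empty blocks after `j` -/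
def sb (t : N → E → Bool) (j : Fin L) (τ : Fin L → N) (e : Fin L × E) : E ⊕ Bool :=
  if (e.1 : ℕ) < j then Sum.inr (t (τ e.1) e.2)
  else if e.1 = j then Sum.inl e.2 else Sum.inr false

theorem Wc_mono (t : N → E → Bool) (j : ℕ) (τ : Fin L → N) (e : Fin L × E)
    (h : Wc t j τ e = true) : Wc t (j + 1) τ e = true := by
  unfold Wc at h ⊢
  rw [Bool.and_eq_true, decide_eq_true_eq] at h ⊢
  exact ⟨by omega, h.2⟩

theorem pl_sb_empty [DecidableEq (Fin L)] (t : N → E → Bool) (j : Fin L) (τ : Fin L → N) (c : N) :
    pl (sb t j τ) (fun _ => false) = Wc t j (Function.update τ j c) := by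
  funext e
  unfold pl sb Wc
  by_cases h1 : (e.1 : ℕ) < j
  · have h2 : e.1 ≠ j := fun h => by rw [h] at h1; exact absurd h1 (lt_irrefl _)
    rw [if_pos h1, Function.update_of_ne h2]
    simp [h1]
  · rw [if_neg h1]
    by_cases h2 : e.1 = j
    · rw [if_pos h2]
      simp [h1]
    · rw [if_neg h2]
      simp [h1]

theorem pl_sb_test [DecidableEq (Fin L)] (t : N → E → Bool) (j : Fin L) (τ : Fin L → N) (c : N) :
    pl (sb t j τ) (t c) = Wc t (j + 1) (Function.update τ j c) := by
  funext e
  unfold pl sb Wc
  by_cases h1 : (e.1 : ℕ) < j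
  · have h2 : e.1 ≠ j := fun h => by rw [h] at h1; exact absurd h1 (lt_irrefl _)
    rw [if_pos h1, Function.update_of_ne h2]
    have h3 : (e.1 : ℕ) < j + 1 := by omega
    simp [h3]
  · rw [if_neg h1]
    by_cases h2 : e.1 = j
    · rw [if_pos h2]
      have h3 : (e.1 : ℕ) < j + 1 := by rw [h2]; omega
      rw [h2, Function.update_self]
      rw [h2] at h3
      simp
    · rw [if_neg h2]
      have h3 : ¬ (e.1 : ℕ) < j + 1 := by
        intro h
        apply h2
        apply Fin.ext
        omega
      simp [h3]

open Classical in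
/-- if along every chain of tests a property of consecutive members holds at most `D` times,
then it holds for few blocks `j`, tests `τ` in the blocks before `j` and tests in the block
`j` -/
theorem chain_sum [Fintype N] {D : ℕ} (t : N → E → Bool)
    (P : (Fin L × E → Bool) → (Fin L × E → Bool) → Prop)
    (hD : ∀ τ : Fin L → N,
      (univ.filter (fun j : Fin L => P (Wc t j τ) (Wc t (j + 1) τ))).card ≤ D) :
    ∑ j : Fin L, ∑ τ : Fin L → N, (univ.filter (fun c : N =>
      P (pl (sb t j τ) (fun _ => false)) (pl (sb t j τ) (t c)))).card ≤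
      Fintype.card N * (D * Fintype.card (Fin L → N)) := by
  let J : Fin L → ℕ := fun j => (univ.filter
    (fun τ : Fin L → N => P (Wc t j τ) (Wc t (j + 1) τ))).card
  have hsum : ∑ j, J j ≤ D * Fintype.card (Fin L → N) := by
    calc ∑ j, J j = ∑ j : Fin L, ∑ τ : Fin L → N,
          (if P (Wc t j τ) (Wc t (j + 1) τ) then 1 else 0) := by
          refine sum_congr rfl (fun j _ => ?_)
          simp only [J, card_filter]
      _ = ∑ τ : Fin L → N, ∑ j : Fin L,
          (if P (Wc t j τ) (Wc t (j + 1) τ) then 1 else 0) := sum_comm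
      _ ≤ ∑ _τ : Fin L → N, D := by
          refine sum_le_sum (fun τ _ => ?_)
          have := hD τ
          rw [card_filter] at this
          exact this
      _ = D * Fintype.card (Fin L → N) := by
          rw [sum_const, card_univ, smul_eq_mul, mul_comm]
  have hone : ∀ j : Fin L, ∑ τ : Fin L → N, (univ.filter (fun c : N =>
      P (pl (sb t j τ) (fun _ => false)) (pl (sb t j τ) (t c)))).card =
      Fintype.card N * J j := by
    intro j
    have hinv : Function.Involutive (fun p : (Fin L → N) × N =>
        (Function.update p.1 j p.2, p.1 j)) := by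
      intro p
      simp
    calc ∑ τ : Fin L → N, (univ.filter (fun c : N =>
          P (pl (sb t j τ) (fun _ => false)) (pl (sb t j τ) (t c)))).card
        = ∑ τ : Fin L → N, ∑ c : N,
          (if P (Wc t j (Function.update τ j c)) (Wc t (j + 1) (Function.update τ j c))
            then 1 else 0) := by
          refine sum_congr rfl (fun τ _ => ?_)
          rw [card_filter]
          refine sum_congr rfl (fun c _ => ?_)
          rw [pl_sb_test t j τ c, pl_sb_empty t j τ c]
      _ = ∑ τ : Fin L → N, ∑ _c : N,
          (if P (Wc t j τ) (Wc t (j + 1) τ) then 1 else 0) := by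
          rw [← Fintype.sum_prod_type' (f := fun τ c =>
              if P (Wc t j (Function.update τ j c)) (Wc t (j + 1) (Function.update τ j c))
                then 1 else 0),
            ← Fintype.sum_prod_type' (f := fun (τ : Fin L → N) (_ : N) =>
              if P (Wc t j τ) (Wc t (j + 1) τ) then 1 else 0)]
          exact Equiv.sum_comp hinv.toPerm (fun p : (Fin L → N) × N =>
            if P (Wc t j p.1) (Wc t (j + 1) p.1) then 1 else 0)
      _ = Fintype.card N * J j := by
          simp only [J, card_filter, sum_const, card_univ, smul_eq_mul]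
          rw [mul_sum]
  calc ∑ j : Fin L, ∑ τ : Fin L → N, (univ.filter (fun c : N =>
      P (pl (sb t j τ) (fun _ => false)) (pl (sb t j τ) (t c)))).card
      = ∑ j : Fin L, Fintype.card N * J j := sum_congr rfl (fun j _ => hone j)
    _ = Fintype.card N * ∑ j, J j := by rw [mul_sum]
    _ ≤ Fintype.card N * (D * Fintype.card (Fin L → N)) := Nat.mul_le_mul_left _ hsum

end Chain

end Pool.Agent.DN
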