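import Pool.Agent.Lib.MP_0087d5_lc.NEG.CDef
import Pool.Agent.Lib.MP_66cd2e_lc.Defs

/-!
Circuits for the domination number of the tournaments of a family: the definitions of the
statement. Tournaments and the domination number are defined in `Defs`, circuits in `CDef`.
-/

set_option autoImplicit false

namespace Pool.Agent.DN

open Pool.Agent.NEG Pool.Agent.Lib.MP_66cd2e_lc

/-- `T` agrees with `T0` except, possibly, for the arcs between `A` and `B` -/
def SameOff {n : ℕ} (T0 T : Tournament (Fin n)) (A B : Finset (Fin n)) : Prop :=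
  ∀ u v, ¬ (u ∈ A ∧ v ∈ B) → ¬ (u ∈ B ∧ v ∈ A) → (T.arc u v ↔ T0.arc u v)

open Classical in
/-- the input of the circuits given by a tournament: the variable `(a, b)` is one if and only
if `a → b` -/
noncomputable def inp {n : ℕ} (A B : Finset (Fin n)) (T : Tournament (Fin n))
    (e : {x // x ∈ A} × {x // x ∈ B}) : Bool := decide (T.arc e.1 e.2)

/-- `C` decides `γ(T) ≤ K` for all tournaments `T` which agree with `T0` except for the arcs
between `A` and `B` -/
def Decides {n : ℕ} (T0 : Tournament (Fin n)) (A B : Finset (Fin n)) (K : ℕ) {G : Type}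
    (C : Circuit ({x // x ∈ A} × {x // x ∈ B}) G) : Prop :=
  ∀ T, SameOff T0 T A B → ∀ v, C.Consistent (inp A B T) v → (v C.out = true ↔ domNumber T ≤ K)

/-- `C` has different outputs on the tournaments `S` and `T` -/
def Differs {n : ℕ} (A B : Finset (Fin n)) {G : Type}
    (C : Circuit ({x // x ∈ A} × {x // x ∈ B}) G) (S T : Tournament (Fin n)) : Prop :=
  ∃ v w, C.Consistent (inp A B S) v ∧ C.Consistent (inp A B T) w ∧ v C.out ≠ w C.out

/-- The circuit has few special gates, that is gates which are not plain (not AND, OR gates).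
There are at most `t` special gates, they have at most `m` inputs and `m * 2 ^ t ≤ M`; or they
have at most `m` inputs and lie in `r` layers (`rho` does not decrease along wires and increases
along the wires into special gates) and `∏_j (m t_j + 1) ≤ M`, where `t_j` is the number of
special gates in the layer `j`; or the circuit is a formula (every gate feeds at most one wire)
and its special gates have together at most `M` input wires. -/
def Few {I G : Type} (C : Circuit I G) (M : ℝ) : Prop :=
  (∃ t m : ℕ, {g | ¬ C.Plain g}.ncard ≤ t ∧ (∀ g, ¬ C.Plain g → C.arity g ≤ m) ∧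
    (m : ℝ) * 2 ^ t ≤ M) ∨
  (∃ (m r : ℕ) (rho : G → ℕ),
    (∀ g i g', C.src g i = Sum.inr g' → rho g' ≤ rho g ∧ (¬ C.Plain g → rho g' < rho g)) ∧
    (∀ g, ¬ C.Plain g → rho g < r) ∧ (∀ g, ¬ C.Plain g → C.arity g ≤ m) ∧
    (∏ j ∈ Finset.range r, ((m : ℝ) * {g | ¬ C.Plain g ∧ rho g = j}.ncard + 1)) ≤ M) ∨
  ((∀ (g : G) (p p' : Σ g, Fin (C.arity g)), C.src p.1 p.2 = Sum.inr g →
      C.src p'.1 p'.2 = Sum.inr g → p = p') ∧
    (Nat.card {p : Σ g, Fin (C.arity g) // ¬ C.Plain p.1} : ℝ) ≤ M)

end Pool.Agent.DN
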