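import Pool.Agent.Lib.MP_66cd2e_lc.DN.Cnt
import Pool.Agent.Lib.MP_66cd2e_lc.DN.Stmt

/-!
Three kinds of circuits with few special gates.
-/

set_option autoImplicit false

namespace Pool.Agent.DN

open Finset Pool.Agent.NEG Pool.Agent.NEGS

variable {I G : Type}

theorem sum_le_prod (a : ℕ → ℕ) (r : ℕ) :
    ∑ j ∈ range r, a j + 1 ≤ ∏ j ∈ range r, (a j + 1) := by
  induction r with
  | zero => simp
  | succ r ih =>
      rw [sum_range_succ, prod_range_succ]
      have h1 : 1 ≤ ∏ j ∈ range r, (a j + 1) := Nat.succ_le_of_lt (prod_pos (fun _ _ => by omega))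
      nlinarith

open Classical in
theorem few_ctl [Finite G] (C : Circuit I G) (hC : ∃ d, C.DepthLE d) {M : ℝ} (hM : 0 ≤ M)
    (h : Few C M) :
    ∃ C' : Circuit I G, (∃ d, C'.DepthLE d) ∧
      (∀ x v, C'.Consistent x v ↔ C.Consistent x v) ∧ C'.out = C.out ∧
      (Nat.card (SW C') : ℝ) ≤ 9 * M ∧
      ∀ (X : ℕ → I → Bool) (v : ℕ → G → Bool), (∀ i e, X i e = true → X (i + 1) e = true) →
        (∀ i, C'.Consistent (X i) (v i)) → ∀ N : ℕ,
        (((range N).filter (fun i => ChO C' X v i)).card : ℝ) ≤ 36 * M + 2 := by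
  have : Fintype G := Fintype.ofFinite G
  rcases h with ⟨t, m, ht, hm, hM1⟩ | ⟨m, r, rho, hrho, hr, hm, hM1⟩ | ⟨hF, hM1⟩
  · refine ⟨C, hC, fun _ _ => Iff.rfl, rfl, ?_, ?_⟩
    · have h1 := card_sw_le C t m ht hm
      have h2 : m * t ≤ m * 2 ^ t := Nat.mul_le_mul_left _ Nat.lt_two_pow_self.le
      have h3 : (Nat.card (SW C) : ℝ) ≤ (m : ℝ) * 2 ^ t := by exact_mod_cast h1.trans h2
      linarith
    · intro X v hX hv N
      have h1 := chain_count_t C hC t m ht hm X v hX hv N
      have h2 : (((range N).filter (fun i => ChO C X v i)).card : ℝ) ≤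
          2 * ((m : ℝ) * 2 ^ t + 1) := by exact_mod_cast h1
      linarith
  · have hM2 : ((∏ j ∈ range r, (m * {g | ¬ C.Plain g ∧ rho g = j}.ncard + 1) : ℕ) : ℝ) ≤ M := by
      refine le_trans (le_of_eq ?_) hM1
      push_cast
      rfl
    refine ⟨C, hC, fun _ _ => Iff.rfl, rfl, ?_, ?_⟩
    · have h1 := card_sw_le C {g | ¬ C.Plain g}.ncard m le_rfl hm
      have h2 : {g | ¬ C.Plain g}.ncard ≤ ∑ j ∈ range r, {g | ¬ C.Plain g ∧ rho g = j}.ncard := by
        have h3 : {g | ¬ C.Plain g} ⊆ ⋃ j ∈ range r, {g | ¬ C.Plain g ∧ rho g = j} := by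
          intro g hg
          simp only [Set.mem_iUnion]
          exact ⟨rho g, mem_range.mpr (hr g hg), hg, rfl⟩
        refine (Set.ncard_le_ncard h3 (Set.toFinite _)).trans ?_
        exact Finset.set_ncard_biUnion_le (range r) (fun j => {g | ¬ C.Plain g ∧ rho g = j})
      have h3 := sum_le_prod (fun j => m * {g | ¬ C.Plain g ∧ rho g = j}.ncard) r
      have h4 : m * {g | ¬ C.Plain g}.ncard ≤
          ∑ j ∈ range r, m * {g | ¬ C.Plain g ∧ rho g = j}.ncard := by
        rw [← mul_sum]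
        exact Nat.mul_le_mul_left _ h2
      have h5 : Nat.card (SW C) ≤
          ∏ j ∈ range r, (m * {g | ¬ C.Plain g ∧ rho g = j}.ncard + 1) := by
        omega
      have h6 : (Nat.card (SW C) : ℝ) ≤ M := le_trans (by exact_mod_cast h5) hM2
      linarith
    · intro X v hX hv N
      have h1 := chain_count_lay C hC m r rho hrho hr hm X v hX hv N
      have h2 : (((range N).filter (fun i => ChO C X v i)).card : ℝ) ≤
          2 * ((∏ j ∈ range r, (m * {g | ¬ C.Plain g ∧ rho g = j}.ncard + 1) : ℕ) : ℝ) := by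
        exact_mod_cast h1
      linarith
  · obtain ⟨d, hd⟩ := id hC
    refine ⟨padded C, ⟨d, padded_depth C d hd⟩, fun x v => padded_consistent C x v, rfl, ?_, ?_⟩
    · have h1 := card_sw_padded C hF
      have h2 : (Nat.card (SW (padded C)) : ℝ) ≤ 9 * (Nat.card (SW C) : ℝ) := by
        exact_mod_cast h1
      linarith
    · intro X v hX hv N
      have h1 := chain_count_fml C hC hF X v hX hv N
      have h2 : (((range N).filter (fun i => ChO (padded C) X v i)).card : ℝ) ≤
          36 * (Nat.card (SW C) : ℝ) + 1 := by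
        exact_mod_cast h1
      linarith

end Pool.Agent.DN
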