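import Mathlib

/-!
# Families which are spread on the vertices and overlap little on the edges

`E R` is the set of edges of the member `R`, `T R` the set of its free vertices. A random
assignment `c` of values in `Fin P` to the edges makes all edges of some member zero with
overwhelming probability.
-/

namespace Pool.Agent.DN

open Finset

section Zero

variable {P : ℕ} {W : Type} [DecidableEq W]

theorem card_zero_one (hP : 0 < P) (B : Finset (W → Fin P)) (e : W)
    (hB : ∀ c ∈ B, ∀ b, Function.update c e b ∈ B) :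
    P * (B.filter (fun c => (c e : ℕ) = 0)).card = B.card := by
  classical
  have h1 : ∀ b : Fin P, (B.filter (fun c => c e = b)).card =
      (B.filter (fun c => (c e : ℕ) = 0)).card := by
    intro b
    refine card_bij' (fun c _ => Function.update c e ⟨0, hP⟩) (fun c _ => Function.update c e b)
      ?_ ?_ ?_ ?_
    · intro c hc
      rw [mem_filter] at hc ⊢
      refine ⟨hB c hc.1 _, ?_⟩
      rw [Function.update_self]
    · intro c hc
      rw [mem_filter] at hc ⊢
      exact ⟨hB c hc.1 _, Function.update_self _ _ _⟩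
    · intro c hc
      rw [mem_filter] at hc
      change Function.update (Function.update c e ⟨0, hP⟩) e b = c
      rw [Function.update_idem, ← hc.2, Function.update_eq_self]
    · intro c hc
      rw [mem_filter] at hc
      change Function.update (Function.update c e b) e ⟨0, hP⟩ = c
      have h0 : c e = ⟨0, hP⟩ := Fin.ext hc.2
      rw [Function.update_idem, ← h0, Function.update_eq_self]
  have h2 := card_eq_sum_card_fiberwise (s := B) (t := univ) (f := fun c : W → Fin P => c e)
    (fun _ _ => mem_univ _)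
  rw [h2, sum_congr rfl (fun b _ => h1 b), sum_const, card_univ, Fintype.card_fin, smul_eq_mul]

/-- all edges in `E` are zero -/
def zer (c : W → Fin P) (E : Finset W) : Prop := ∀ e ∈ E, (c e : ℕ) = 0

open Classical in
theorem card_zero (hP : 0 < P) (E : Finset W) : ∀ (B : Finset (W → Fin P)),
    (∀ c ∈ B, ∀ e ∈ E, ∀ b, Function.update c e b ∈ B) →
    P ^ E.card * (B.filter (fun c => zer c E)).card = B.card := by
  induction E using Finset.induction_on with
  | empty =>
      intro B _
      rw [card_empty, pow_zero, one_mul, filter_true_of_mem]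
      intro c _ e he
      exact absurd he (notMem_empty e)
  | insert e E he ih =>
      intro B hB
      have h1 := ih (B.filter (fun c => (c e : ℕ) = 0)) (by
        intro c hc f hf b
        rw [mem_filter] at hc ⊢
        have hne : e ≠ f := fun h => he (h ▸ hf)
        exact ⟨hB c hc.1 f (mem_insert_of_mem hf) b, by rw [Function.update_of_ne hne]; exact hc.2⟩)
      have h2 := card_zero_one hP B e (fun c hc b => hB c hc e (mem_insert_self e E) b)
      have h3 : (B.filter (fun c => zer c (insert e E))) =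
          (B.filter (fun c => (c e : ℕ) = 0)).filter (fun c => zer c E) := by
        ext c
        have h4 : zer c (insert e E) ↔ (c e : ℕ) = 0 ∧ zer c E := Finset.forall_mem_insert _ _ _
        rw [mem_filter, mem_filter, mem_filter, h4, and_assoc]
      rw [h3, card_insert_of_notMem he, pow_succ, ← h2, ← h1]
      ring

end Zero

section Moment

variable {P : ℕ} {W V α : Type} [DecidableEq W] [DecidableEq V]

theorem zer_update {E : Finset W} {e : W} (he : e ∉ E) (c : W → Fin P) (b : Fin P) :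
    zer (Function.update c e b) E ↔ zer c E := by
  refine forall₂_congr fun f hf => ?_
  have hne : f ≠ e := by
    rintro rfl
    exact he hf
  rw [Function.update_of_ne hne]

open Classical in
/-- the second moment bound -/
theorem second_moment (hP : 0 < P) {h : ℕ} (E : α → Finset W) (G : Finset α) (hc : ∀ R ∈ G, (E R).card = h)
    (B : Finset (W → Fin P)) (hB : ∀ c ∈ B, ∀ R ∈ G, ∀ e ∈ E R, ∀ b, Function.update c e b ∈ B) :
    (G.card : ℝ) ^ 2 * B.card ≤ (∑ R ∈ G, ∑ S ∈ G, (P : ℝ) ^ (E R ∩ E S).card) *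
      (B.filter fun c => ∃ R ∈ G, zer c (E R)).card := by
  rcases Nat.eq_zero_or_pos B.card with h0 | h0
  · rw [h0]
    simp only [Nat.cast_zero, mul_zero]
    positivity
  have hB0 : (0 : ℝ) < B.card := Nat.cast_pos.2 h0
  set X : (W → Fin P) → ℝ := fun c => ((G.filter fun R => zer c (E R)).card : ℝ) with hX
  have hXs : ∀ c, X c = ∑ R ∈ G, if zer c (E R) then 1 else 0 := fun c => by
    rw [hX, sum_boole]
  have h1 : ∑ c ∈ B, X c = G.card * (B.card / P ^ h) := by
    simp_rw [hXs]
    rw [sum_comm]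
    have h2 : ∀ R ∈ G, ∑ c ∈ B, (if zer c (E R) then (1 : ℝ) else 0) = B.card / P ^ h := by
      intro R hRG
      rw [sum_boole, eq_div_iff (by positivity)]
      have h3 := card_zero hP (E R) B fun c hc' e he b => hB c hc' R hRG e he b
      rw [hc R hRG] at h3
      have h4 : ((P ^ h * (B.filter fun c => zer c (E R)).card : ℕ) : ℝ) = B.card := by
        rw [h3]
      push_cast at h4
      linarith
    rw [sum_congr rfl h2, sum_const, nsmul_eq_mul]
  have h2 : ∑ c ∈ B, X c ^ 2 ≤ (∑ R ∈ G, ∑ S ∈ G, (P : ℝ) ^ (E R ∩ E S).card) *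
      (B.card / (P ^ h * P ^ h)) := by
    have h3 : ∀ c, X c ^ 2 = ∑ R ∈ G, ∑ S ∈ G, if zer c (E R) ∧ zer c (E S) then 1 else 0 := by
      intro c
      rw [sq, hXs, sum_mul_sum]
      refine sum_congr rfl fun R _ => sum_congr rfl fun S _ => ?_
      by_cases ha : zer c (E R) <;> by_cases hb : zer c (E S) <;> simp [ha, hb]
    simp_rw [h3]
    rw [sum_comm, sum_mul]
    refine sum_le_sum fun R hRG => ?_
    rw [sum_comm, sum_mul]
    refine sum_le_sum fun S hSG => ?_
    rw [sum_boole, ← mul_div_assoc, le_div_iff₀ (by positivity)]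
    have h4 := card_zero hP (E R ∪ E S) B (by
      intro c hc' e he b
      rcases mem_union.1 he with h5 | h5
      · exact hB c hc' R hRG e h5 b
      · exact hB c hc' S hSG e h5 b)
    have h5 := card_union_add_card_inter (E R) (E S)
    rw [hc R hRG, hc S hSG] at h5
    have h6 : (B.filter fun c => zer c (E R) ∧ zer c (E S)) =
        B.filter (fun c => zer c (E R ∪ E S)) := by
      refine filter_congr fun c _ => ?_
      unfold zer
      constructor
      · rintro ⟨h7, h8⟩ e he
        rcases mem_union.1 he with h9 | h9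
        · exact h7 e h9
        · exact h8 e h9
      · intro h7
        exact ⟨fun e he => h7 e (mem_union_left _ he), fun e he => h7 e (mem_union_right _ he)⟩
    have h7 : P ^ h * P ^ h * (B.filter fun c => zer c (E R) ∧ zer c (E S)).card =
        P ^ (E R ∩ E S).card * B.card := by
      rw [h6, ← h4, ← pow_add, ← h5, pow_add]
      ring
    have h8 : ((P ^ h * P ^ h * (B.filter fun c => zer c (E R) ∧ zer c (E S)).card : ℕ) : ℝ) =
        ((P ^ (E R ∩ E S).card * B.card : ℕ) : ℝ) := by rw [h7]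
    push_cast at h8
    linarith
  set B' : Finset (W → Fin P) := B.filter fun c => ∃ R ∈ G, zer c (E R) with hB'
  have hXz : ∀ c ∈ B, c ∉ B' → X c = 0 := by
    intro c hcB hcB'
    rw [hX]
    simp only [Nat.cast_eq_zero, card_eq_zero]
    rw [filter_eq_empty_iff]
    intro R hRG hm
    exact hcB' (mem_filter.2 ⟨hcB, R, hRG, hm⟩)
  have h3 : ∑ c ∈ B, X c = ∑ c ∈ B', X c :=
    (sum_subset (filter_subset _ _) fun c hc1 hc2 => hXz c hc1 hc2).symm
  have h4 : (∑ c ∈ B', X c) ^ 2 ≤ B'.card * ∑ c ∈ B', X c ^ 2 := sq_sum_le_card_mul_sum_sq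
  have h5 : ∑ c ∈ B', X c ^ 2 ≤ ∑ c ∈ B, X c ^ 2 :=
    sum_le_sum_of_subset_of_nonneg (filter_subset _ _) fun c _ _ => sq_nonneg _
  set Q := ∑ R ∈ G, ∑ S ∈ G, (P : ℝ) ^ (E R ∩ E S).card
  have h6 : (G.card * (B.card / P ^ h) : ℝ) ^ 2 ≤ B'.card * (Q * (B.card / (P ^ h * P ^ h))) := by
    rw [← h1, h3]
    refine h4.trans (mul_le_mul_of_nonneg_left (h5.trans h2) (Nat.cast_nonneg _))
  have hp : (0 : ℝ) < P ^ h := by positivity
  have h7 : (G.card * (B.card / P ^ h) : ℝ) ^ 2 =
      ((G.card : ℝ) ^ 2 * B.card) * (B.card / (P ^ h * P ^ h)) := by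
    field_simp
  have h8 : (B'.card : ℝ) * (Q * (B.card / (P ^ h * P ^ h))) =
      (Q * B'.card) * (B.card / (P ^ h * P ^ h)) := by ring
  rw [h7, h8] at h6
  exact le_of_mul_le_mul_right h6 (by positivity)

end Moment

section Parts

variable {P : ℕ} {W V α : Type} [Fintype W] [DecidableEq W] [Fintype V] [DecidableEq V]

open Classical in
/-- the number of maps which are constant on `T` with a given value -/
theorem card_const {m : ℕ} (T : Finset V) (j : Fin m) :
    (univ.filter fun p : V → Fin m => ∀ w ∈ T, p w = j).card * m ^ T.card =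
      m ^ Fintype.card V := by
  have h1 : (univ.filter fun p : V → Fin m => ∀ w ∈ T, p w = j) =
      Fintype.piFinset fun w => if w ∈ T then {j} else univ := by
    ext p
    rw [mem_filter, Fintype.mem_piFinset]
    constructor
    · intro h w
      split_ifs with hw
      · exact mem_singleton.2 (h.2 w hw)
      · exact mem_univ _
    · intro h
      refine ⟨mem_univ _, fun w hw => ?_⟩
      have h2 := h w
      rw [if_pos hw] at h2
      exact mem_singleton.1 h2
  rw [h1, Fintype.card_piFinset]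
  have h2 : ∀ w : V, (if w ∈ T then ({j} : Finset (Fin m)) else univ).card =
      if w ∈ T then 1 else m := by
    intro w
    split_ifs
    · exact card_singleton j
    · rw [card_univ, Fintype.card_fin]
  simp_rw [h2]
  rw [prod_ite, prod_const_one, one_mul, prod_const, ← pow_add]
  have h3 : (univ.filter fun w : V => w ∉ T).card + T.card = Fintype.card V := by
    have h4 := card_filter_add_card_filter_not (s := (univ : Finset V)) fun w => w ∈ T
    have h5 : (univ.filter fun w : V => w ∈ T) = T := by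
      ext w
      simp
    rw [h5, card_univ] at h4
    omega
  rw [h3]

open Classical in
/-- the members of `H` inside the part `j` -/
noncomputable def part {m : ℕ} (T : α → Finset V) (H : Finset α) (p : V → Fin m) (j : Fin m) :
    Finset α :=
  H.filter fun R => ∀ w ∈ T R, p w = j

/-- the second moment of the part `j` -/
noncomputable def Q2 {m : ℕ} (P l : ℕ) (T : α → Finset V) (H : Finset α) (p : V → Fin m)
    (j : Fin m) : ℝ :=
  ∑ R ∈ part T H p j, ∑ S ∈ part T H p j, ((P : ℝ) ^ l) ^ (T R ∩ T S).card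

/-- the share of the part `j` -/
noncomputable def th {m : ℕ} (P l : ℕ) (T : α → Finset V) (H : Finset α) (p : V → Fin m)
    (j : Fin m) : ℝ :=
  ((part T H p j).card : ℝ) ^ 2 / Q2 P l T H p j

theorem Q2_nonneg {m : ℕ} (P l : ℕ) (T : α → Finset V) (H : Finset α) (p : V → Fin m)
    (j : Fin m) : 0 ≤ Q2 P l T H p j :=
  sum_nonneg fun _ _ => sum_nonneg fun _ _ => by positivity

theorem Q2_ge {m : ℕ} {P : ℕ} (hP : 0 < P) (l : ℕ) (T : α → Finset V) (H : Finset α) (p : V → Fin m)
    (j : Fin m) : ((part T H p j).card : ℝ) ^ 2 ≤ Q2 P l T H p j := by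
  unfold Q2
  calc ((part T H p j).card : ℝ) ^ 2 =
        ∑ R ∈ part T H p j, ∑ S ∈ part T H p j, (1 : ℝ) := by
        simp only [sum_const, nsmul_eq_mul, mul_one]
        ring
    _ ≤ _ := sum_le_sum fun R _ => sum_le_sum fun S _ =>
        one_le_pow₀ (one_le_pow₀ (by exact_mod_cast hP))

theorem th_mul {m : ℕ} {P : ℕ} (hP : 0 < P) (l : ℕ) (T : α → Finset V) (H : Finset α) (p : V → Fin m)
    (j : Fin m) : th P l T H p j * Q2 P l T H p j = ((part T H p j).card : ℝ) ^ 2 := by
  unfold th
  rcases eq_or_ne (Q2 P l T H p j) 0 with h | h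
  · have h1 := Q2_ge hP l T H p j
    rw [h] at h1 ⊢
    have h2 : ((part T H p j).card : ℝ) ^ 2 = 0 := le_antisymm h1 (sq_nonneg _)
    rw [h2, mul_zero]
  · exact div_mul_cancel₀ _ h

open Classical in
/-- the parts are treated one after the other -/
theorem iterate (hP : 0 < P) {h m l : ℕ} (T : α → Finset V) (E : α → Finset W) (H : Finset α)
    (hc : ∀ R ∈ H, (E R).card = h)
    (hET : ∀ R ∈ H, ∀ S ∈ H, (E R ∩ E S).card ≤ l * (T R ∩ T S).card)
    (p : V → Fin m)
    (J : Finset (Fin m)) :
    ((univ.filter fun c : W → Fin P =>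
        ∀ j ∈ J, ∀ R ∈ part T H p j, ¬ zer c (E R)).card : ℝ) ≤
      P ^ Fintype.card W * Real.exp (- ∑ j ∈ J, th P l T H p j) := by
  induction J using Finset.induction_on with
  | empty =>
    rw [sum_empty, neg_zero, Real.exp_zero, mul_one]
    have h1 : (univ.filter fun c : W → Fin P =>
        ∀ j ∈ (∅ : Finset (Fin m)), ∀ R ∈ part T H p j, ¬ zer c (E R)).card ≤
        P ^ Fintype.card W := by
      refine (card_le_univ _).trans (le_of_eq ?_)
      rw [Fintype.card_fun, Fintype.card_fin]
    exact_mod_cast h1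
  | insert j J hj ih =>
    set B : Finset (W → Fin P) := univ.filter fun c : W → Fin P =>
        ∀ j ∈ J, ∀ R ∈ part T H p j, ¬ zer c (E R) with hB
    have h1 := second_moment hP (h := h) E (part T H p j) (fun R hR' => hc R (mem_filter.1 hR').1)
      B (by
        intro c hcB R hRp e he b
        rw [hB, mem_filter] at hcB ⊢
        refine ⟨mem_univ _, fun j' hj' S hS => ?_⟩
        have hR' := mem_filter.1 hRp
        have hS' := mem_filter.1 hS
        have h2 : e ∉ E S := by
          intro h3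
          have h4 := hET R hR'.1 S hS'.1
          have h5 : T R ∩ T S = ∅ := by
            rw [← disjoint_iff_inter_eq_empty, disjoint_left]
            intro w hw hw'
            have h6 := hR'.2 w hw
            have h7 := hS'.2 w hw'
            rw [h6] at h7
            exact hj (h7 ▸ hj')
          rw [h5, card_empty, mul_zero, Nat.le_zero, card_eq_zero] at h4
          exact notMem_empty e (h4 ▸ mem_inter.2 ⟨he, h3⟩)
        rw [zer_update h2]
        exact hcB.2 j' hj' S hS)
    have h1' : ((part T H p j).card : ℝ) ^ 2 * B.card ≤ Q2 P l T H p j *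
        (B.filter fun c => ∃ R ∈ part T H p j, zer c (E R)).card := by
      refine h1.trans (mul_le_mul_of_nonneg_right ?_ (Nat.cast_nonneg _))
      unfold Q2
      refine sum_le_sum fun R hR => sum_le_sum fun S hS => ?_
      rw [← pow_mul]
      exact pow_le_pow_right₀ (by exact_mod_cast hP) (hET R (mem_filter.1 hR).1 S (mem_filter.1 hS).1)
    have h2 := card_filter_add_card_filter_not (s := B) fun c =>
      ∃ R ∈ part T H p j, zer c (E R)
    have h3 : (univ.filter fun c : W → Fin P =>
        ∀ j' ∈ insert j J, ∀ R ∈ part T H p j', ¬ zer c (E R)) =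
        B.filter fun c => ¬ ∃ R ∈ part T H p j, zer c (E R) := by
      ext c
      rw [hB, mem_filter, mem_filter, mem_filter, Finset.forall_mem_insert]
      constructor
      · rintro ⟨_, h4, h5⟩
        exact ⟨⟨mem_univ _, h5⟩, fun ⟨R, hR1, hR2⟩ => h4 R hR1 hR2⟩
      · rintro ⟨⟨_, h4⟩, h5⟩
        exact ⟨mem_univ _, fun R hR1 hR2 => h5 ⟨R, hR1, hR2⟩, h4⟩
    rw [h3]
    have h4 : ((B.filter fun c => ¬ ∃ R ∈ part T H p j, zer c (E R)).card : ℝ) =
        B.card - (B.filter fun c => ∃ R ∈ part T H p j, zer c (E R)).card := by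
      rw [← h2]
      push_cast
      ring
    have h5 : th P l T H p j * B.card ≤
        (B.filter fun c => ∃ R ∈ part T H p j, zer c (E R)).card := by
      rcases eq_or_lt_of_le (Q2_nonneg P l T H p j) with h6 | h6
      · unfold th
        rw [← h6, div_zero, zero_mul]
        exact Nat.cast_nonneg _
      · unfold th
        rw [div_mul_eq_mul_div, div_le_iff₀ h6, mul_comm _ (Q2 P l T H p j)]
        exact h1'
    have h6 : 1 - th P l T H p j ≤ Real.exp (- th P l T H p j) := Real.one_sub_le_exp_neg _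
    rw [h4, sum_insert hj, neg_add, Real.exp_add]
    calc (B.card : ℝ) - (B.filter fun c => ∃ R ∈ part T H p j, zer c (E R)).card
        ≤ (1 - th P l T H p j) * B.card := by linarith
      _ ≤ Real.exp (- th P l T H p j) * B.card :=
        mul_le_mul_of_nonneg_right h6 (Nat.cast_nonneg _)
      _ ≤ Real.exp (- th P l T H p j) *
          (P ^ Fintype.card W * Real.exp (- ∑ j ∈ J, th P l T H p j)) :=
        mul_le_mul_of_nonneg_left ih (Real.exp_pos _).le
      _ = _ := by ring

open Classical in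
/-- averaging over the partitions -/
theorem exists_part (hP : 0 < P) {a m l : ℕ} (hm : 1 ≤ m) (T : α → Finset V) (H : Finset α)
    (hH : H.Nonempty) (ha : ∀ R ∈ H, (T R).card = a)
    (hQ : ∑ R ∈ H, ∑ S ∈ H, (m * P ^ l : ℝ) ^ (T R ∩ T S).card ≤ 2 * (H.card : ℝ) ^ 2) :
    ∃ p : V → Fin m, (m : ℝ) / 2 ≤ ∑ j, th P l T H p j := by
  have hm0 : (0 : ℝ) < m := Nat.cast_pos.2 hm
  have hH0 : (0 : ℝ) < H.card := Nat.cast_pos.2 (card_pos.2 hH)
  set M : ℝ := (m : ℝ) ^ Fintype.card V with hMd
  have hM0 : 0 < M := by positivity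
  have hcnt : ∀ (U : Finset V) (j : Fin m),
      ((univ.filter fun p : V → Fin m => ∀ w ∈ U, p w = j).card : ℝ) =
        M / (m : ℝ) ^ U.card := by
    intro U j
    rw [eq_div_iff (by positivity)]
    have h1 := card_const U j
    rw [hMd]
    exact_mod_cast h1
  have h1 : ∑ x : (V → Fin m) × Fin m, ((part T H x.1 x.2).card : ℝ) =
      H.card * (m * (M / (m : ℝ) ^ a)) := by
    have h2 : ∀ x : (V → Fin m) × Fin m, ((part T H x.1 x.2).card : ℝ) =
        ∑ R ∈ H, if (∀ w ∈ T R, x.1 w = x.2) then (1 : ℝ) else 0 := fun x => by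
      rw [sum_boole]
      rfl
    simp_rw [h2]
    rw [sum_comm]
    have h3 : ∀ R ∈ H, ∑ x : (V → Fin m) × Fin m,
        (if (∀ w ∈ T R, x.1 w = x.2) then (1 : ℝ) else 0) = m * (M / (m : ℝ) ^ a) := by
      intro R hR
      rw [Fintype.sum_prod_type_right]
      have h4 : ∀ j : Fin m, ∑ p : V → Fin m,
          (if (∀ w ∈ T R, p w = j) then (1 : ℝ) else 0) = M / (m : ℝ) ^ a := fun j => by
        rw [sum_boole, hcnt, ha R hR]
      simp only [h4, sum_const, card_univ, Fintype.card_fin, nsmul_eq_mul]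
    rw [sum_congr rfl h3, sum_const, nsmul_eq_mul]
  have h2 : ∑ x : (V → Fin m) × Fin m, Q2 P l T H x.1 x.2 ≤
      m * (M / (m : ℝ) ^ (2 * a)) * (2 * (H.card : ℝ) ^ 2) := by
    have h3 : ∀ x : (V → Fin m) × Fin m, Q2 P l T H x.1 x.2 =
        ∑ R ∈ H, ∑ S ∈ H, if (∀ w ∈ T R ∪ T S, x.1 w = x.2) then
          ((P : ℝ) ^ l) ^ (T R ∩ T S).card else 0 := by
      intro x
      unfold Q2 part
      rw [sum_filter]
      refine sum_congr rfl fun R _ => ?_
      by_cases h4 : ∀ w ∈ T R, x.1 w = x.2
      · rw [if_pos h4, sum_filter]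
        refine sum_congr rfl fun S _ => ?_
        by_cases h5 : ∀ w ∈ T S, x.1 w = x.2
        · rw [if_pos h5, if_pos]
          intro w hw
          rcases mem_union.1 hw with h6 | h6
          · exact h4 w h6
          · exact h5 w h6
        · rw [if_neg h5, if_neg]
          exact fun h6 => h5 fun w hw => h6 w (mem_union_right _ hw)
      · rw [if_neg h4]
        symm
        refine sum_eq_zero fun S _ => ?_
        rw [if_neg]
        exact fun h6 => h4 fun w hw => h6 w (mem_union_left _ hw)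
    simp_rw [h3]
    rw [sum_comm]
    have h4 : ∀ R ∈ H, ∑ x : (V → Fin m) × Fin m, ∑ S ∈ H,
        (if (∀ w ∈ T R ∪ T S, x.1 w = x.2) then
          ((P : ℝ) ^ l) ^ (T R ∩ T S).card else 0) =
        m * (M / (m : ℝ) ^ (2 * a)) * ∑ S ∈ H, (m * P ^ l : ℝ) ^ (T R ∩ T S).card := by
      intro R hR
      rw [sum_comm, mul_sum]
      refine sum_congr rfl fun S hS => ?_
      rw [Fintype.sum_prod_type_right]
      have h5 : ∀ j : Fin m, ∑ p : V → Fin m, (if (∀ w ∈ T R ∪ T S, p w = j) then
          ((P : ℝ) ^ l) ^ (T R ∩ T S).card else 0) =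
          M / (m : ℝ) ^ (T R ∪ T S).card * ((P : ℝ) ^ l) ^ (T R ∩ T S).card := fun j => by
        rw [← sum_filter, sum_const, nsmul_eq_mul, hcnt]
      simp only [h5, sum_const, card_univ, Fintype.card_fin, nsmul_eq_mul]
      have h6 := card_union_add_card_inter (T R) (T S)
      rw [ha R hR, ha S hS] at h6
      have h7 : (m : ℝ) ^ (2 * a) =
          (m : ℝ) ^ (T R ∪ T S).card * (m : ℝ) ^ (T R ∩ T S).card := by
        rw [← pow_add, h6, two_mul]
      rw [h7, mul_pow]
      field_simp
    rw [sum_congr rfl h4, ← mul_sum]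
    exact mul_le_mul_of_nonneg_left hQ (by positivity)
  have h3 : (∑ x : (V → Fin m) × Fin m, ((part T H x.1 x.2).card : ℝ)) ^ 2 ≤
      (∑ x : (V → Fin m) × Fin m, th P l T H x.1 x.2) *
        ∑ x : (V → Fin m) × Fin m, Q2 P l T H x.1 x.2 := by
    refine sum_sq_le_sum_mul_sum_of_sq_le_mul _ (fun x _ => ?_)
      (fun x _ => Q2_nonneg _ _ _ _ _ _) fun x _ => (th_mul hP _ _ _ _ _).ge
    exact div_nonneg (sq_nonneg _) (Q2_nonneg _ _ _ _ _ _)
  have h4 : (0 : ℝ) ≤ ∑ x : (V → Fin m) × Fin m, th P l T H x.1 x.2 :=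
    sum_nonneg fun x _ => div_nonneg (sq_nonneg _) (Q2_nonneg _ _ _ _ _ _)
  have h5 := h3.trans (mul_le_mul_of_nonneg_left h2 h4)
  rw [h1] at h5
  have h6 : M * (m / 2) ≤ ∑ x : (V → Fin m) × Fin m, th P l T H x.1 x.2 := by
    set Θ := ∑ x : (V → Fin m) × Fin m, th P l T H x.1 x.2
    have h7 : ((H.card : ℝ) * (m * (M / (m : ℝ) ^ a))) ^ 2 =
        (M * (m / 2)) * (m * (M / (m : ℝ) ^ (2 * a)) * (2 * (H.card : ℝ) ^ 2)) := by
      rw [mul_comm 2 a, pow_mul]
      field_simp
    rw [h7] at h5
    exact le_of_mul_le_mul_right h5 (by positivity)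
  rw [Fintype.sum_prod_type] at h6
  by_contra hcon
  push Not at hcon
  have h7 : ∑ p : V → Fin m, ∑ j, th P l T H p j < ∑ p : V → Fin m, (m : ℝ) / 2 := by
    refine sum_lt_sum_of_nonempty ?_ fun p _ => hcon p
    exact ⟨fun _ => ⟨0, hm⟩, mem_univ _⟩
  rw [sum_const, card_univ, Fintype.card_fun, Fintype.card_fin, nsmul_eq_mul] at h7
  push_cast at h7
  rw [← hMd] at h7
  exact absurd h6 (not_le.2 h7)

omit [Fintype V] in
open Classical in
/-- the second moment of a spread family -/
theorem spread_sum (hP : 0 < P) {a l m : ℕ} (hm : 1 ≤ m) (hl : 1 ≤ l) (hal : a ≤ l) (T : α → Finset V)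
    (H : Finset α) (ha : ∀ R ∈ H, (T R).card = a)
    (hs : ∀ R ∈ H, ∀ U ⊆ T R,
      (H.filter fun S => U ⊆ T S).card * (2 * l * m * P ^ l) ^ U.card ≤ H.card) :
    ∑ R ∈ H, ∑ S ∈ H, (m * P ^ l : ℝ) ^ (T R ∩ T S).card ≤ 2 * (H.card : ℝ) ^ 2 := by
  have hm0 : (1 : ℝ) ≤ m := Nat.one_le_cast.2 hm
  have hl0 : (1 : ℝ) ≤ l := Nat.one_le_cast.2 hl
  have h80 : (1 : ℝ) ≤ P ^ l := one_le_pow₀ (by exact_mod_cast hP)
  set x : ℝ := m * P ^ l - 1 with hx
  have hx0 : 0 ≤ x := by nlinarith
  set D : ℝ := 2 * l * m * P ^ l with hD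
  have hD0 : 0 < D := by positivity
  have h1 : ∀ R ∈ H, ∑ S ∈ H, (m * P ^ l : ℝ) ^ (T R ∩ T S).card ≤ 2 * H.card := by
    intro R hR
    have h2 : ∀ S ∈ H, (m * P ^ l : ℝ) ^ (T R ∩ T S).card =
        ∑ U ∈ (T R).powerset, if U ⊆ T S then x ^ U.card else 0 := by
      intro S _
      have h3 := sum_pow_mul_eq_add_pow x 1 (T R ∩ T S)
      simp only [one_pow, mul_one] at h3
      have h4 : (m * P ^ l : ℝ) = x + 1 := by rw [hx]; ring
      rw [h4, ← h3, ← sum_filter]
      refine sum_congr ?_ fun _ _ => rfl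
      ext U
      rw [mem_filter, mem_powerset, mem_powerset, subset_inter_iff]
    rw [sum_congr rfl h2, sum_comm]
    have h3 : ∀ U ∈ (T R).powerset, (∑ S ∈ H, if U ⊆ T S then x ^ U.card else 0) ≤
        H.card * ((x / D) ^ U.card * 1 ^ ((T R).card - U.card)) := by
      intro U hU
      rw [mem_powerset] at hU
      rw [← sum_filter, sum_const, nsmul_eq_mul, one_pow, mul_one, div_pow, ← mul_div_assoc,
        le_div_iff₀ (by positivity)]
      have h4 := hs R hR U hU
      have h6 : (((H.filter fun S => U ⊆ T S).card * (2 * l * m * P ^ l) ^ U.card : ℕ) : ℝ) ≤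
          ((H.card : ℕ) : ℝ) := by
        exact_mod_cast h4
      push_cast at h6
      rw [← hD] at h6
      have h7 : 0 ≤ x ^ U.card := by positivity
      calc ((H.filter fun S => U ⊆ T S).card : ℝ) * x ^ U.card * D ^ U.card
          = (((H.filter fun S => U ⊆ T S).card : ℝ) * D ^ U.card) * x ^ U.card := by ring
        _ ≤ H.card * x ^ U.card := mul_le_mul_of_nonneg_right h6 h7
    refine (sum_le_sum h3).trans ?_
    rw [← mul_sum, sum_pow_mul_eq_add_pow, ha R hR]
    have h4 : (x / D + 1) ^ a ≤ 2 := by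
      have h5 : x / D + 1 ≤ Real.exp (x / D) := Real.add_one_le_exp _
      have h6 : (a : ℝ) * (x / D) ≤ 1 / 2 := by
        have h7 : (a : ℝ) ≤ l := by exact_mod_cast hal
        rw [← mul_div_assoc, div_le_div_iff₀ hD0 (by norm_num), hD]
        have h8 : (a : ℝ) * x ≤ l * (m * P ^ l) :=
          mul_le_mul h7 (by rw [hx]; linarith) hx0 (by positivity)
        linarith
      have h9 : Real.exp (1 / 2) ≤ 2 := by
        have h10 : Real.exp (1 / 2) ^ 2 = Real.exp 1 := by
          rw [← Real.exp_nat_mul]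
          norm_num
        have h11 := Real.exp_one_lt_d9
        have h12 : Real.exp (1 / 2) ^ 2 ≤ 2 ^ 2 := by
          rw [h10]
          linarith
        exact (sq_le_sq₀ (Real.exp_pos _).le (by norm_num)).1 h12
      calc (x / D + 1) ^ a ≤ Real.exp (x / D) ^ a := pow_le_pow_left₀ (by positivity) h5 a
        _ = Real.exp (a * (x / D)) := (Real.exp_nat_mul _ _).symm
        _ ≤ Real.exp (1 / 2) := Real.exp_le_exp.2 h6
        _ ≤ 2 := h9
    calc (H.card : ℝ) * (x / D + 1) ^ a ≤ (H.card : ℝ) * 2 :=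
          mul_le_mul_of_nonneg_left h4 (by positivity)
      _ = 2 * H.card := by ring
  calc ∑ R ∈ H, ∑ S ∈ H, (m * P ^ l : ℝ) ^ (T R ∩ T S).card ≤ ∑ R ∈ H, 2 * (H.card : ℝ) :=
        sum_le_sum h1
    _ = 2 * (H.card : ℝ) ^ 2 := by
      rw [sum_const, nsmul_eq_mul]
      ring

/-- **a spread family**: few assignments make no member zero -/
theorem spread_zer (hP : 0 < P) {h a l m : ℕ} (hm : 1 ≤ m) (hl : 1 ≤ l) (hal : a ≤ l)
    (T : α → Finset V) (E : α → Finset W) (H : Finset α) (hH : H.Nonempty)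
    (hc : ∀ R ∈ H, (E R).card = h) (ha : ∀ R ∈ H, (T R).card = a)
    (hET : ∀ R ∈ H, ∀ S ∈ H, (E R ∩ E S).card ≤ l * (T R ∩ T S).card)
    (hs : ∀ R ∈ H, ∀ U ⊆ T R, ∀ H' ⊆ H, (∀ S ∈ H', U ⊆ T S) →
      H'.card * (2 * l * m * P ^ l) ^ U.card ≤ H.card)
    (C : Finset (W → Fin P)) (hC : ∀ c ∈ C, ∀ R ∈ H, ¬ zer c (E R)) :
    (C.card : ℝ) ≤ P ^ Fintype.card W * Real.exp (- (m / 2)) := by
  classical
  obtain ⟨p, hp⟩ := exists_part hP hm T H hH ha (spread_sum hP hm hl hal T H ha
    (fun R hR U hU => hs R hR U hU _ (filter_subset _ _) (fun S hS => (mem_filter.1 hS).2)))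
  have h1 := iterate hP (l := l) T E H hc hET p univ
  have h2 : C.card ≤
      (univ.filter fun c : W → Fin P => ∀ j ∈ (univ : Finset (Fin m)),
        ∀ R ∈ part T H p j, ¬ zer c (E R)).card :=
    card_le_card (fun c hc' => mem_filter.2 ⟨mem_univ _, fun j _ R hR' =>
      hC c hc' R (mem_filter.1 hR').1⟩)
  refine (Nat.cast_le.2 h2).trans (h1.trans ?_)
  refine mul_le_mul_of_nonneg_left (Real.exp_le_exp.2 ?_) (by positivity)
  linarith

end Parts

end Pool.Agent.DN
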