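import Pool.Agent.Lib.MP_66cd2e_lc.DN.Fam
import Pool.Agent.Lib.MP_0087d5_lc.NEGS.Sys

/-!
The approximation system for cliques in `k`-partite graphs and its dichotomy.
-/

namespace Pool.Agent.DN

open Finset Pool.Agent.NEGS

variable {k q P : ℕ}

/-- a geometric sum from `i0` with the ratio `B / Q` -/
theorem sum_geo2 (cnt : ℕ → ℕ) (F Q B i0 l : ℕ) (hQ : 2 * B ≤ Q) (hB : 1 ≤ B)
    (h : ∀ i, i0 ≤ i → i ≤ l → Q ^ i * cnt i ≤ B ^ i * F) :
    Q ^ i0 * ∑ i ∈ Icc i0 l, cnt i ≤ 2 * (B ^ i0 * F) := by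
  have hQ0 : 0 < Q := by omega
  have hterm : ∀ k : ℕ, i0 + k ≤ l → 2 ^ k * (Q ^ i0 * cnt (i0 + k)) ≤ B ^ i0 * F := by
    intro k hk
    have h1 := h (i0 + k) (by omega) hk
    have hpos : 0 < Q ^ k := Nat.pow_pos hQ0
    apply Nat.le_of_mul_le_mul_left _ hpos
    calc Q ^ k * (2 ^ k * (Q ^ i0 * cnt (i0 + k)))
        = 2 ^ k * (Q ^ (i0 + k) * cnt (i0 + k)) := by rw [pow_add]; ring
      _ ≤ 2 ^ k * (B ^ (i0 + k) * F) := Nat.mul_le_mul_left _ h1
      _ = (2 * B) ^ k * (B ^ i0 * F) := by rw [mul_pow, pow_add]; ring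
      _ ≤ Q ^ k * (B ^ i0 * F) :=
          Nat.mul_le_mul_right _ (Nat.pow_le_pow_left (by omega) k)
  have key : ∀ m : ℕ, i0 + m ≤ l + 1 →
      2 ^ m * ∑ k ∈ range m, (Q ^ i0 * cnt (i0 + k)) ≤ 2 * ((2 ^ m - 1) * (B ^ i0 * F)) := by
    intro m
    induction m with
    | zero => intro _; simp
    | succ m ih =>
        intro hm
        have h1 := ih (by omega)
        have h2 := hterm m (by omega)
        rw [sum_range_succ]
        have h4 : 2 ^ (m + 1) - 1 = 2 * (2 ^ m - 1) + 1 := by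
          have : 1 ≤ 2 ^ m := Nat.one_le_two_pow
          rw [pow_succ']
          omega
        rw [h4]
        calc 2 ^ (m + 1) * (∑ k ∈ range m, (Q ^ i0 * cnt (i0 + k)) + Q ^ i0 * cnt (i0 + m))
            = 2 * (2 ^ m * ∑ k ∈ range m, (Q ^ i0 * cnt (i0 + k))) +
                2 * (2 ^ m * (Q ^ i0 * cnt (i0 + m))) := by rw [pow_succ]; ring
          _ ≤ 2 * (2 * ((2 ^ m - 1) * (B ^ i0 * F))) + 2 * (B ^ i0 * F) :=
              Nat.add_le_add (Nat.mul_le_mul_left _ h1) (Nat.mul_le_mul_left _ h2)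
          _ = _ := by ring
  by_cases hil : i0 ≤ l
  · have h1 := key (l + 1 - i0) (by omega)
    have h2 : ∑ i ∈ Icc i0 l, cnt i = ∑ k ∈ range (l + 1 - i0), cnt (i0 + k) := by
      have h3 : Icc i0 l = Ico i0 (l + 1) := by
        ext i
        simp only [mem_Icc, mem_Ico]
        omega
      rw [h3, sum_Ico_eq_sum_range]
    rw [h2, mul_sum]
    have hpos : 0 < 2 ^ (l + 1 - i0) := by positivity
    apply Nat.le_of_mul_le_mul_left _ hpos
    calc _ ≤ 2 * ((2 ^ (l + 1 - i0) - 1) * (B ^ i0 * F)) := h1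
      _ ≤ 2 * (2 ^ (l + 1 - i0) * (B ^ i0 * F)) :=
          Nat.mul_le_mul_left _ (Nat.mul_le_mul_right _ (Nat.sub_le _ _))
      _ = _ := by ring
  · have h1 : Icc i0 l = ∅ := by
      rw [Icc_eq_empty_iff]
      exact hil
    rw [h1, sum_empty, Nat.mul_zero]
    exact Nat.zero_le _

/-- the number of edges of a clique -/
theorem kedge_card (R : Finset (Vx k q)) : 2 * (kedge R).card ≤ R.card * (R.card - 1) := by
  classical
  have h1 : (kedge R).card * 2 ≤ R.offDiag.card := by
    have h2 : ((kedge R) ×ˢ (univ : Finset Bool)).card ≤ R.offDiag.card := by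
      apply card_le_card_of_injOn (fun p => if p.2 then (p.1.1.1, p.1.1.2) else
        (p.1.1.2, p.1.1.1))
      · rintro ⟨e, b⟩ hp
        rw [mem_coe, mem_product] at hp
        have h3 := mem_kedge.mp hp.1
        have h4 := e.ne
        rw [mem_coe, mem_offDiag]
        cases b
        · exact ⟨h3.2, h3.1, fun h => h4 h.symm⟩
        · exact ⟨h3.1, h3.2, h4⟩
      · intro p hp p' hp' h
        have h5 := p.1.2
        have h6 := p'.1.2
        obtain ⟨e, b⟩ := p
        obtain ⟨e', b'⟩ := p'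
        simp only at h h5 h6
        rcases b with _ | _ <;> rcases b' with _ | _
        · simp only [Bool.false_eq_true, if_false, Prod.mk.injEq] at h
          have : e = e' := Subtype.ext (Prod.ext h.2 h.1)
          rw [this]
        · simp only [Bool.false_eq_true, if_false, if_true, Prod.mk.injEq] at h
          rw [← h.1, ← h.2] at h6
          exact absurd (h5.trans h6) (lt_irrefl _)
        · simp only [Bool.false_eq_true, if_false, if_true, Prod.mk.injEq] at h
          rw [← h.1, ← h.2] at h6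
          exact absurd (h5.trans h6) (lt_irrefl _)
        · simp only [if_true, Prod.mk.injEq] at h
          have : e = e' := Subtype.ext (Prod.ext h.1 h.2)
          rw [this]
    rwa [card_product, card_univ, Fintype.card_bool] at h2
  rw [offDiag_card] at h1
  have h7 : R.card * R.card - R.card = R.card * (R.card - 1) := by
    rw [Nat.mul_sub_one]
  rw [h7] at h1
  omega

open Classical in
/-- the number of negative tests which contain given edges -/
theorem card_py (hP : 0 < P) (E0 : Finset (Ed k q)) :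
    P ^ E0.card * (univ.filter (fun c : Ed k q → Fin P =>
      ∀ e ∈ E0, py c e = true)).card = P ^ Fintype.card (Ed k q) := by
  have h1 := card_zero hP E0 (univ : Finset (Ed k q → Fin P))
    (fun _ _ _ _ _ => mem_univ _)
  rw [card_univ, Fintype.card_fun, Fintype.card_fin] at h1
  have h2 : univ.filter (fun c : Ed k q → Fin P => ∀ e ∈ E0, py c e = true) =
      univ.filter (fun c => zer c E0) := by
    refine filter_congr (fun c _ => ?_)
    unfold py zer
    refine forall₂_congr (fun e _ => ?_)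
    exact decide_eq_true_iff
  rw [h2]
  exact h1

open Classical in
/-- the dichotomy for closed families -/
theorem dich {l ρ B : ℕ} (hP : 2 ≤ P) (hB : 1 ≤ B) (hsun : Sun k q P l ρ B)
    (hq : 2 * P ^ l * B ≤ q) {𝓕 : Finset (Finset (Vx k q))} (h𝓕 : Closed P l ρ 𝓕) :
    (∀ w, ev 𝓕 w) ∨
    (univ.filter (fun s : Fin k → Fin q => ev 𝓕 (px s))).card *
      P ^ Fintype.card (Ed k q) ≤
      (univ.filter (fun c : Ed k q → Fin P => ev 𝓕 (py c))).card * q ^ k := by
  by_cases hsm : ∃ R ∈ 𝓕, R.card ≤ 1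
  · left
    obtain ⟨R, hR, h1⟩ := hsm
    intro w
    refine ⟨R, hR, ?_⟩
    rw [kedge_of_card_le_one h1]
    intro e he
    exact absurd he (notMem_empty e)
  right
  push Not at hsm
  by_cases hne : 𝓕.Nonempty
  swap
  · rw [not_nonempty_iff_eq_empty] at hne
    have h0 : univ.filter (fun s : Fin k → Fin q => ev 𝓕 (px s)) = ∅ := by
      rw [filter_eq_empty_iff]
      rintro σ _ ⟨R, hR, _⟩
      rw [hne] at hR
      exact absurd hR (notMem_empty R)
    rw [h0, card_empty, Nat.zero_mul]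
    exact Nat.zero_le _
  obtain ⟨R0, hR0, hmin⟩ := exists_min_image 𝓕 Finset.card hne
  set i0 := R0.card with hi0
  have hi2 : 2 ≤ i0 := hsm R0 hR0
  have hi0l : i0 ≤ l := (h𝓕.term R0 hR0).1
  have h4l : 1 ≤ P ^ l := Nat.one_le_pow _ _ (by omega)
  have hq2 : 2 * B ≤ q := by
    refine le_trans ?_ hq
    apply Nat.mul_le_mul_right
    omega
  have hsub : univ.filter (fun s : Fin k → Fin q => ev 𝓕 (px s)) ⊆
      (Icc i0 l).biUnion (fun i => ((mins 𝓕).filter (fun R => R.card = i)).biUnion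
        (fun R => thru R)) := by
    intro s hs
    rw [mem_filter] at hs
    obtain ⟨R, hR, hsR⟩ := min_thru h𝓕 hs.2
    have hR𝓕 := (mem_filter.mp hR).1
    exact mem_biUnion.mpr ⟨R.card, mem_Icc.mpr ⟨hmin R hR𝓕, (h𝓕.term R hR𝓕).1⟩,
      mem_biUnion.mpr ⟨R, mem_filter.mpr ⟨hR, rfl⟩, hsR⟩⟩
  have h1 := (card_le_card hsub).trans (card_biUnion_le)
  have h2 : ∀ i, i0 ≤ i → i ≤ l → q ^ i *
      (((mins 𝓕).filter (fun R => R.card = i)).biUnion (fun R => thru R)).card ≤
      B ^ i * q ^ k := by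
    intro i _ _
    calc q ^ i * (((mins 𝓕).filter (fun R => R.card = i)).biUnion (fun R => thru R)).card
        ≤ q ^ i * ∑ R ∈ (mins 𝓕).filter (fun R => R.card = i), (thru R).card :=
          Nat.mul_le_mul_left _ card_biUnion_le
      _ = ∑ R ∈ (mins 𝓕).filter (fun R => R.card = i), q ^ i * (thru R).card := by
          rw [mul_sum]
      _ ≤ ∑ R ∈ (mins 𝓕).filter (fun R => R.card = i), q ^ k := by
          apply sum_le_sum
          intro R hR
          have hc := (mem_filter.mp hR).2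
          have h4 := thru_card R
          rw [hc] at h4
          exact h4
      _ = ((mins 𝓕).filter (fun R => R.card = i)).card * q ^ k := by
          rw [sum_const, smul_eq_mul]
      _ ≤ B ^ i * q ^ k := Nat.mul_le_mul_right _ (card_mins hsun h𝓕 i)
  have h3 := sum_geo2 _ _ q B i0 l hq2 hB h2
  have h4 : q ^ i0 * (univ.filter (fun s : Fin k → Fin q => ev 𝓕 (px s))).card ≤
      2 * (B ^ i0 * q ^ k) := (Nat.mul_le_mul_left _ h1).trans h3
  -- the negative tests
  have h5 := card_py (P := P) (by omega) (kedge R0)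
  have h6 : (univ.filter (fun c : Ed k q → Fin P => ∀ e ∈ kedge R0, py c e = true)).card ≤
      (univ.filter (fun c : Ed k q → Fin P => ev 𝓕 (py c))).card := by
    apply card_le_card
    intro c hc
    rw [mem_filter] at hc ⊢
    exact ⟨mem_univ _, R0, hR0, hc.2⟩
  have h7 : P ^ (kedge R0).card ≤ (P ^ l) ^ i0 := by
    have h8 := kedge_card R0
    rw [← hi0] at h8
    have h9 : i0 * (i0 - 1) ≤ i0 * l := Nat.mul_le_mul_left _ (by omega)
    rw [← pow_mul]
    apply Nat.pow_le_pow_right (by omega)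
    rw [Nat.mul_comm l i0]
    omega
  have h8 : 2 * P ^ (kedge R0).card * B ^ i0 ≤ q ^ i0 := by
    have h9 : 2 ≤ 2 ^ i0 := by
      calc 2 = 2 ^ 1 := by norm_num
        _ ≤ 2 ^ i0 := Nat.pow_le_pow_right (by norm_num) (by omega)
    calc 2 * P ^ (kedge R0).card * B ^ i0 ≤ 2 ^ i0 * (P ^ l) ^ i0 * B ^ i0 := by
          gcongr
      _ = (2 * P ^ l * B) ^ i0 := by rw [mul_pow, mul_pow]
      _ ≤ q ^ i0 := Nat.pow_le_pow_left hq i0
  have hqi : 0 < q ^ i0 := Nat.pow_pos (by omega)
  have h9 : P ^ (kedge R0).card *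
      (univ.filter (fun s : Fin k → Fin q => ev 𝓕 (px s))).card ≤ q ^ k := by
    apply Nat.le_of_mul_le_mul_left _ hqi
    calc q ^ i0 * (P ^ (kedge R0).card *
          (univ.filter (fun s : Fin k → Fin q => ev 𝓕 (px s))).card)
        = P ^ (kedge R0).card * (q ^ i0 *
          (univ.filter (fun s : Fin k → Fin q => ev 𝓕 (px s))).card) := by ring
      _ ≤ P ^ (kedge R0).card * (2 * (B ^ i0 * q ^ k)) := Nat.mul_le_mul_left _ h4
      _ = (2 * P ^ (kedge R0).card * B ^ i0) * q ^ k := by ring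
      _ ≤ q ^ i0 * q ^ k := Nat.mul_le_mul_right _ h8
  calc (univ.filter (fun s : Fin k → Fin q => ev 𝓕 (px s))).card *
        P ^ Fintype.card (Ed k q)
      = (P ^ (kedge R0).card *
          (univ.filter (fun s : Fin k → Fin q => ev 𝓕 (px s))).card) *
          (univ.filter (fun c : Ed k q → Fin P => ∀ e ∈ kedge R0, py c e = true)).card := by
        rw [← h5]
        ring
    _ ≤ q ^ k * (univ.filter (fun c : Ed k q → Fin P => ev 𝓕 (py c))).card :=
        Nat.mul_le_mul h9 h6
    _ = _ := Nat.mul_comm _ _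

section Classes

variable {l ρ B : ℕ}

theorem card_tests : Fintype.card (Ed k q → Fin P) = P ^ Fintype.card (Ed k q) := by
  rw [Fintype.card_fun, Fintype.card_fin]

open Classical in
/-- the family of a variable -/
noncomputable def varF (k q l : ℕ) (e : Ed k q) : Finset (Finset (Vx k q)) :=
  (terms k q l).filter (fun R => e.1.1 ∈ R ∧ e.1.2 ∈ R)

theorem mem_varF {e : Ed k q} {R : Finset (Vx k q)} :
    R ∈ varF k q l e ↔ Term l R ∧ e.1.1 ∈ R ∧ e.1.2 ∈ R := by
  unfold varF
  rw [mem_filter, mem_terms]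

theorem varF_closed (hP : 2 ≤ P) (hρ : 2 * ρ < P ^ Fintype.card (Ed k q)) (e : Ed k q) :
    Closed P l ρ (varF k q l e) := by
  classical
  refine ⟨fun R hR => (mem_varF.mp hR).1, ?_, ?_⟩
  · intro S hS R hR hSR
    have h := mem_varF.mp hS
    exact mem_varF.mpr ⟨hR, hSR h.2.1, hSR h.2.2⟩
  · intro K hK hf
    refine mem_varF.mpr ⟨hK, ?_⟩
    by_contra heK
    have h1 : univ.filter (fun c : Ed k q → Fin P => ¬ ∀ f ∈ ({e} : Finset (Ed k q)),
        py c f = true) ⊆ fail P (varF k q l e) K := by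
      intro c hc
      rw [mem_filter] at hc
      rw [mem_fail]
      intro R hR _ h3
      apply hc.2
      intro f hf
      rw [mem_singleton] at hf
      rw [hf]
      have h4 := mem_varF.mp hR
      apply h3 e
      rw [mem_sdiff, mem_kedge, mem_kedge]
      exact ⟨h4.2, heK⟩
    have h2 := card_le_card h1
    have h3 := card_filter_add_card_filter_not (s := (univ : Finset (Ed k q → Fin P)))
      (fun c => ∀ f ∈ ({e} : Finset (Ed k q)), py c f = true)
    have h4 := card_py (k := k) (q := q) (P := P) (by omega) {e}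
    rw [card_singleton, pow_one] at h4
    rw [card_univ, card_tests] at h3
    have h5 := (Nat.mul_le_mul_right _ hP).trans h4.le
    omega

theorem ev_varF (hl : 2 ≤ l) (e : Ed k q) (w : Ed k q → Bool) :
    ev (varF k q l e) w ↔ w e = true := by
  classical
  constructor
  · rintro ⟨R, hR, hw⟩
    exact hw e (mem_kedge.mpr (mem_varF.mp hR).2)
  · intro hw
    refine ⟨{e.1.1, e.1.2}, mem_varF.mpr ⟨⟨?_, ?_⟩, by simp, by simp⟩, ?_⟩
    · exact card_le_two.trans hl
    · intro a ha b hb hab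
      rw [mem_insert, mem_singleton] at ha hb
      have h1 := e.2
      rcases ha with rfl | rfl <;> rcases hb with rfl | rfl
      · rfl
      · rw [hab] at h1
        exact absurd h1 (lt_irrefl _)
      · rw [hab] at h1
        exact absurd h1 (lt_irrefl _)
      · rfl
    · intro f hf
      rw [mem_kedge] at hf
      have h1 := e.2
      have h2 := f.2
      obtain ⟨h3, h4⟩ := hf
      rw [mem_insert, mem_singleton] at h3 h4
      have h5 : f = e := by
        rcases h3 with h3 | h3 <;> rcases h4 with h4 | h4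
        · rw [h3, h4] at h2
          exact absurd h2 (lt_irrefl _)
        · exact Subtype.ext (Prod.ext h3 h4)
        · rw [h3, h4] at h2
          exact absurd (h1.trans h2) (lt_irrefl _)
        · rw [h3, h4] at h2
          exact absurd h2 (lt_irrefl _)
      rw [h5]
      exact hw

theorem terms_closed : Closed P l ρ (terms k q l) :=
  ⟨fun _ hR => mem_terms.mp hR, fun _ _ _ hR _ => mem_terms.mpr hR,
    fun _ hK _ => mem_terms.mpr hK⟩

theorem ev_terms (w : Ed k q → Bool) : ev (terms k q l) w := by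
  refine ⟨∅, mem_terms.mpr ⟨by simp, fun a ha => absurd ha (notMem_empty a)⟩, ?_⟩
  intro e he
  rw [mem_kedge] at he
  exact absurd he.1 (notMem_empty _)

theorem empty_closed (hρ : 2 * ρ < P ^ Fintype.card (Ed k q)) :
    Closed P l ρ (∅ : Finset (Finset (Vx k q))) := by
  classical
  refine ⟨fun R hR => absurd hR (notMem_empty R), fun S hS => absurd hS (notMem_empty S), ?_⟩
  intro K _ hf
  exfalso
  have h1 : fail P (∅ : Finset (Finset (Vx k q))) K = univ := by
    rw [eq_univ_iff_forall]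
    intro c
    rw [mem_fail]
    intro R hR
    exact absurd hR (notMem_empty R)
  rw [h1, card_univ, card_tests] at hf
  omega

theorem not_ev_empty (w : Ed k q → Bool) : ¬ ev (∅ : Finset (Finset (Vx k q))) w := by
  rintro ⟨R, hR, _⟩
  exact absurd hR (notMem_empty R)

theorem ev_mono_fam {𝓕 𝓖 : Finset (Finset (Vx k q))} (h : 𝓕 ⊆ 𝓖) {w : Ed k q → Bool}
    (hw : ev 𝓕 w) : ev 𝓖 w := by
  obtain ⟨R, hR, h1⟩ := hw
  exact ⟨R, h hR, h1⟩

open Classical in
theorem exists_or (a b : {𝓕 : Finset (Finset (Vx k q)) // Closed P l ρ 𝓕}) :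
    ∃ d : {𝓕 : Finset (Finset (Vx k q)) // Closed P l ρ 𝓕},
      (∀ w, ev a.1 w ∨ ev b.1 w → ev d.1 w) ∧
      (univ.filter (fun c : Ed k q → Fin P =>
        ev d.1 (py c) ∧ ¬ (ev a.1 (py c) ∨ ev b.1 (py c)))).card ≤ (terms k q l).card * ρ := by
  obtain ⟨𝓖, h1, h2, h3⟩ := exists_closed (l := l) ρ (terms k q l).card (a.1 ∪ b.1) (by
    intro R hR
    rcases mem_union.mp hR with h | h
    · exact a.2.term R h
    · exact b.2.term R h) (by omega)
  refine ⟨⟨𝓖, h1⟩, ?_, ?_⟩
  · rintro w (h | h)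
    · exact ev_mono_fam (subset_union_left.trans h2) h
    · exact ev_mono_fam (subset_union_right.trans h2) h
  · refine le_trans (card_le_card ?_) h3
    intro c hc
    rw [mem_filter] at hc ⊢
    refine ⟨mem_univ _, hc.2.1, ?_⟩
    rintro ⟨R, hR, hw⟩
    apply hc.2.2
    rcases mem_union.mp hR with h | h
    · exact Or.inl ⟨R, h, hw⟩
    · exact Or.inr ⟨R, h, hw⟩

open Classical in
/-- **the approximation system** -/
theorem exists_sys (hP : 2 ≤ P) (hl : 2 ≤ l) (hB : 1 ≤ B) (hsun : Sun k q P l ρ B)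
    (hρ : 2 * ρ < P ^ Fintype.card (Ed k q)) (hq : 2 * P ^ l * B ≤ q) (ep en : ℝ)
    (hep : (((l + 1) ^ 2 * B ^ (2 * l) * q ^ k : ℕ) : ℝ) ≤ ep * (q : ℝ) ^ (l + 1))
    (hen : (((terms k q l).card * ρ : ℕ) : ℝ) ≤ en) :
    ∃ S : Sys (Ed k q) (Fin k → Fin q) (Ed k q → Fin P) px py ep en,
      ∀ a : S.A, (∀ w, S.ev a w = true) ∨
        (univ.filter (fun s : Fin k → Fin q => S.ev a (px s) = true)).card *
          P ^ Fintype.card (Ed k q) ≤
          (univ.filter (fun c : Ed k q → Fin P => S.ev a (py c) = true)).card * q ^ k := by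
  have hq0 : 0 < q := by
    have hP0 : 0 < P := by omega
    have : 0 < 2 * P ^ l * B := by positivity
    omega
  have hqr : (0 : ℝ) < (q : ℝ) ^ (l + 1) := by positivity
  have hep0 : 0 ≤ ep := by
    have h1 : (0 : ℝ) ≤ (((l + 1) ^ 2 * B ^ (2 * l) * q ^ k : ℕ) : ℝ) := Nat.cast_nonneg _
    exact nonneg_of_mul_nonneg_left (h1.trans hep) hqr
  have hen0 : 0 ≤ en := le_trans (Nat.cast_nonneg _) hen
  let S : Sys (Ed k q) (Fin k → Fin q) (Ed k q → Fin P) px py ep en :=
    { A := {𝓕 : Finset (Finset (Vx k q)) // Closed P l ρ 𝓕}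
      ev := fun a w => decide (ev a.1 w)
      var := fun e => ⟨varF k q l e, varF_closed hP hρ e⟩
      top := ⟨terms k q l, terms_closed⟩
      bot := ⟨∅, empty_closed hρ⟩
      ev_var := fun e x => by
        rw [Bool.eq_iff_iff, decide_eq_true_eq]
        exact ev_varF hl e x
      ev_top := fun x => by
        rw [decide_eq_true_eq]
        exact ev_terms x
      ev_bot := fun x => by
        rw [decide_eq_false_iff_not]
        exact not_ev_empty x
      or := fun a b => (exists_or a b).choose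
      and := fun a b => ⟨a.1 ∩ b.1, a.2.inter b.2⟩
      or_pos := fun a b => by
        have hs := (exists_or a b).choose_spec.1
        have h0 : ({p : Fin k → Fin q | ((decide (ev a.1 (px p)) || decide (ev b.1 (px p))) &&
            !(decide (ev (exists_or a b).choose.1 (px p)))) = true} : Set _) = ∅ := by
          ext p
          simp only [Set.mem_ofPred_eq, Set.mem_empty_iff_false, iff_false, Bool.and_eq_true,
            Bool.or_eq_true, decide_eq_true_eq, Bool.not_eq_true', decide_eq_false_iff_not]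
          rintro ⟨h1, h2⟩
          exact h2 (hs _ h1)
        rw [h0, Set.ncard_empty]
        exact_mod_cast hep0
      or_neg := fun a b => by
        have hs := (exists_or a b).choose_spec.2
        have h0 : ({p : Ed k q → Fin P | (!(decide (ev a.1 (py p)) || decide (ev b.1 (py p))) &&
            (decide (ev (exists_or a b).choose.1 (py p)))) = true} : Set _) =
            ((univ.filter (fun c : Ed k q → Fin P => ev (exists_or a b).choose.1 (py c) ∧
              ¬ (ev a.1 (py c) ∨ ev b.1 (py c))) : Finset _) : Set _) := by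
          ext p
          simp only [Set.mem_ofPred_eq, coe_filter, mem_univ, true_and,
            Bool.and_eq_true, Bool.or_eq_false_iff, decide_eq_true_eq, Bool.not_eq_true',
            decide_eq_false_iff_not, not_or]
          constructor
          · rintro ⟨h1, h2⟩
            exact ⟨h2, h1⟩
          · rintro ⟨h1, h2⟩
            exact ⟨h2, h1⟩
        rw [h0, Set.ncard_coe_finset]
        exact le_trans (by exact_mod_cast hs) hen
      and_pos := fun a b => by
        have hs := meet_count hq0 hB hsun a.2 b.2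
        have h0 : ({p : Fin k → Fin q | ((decide (ev a.1 (px p)) && decide (ev b.1 (px p))) &&
            !(decide (ev (a.1 ∩ b.1) (px p)))) = true} : Set _) =
            ((univ.filter (fun s : Fin k → Fin q => (ev a.1 (px s) ∧ ev b.1 (px s)) ∧
              ¬ ev (a.1 ∩ b.1) (px s)) : Finset _) : Set _) := by
          ext p
          simp only [Set.mem_ofPred_eq, coe_filter, mem_univ, true_and,
            Bool.and_eq_true, decide_eq_true_eq, Bool.not_eq_true', decide_eq_false_iff_not]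
        rw [h0, Set.ncard_coe_finset]
        have h1 : ((q : ℝ) ^ (l + 1)) * ((univ.filter (fun s : Fin k → Fin q =>
            (ev a.1 (px s) ∧ ev b.1 (px s)) ∧ ¬ ev (a.1 ∩ b.1) (px s))).card : ℝ) ≤
            ep * (q : ℝ) ^ (l + 1) := by
          refine le_trans ?_ hep
          exact_mod_cast hs
        rw [mul_comm ep] at h1
        exact le_of_mul_le_mul_left h1 hqr
      and_neg := fun a b => by
        have h0 : ({p : Ed k q → Fin P | (!(decide (ev a.1 (py p)) && decide (ev b.1 (py p))) &&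
            (decide (ev (a.1 ∩ b.1) (py p)))) = true} : Set _) = ∅ := by
          ext p
          simp only [Set.mem_ofPred_eq, Set.mem_empty_iff_false, iff_false, Bool.and_eq_true,
            Bool.not_eq_true', Bool.and_eq_false_iff, decide_eq_false_iff_not,
            decide_eq_true_eq]
          rintro ⟨h1, h2⟩
          rcases h1 with h1 | h1
          · exact h1 (ev_mono_fam inter_subset_left h2)
          · exact h1 (ev_mono_fam inter_subset_right h2)
        rw [h0, Set.ncard_empty]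
        exact_mod_cast hen0 }
  refine ⟨S, fun a => ?_⟩
  rcases dich hP hB hsun hq a.2 with h | h
  · left
    intro w
    exact decide_eq_true (h w)
  · right
    have e1 : (univ.filter (fun s : Fin k → Fin q => S.ev a (px s) = true)) =
        univ.filter (fun s : Fin k → Fin q => ev a.1 (px s)) := by
      ext s
      simp [S]
    have e2 : (univ.filter (fun c : Ed k q → Fin P => S.ev a (py c) = true)) =
        univ.filter (fun c : Ed k q → Fin P => ev a.1 (py c)) := by
      ext s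
      simp [S]
    rw [e1, e2]
    exact h

end Classes

open Classical in
/-- the approximation system with `q = 2 ^ (3 g)` and `B = 2 ^ g` -/
theorem exists_sys_num {k l g P : ℕ} (hP : 2 ≤ P) (hl : 2 ≤ l) (hg : 1 ≤ g)
    (hk : k + 1 ≤ 2 ^ (3 * g)) (hB : 28 * g * l ^ 2 * P ^ l ≤ 2 ^ g) :
    ∃ S : Sys (Ed k (2 ^ (3 * g))) (Fin k → Fin (2 ^ (3 * g)))
      (Ed k (2 ^ (3 * g)) → Fin P) px py
      (((2 : ℝ) ^ (3 * g)) ^ k / 2 ^ (g * l))
      ((P : ℝ) ^ Fintype.card (Ed k (2 ^ (3 * g))) / 2 ^ (g * l)),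
      ∀ a : S.A, (∀ w, S.ev a w = true) ∨
        (univ.filter (fun s : Fin k → Fin (2 ^ (3 * g)) => S.ev a (px s) = true)).card *
          P ^ Fintype.card (Ed k (2 ^ (3 * g))) ≤
          (univ.filter (fun c : Ed k (2 ^ (3 * g)) → Fin P =>
            S.ev a (py c) = true)).card * (2 ^ (3 * g)) ^ k := by
  have hl1 : 1 ≤ l ^ 2 := Nat.one_le_pow _ _ (by omega)
  have hPl : 1 ≤ P ^ l := Nat.one_le_pow _ _ (by omega)
  have hg3 : 2 ^ g ≤ 2 ^ (3 * g) := Nat.pow_le_pow_right (by norm_num) (by omega)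
  -- two consequences of the size of `2 ^ g`
  have hb1 : 2 * P ^ l ≤ 2 ^ g := by
    refine le_trans (Nat.mul_le_mul_right _ ?_) hB
    have h1 : 1 * 1 ≤ g * l ^ 2 := Nat.mul_le_mul hg hl1
    rw [Nat.mul_assoc]
    omega
  have hb2 : (l + 1) ^ 2 ≤ 2 ^ (3 * g) := by
    refine le_trans ?_ (hB.trans hg3)
    calc (l + 1) ^ 2 ≤ (2 * l) ^ 2 := Nat.pow_le_pow_left (by omega) 2
      _ = 4 * l ^ 2 := by ring
      _ ≤ 28 * g * l ^ 2 := Nat.mul_le_mul_right _ (by omega)
      _ = 28 * g * l ^ 2 * 1 := (Nat.mul_one _).symm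
      _ ≤ 28 * g * l ^ 2 * P ^ l := Nat.mul_le_mul_left _ hPl
  set N := Fintype.card (Ed k (2 ^ (3 * g))) with hN
  have hsun := sun k (2 ^ (3 * g)) P l g hP (by omega) hg hB
  rw [← hN] at hsun
  refine exists_sys hP hl Nat.one_le_two_pow hsun ?_ ?_ _ _ ?_ ?_
  · -- `ρ` is small
    rw [← hN]
    have h2 : 2 ^ (7 * g * l) * (P ^ N / 2 ^ (7 * g * l)) ≤ P ^ N := Nat.mul_div_le _ _
    have h3 : 0 < P ^ N := Nat.pow_pos (by omega)
    have h4 : 4 ≤ 2 ^ (7 * g * l) := by
      calc 4 = 2 ^ 2 := by norm_num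
        _ ≤ 2 ^ (7 * g * l) := Nat.pow_le_pow_right (by norm_num) (by nlinarith)
    have h5 : 4 * (P ^ N / 2 ^ (7 * g * l)) ≤ P ^ N := (Nat.mul_le_mul_right _ h4).trans h2
    omega
  · calc 2 * P ^ l * 2 ^ g ≤ 2 ^ g * 2 ^ g := Nat.mul_le_mul_right _ hb1
      _ = 2 ^ (g + g) := (pow_add _ _ _).symm
      _ ≤ 2 ^ (3 * g) := Nat.pow_le_pow_right (by norm_num) (by omega)
  · have h2 : (l + 1) ^ 2 * (2 ^ g) ^ (2 * l) * 2 ^ (g * l) ≤ (2 ^ (3 * g)) ^ (l + 1) := by
      calc (l + 1) ^ 2 * (2 ^ g) ^ (2 * l) * 2 ^ (g * l)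
          ≤ 2 ^ (3 * g) * (2 ^ g) ^ (2 * l) * 2 ^ (g * l) := by gcongr
        _ = 2 ^ (3 * g + g * (2 * l) + g * l) := by
            rw [← pow_mul, ← pow_add, ← pow_add]
        _ = 2 ^ (3 * g * (l + 1)) := by
            congr 1
            ring
        _ = (2 ^ (3 * g)) ^ (l + 1) := by rw [pow_mul]
    have h3 : ((l + 1) ^ 2 * (2 ^ g) ^ (2 * l) * (2 ^ (3 * g)) ^ k) * 2 ^ (g * l) ≤
        (2 ^ (3 * g)) ^ k * (2 ^ (3 * g)) ^ (l + 1) := by
      calc ((l + 1) ^ 2 * (2 ^ g) ^ (2 * l) * (2 ^ (3 * g)) ^ k) * 2 ^ (g * l)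
          = (2 ^ (3 * g)) ^ k * ((l + 1) ^ 2 * (2 ^ g) ^ (2 * l) * 2 ^ (g * l)) := by ring
        _ ≤ _ := Nat.mul_le_mul_left _ h2
    rw [div_mul_eq_mul_div, le_div_iff₀ (by positivity)]
    have h4 : ((((l + 1) ^ 2 * (2 ^ g) ^ (2 * l) * (2 ^ (3 * g)) ^ k) *
        2 ^ (g * l) : ℕ) : ℝ) ≤
        (((2 ^ (3 * g)) ^ k * (2 ^ (3 * g)) ^ (l + 1) : ℕ) : ℝ) := by exact_mod_cast h3
    push_cast at h4 ⊢
    exact h4
  · have h2 : (terms k (2 ^ (3 * g)) l).card ≤ 2 ^ (6 * g * l) := by
      refine (card_terms _ _ _).trans ?_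
      have h3 : k * 2 ^ (3 * g) + 1 ≤ 2 ^ (6 * g) := by
        calc k * 2 ^ (3 * g) + 1 ≤ k * 2 ^ (3 * g) + 2 ^ (3 * g) :=
              Nat.add_le_add_left Nat.one_le_two_pow _
          _ = (k + 1) * 2 ^ (3 * g) := by ring
          _ ≤ 2 ^ (3 * g) * 2 ^ (3 * g) := Nat.mul_le_mul_right _ hk
          _ = 2 ^ (6 * g) := by
              rw [← pow_add]
              congr 1
              omega
      calc (k * 2 ^ (3 * g) + 1) ^ l ≤ (2 ^ (6 * g)) ^ l := Nat.pow_le_pow_left h3 l
        _ = 2 ^ (6 * g * l) := by rw [← pow_mul]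
    have h3 : (terms k (2 ^ (3 * g)) l).card * (P ^ N / 2 ^ (7 * g * l)) * 2 ^ (g * l) ≤
        P ^ N := by
      calc (terms k (2 ^ (3 * g)) l).card * (P ^ N / 2 ^ (7 * g * l)) * 2 ^ (g * l)
          ≤ 2 ^ (6 * g * l) * (P ^ N / 2 ^ (7 * g * l)) * 2 ^ (g * l) := by
            gcongr
        _ = 2 ^ (6 * g * l + g * l) * (P ^ N / 2 ^ (7 * g * l)) := by
            rw [pow_add]
            ring
        _ = 2 ^ (7 * g * l) * (P ^ N / 2 ^ (7 * g * l)) := by
            congr 2
            ring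
        _ ≤ P ^ N := Nat.mul_div_le _ _
    rw [le_div_iff₀ (by positivity)]
    exact_mod_cast h3

open Classical in
/-- **the approximation system** with the numbers of the application -/
theorem exists_sysP {k l g P : ℕ} (hP : 2 ≤ P) (hl : 2 ≤ l) (hg : 1 ≤ g)
    (hk : k + 1 ≤ 2 ^ (3 * g)) (hB : 28 * g * l ^ 2 * P ^ l ≤ 2 ^ g) :
    ∃ (ep en : ℝ) (S : Sys (Ed k (2 ^ (3 * g))) (Fin k → Fin (2 ^ (3 * g)))
      (Ed k (2 ^ (3 * g)) → Fin P) px py ep en),
      2 ^ (g * l) * ep ≤ ((2 : ℝ) ^ (3 * g)) ^ k ∧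
      2 ^ (g * l) * en ≤ (P : ℝ) ^ Fintype.card (Ed k (2 ^ (3 * g))) ∧
      ∀ a : S.A, (∀ w, S.ev a w = true) ∨
        (univ.filter (fun s : Fin k → Fin (2 ^ (3 * g)) => S.ev a (px s) = true)).card *
          P ^ Fintype.card (Ed k (2 ^ (3 * g))) ≤
          (univ.filter (fun c : Ed k (2 ^ (3 * g)) → Fin P =>
            S.ev a (py c) = true)).card * (2 ^ (3 * g)) ^ k := by
  obtain ⟨S, hS⟩ := exists_sys_num hP hl hg hk hB
  have h0 : (0 : ℝ) < 2 ^ (g * l) := by positivity
  exact ⟨_, _, S, (mul_div_cancel₀ _ h0.ne').le, (mul_div_cancel₀ _ h0.ne').le, hS⟩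

end Pool.Agent.DN
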