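import Pool.Agent.Lib.MP_66cd2e_lc.DN.Fml

/-!
Counts of the changes along a chain, for any set of variables: few special gates, few layers,
formulas.
-/

namespace Pool.Agent.NEGS

open Pool.Agent.NEG

variable {I G : Type}

/-- at the step `i` of the chain an input of a special gate or the output changes -/
def ChO (C : Circuit I G) (X : ℕ → I → Bool) (v : ℕ → G → Bool) (i : ℕ) : Prop :=
  Ch C X v (fun _ => True) i ∨ v i C.out ≠ v (i + 1) C.out

open Classical in
theorem out_count (C : Circuit I G) (l : Lev C) (X : ℕ → I → Bool) (v : ℕ → G → Bool)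
    (hX : ∀ i e, X i e = true → X (i + 1) e = true) (hv : ∀ i, C.Consistent (X i) (v i))
    (N : ℕ) : ((Finset.range N).filter (fun i => ChO C X v i)).card ≤
      2 * ((Finset.range N).filter (fun i => Ch C X v (fun _ => True) i)).card + 1 := by
  set A : Finset ℕ := (Finset.range N).filter (fun i => Ch C X v (fun _ => True) i) with hA
  have hstep : ∀ i < N, i ∉ A → v i C.out = true → v (i + 1) C.out = true := by
    intro i hi hiA hb
    have hnc : ¬ Ch C X v (fun _ => True) i := fun hc =>
      hiA (Finset.mem_filter.mpr ⟨Finset.mem_range.mpr hi, hc⟩)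
    refine node_step C l l.top (hX i) (hv i) (hv (i + 1)) ?_ (Sum.inr C.out)
      (fun g _ => l.le_top g) hb
    intro s hs _
    refine special_eq C (hv i) (hv (i + 1)) s (fun k => ?_)
    by_contra hk
    exact hnc ⟨s, hs, trivial, k, hk⟩
  have h1 := rises_le (fun i => v i C.out) A N hstep
  have h2 : ((Finset.range N).filter (fun i => i ∈ A)).card ≤ A.card := by
    apply Finset.card_le_card
    intro i hi
    exact (Finset.mem_filter.mp hi).2
  have h3 : (if v N C.out = true then 1 else 0) ≤ 1 := by split_ifs <;> omega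
  have hsub : (Finset.range N).filter (fun i => ChO C X v i) ⊆
      A ∪ (Finset.range N).filter (fun i => i ∉ A ∧ v i C.out ≠ v (i + 1) C.out) := by
    intro i hi
    rw [Finset.mem_filter] at hi
    rw [Finset.mem_union]
    by_cases hiA : i ∈ A
    · exact Or.inl hiA
    · right
      rcases hi.2 with h | h
      · exact absurd (Finset.mem_filter.mpr ⟨hi.1, h⟩) hiA
      · exact Finset.mem_filter.mpr ⟨hi.1, hiA, h⟩
  have h4 := (Finset.card_le_card hsub).trans (Finset.card_union_le _ _)
  omega

open Classical in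
/-- extend values of the special gates of level below `n` by `false` -/
noncomputable def extG (C : Circuit I G) (l : Lev C) (b : ℕ)
    (z : {s // ¬ C.Plain s ∧ l.lev s < b} → Bool) (g : G) : Bool :=
  if h : ¬ C.Plain g ∧ l.lev g < b then z ⟨g, h⟩ else false

/-- for every special gate and every assignment of the special gates of lower level the
inputs of the gate -/
abbrev IdxG (C : Circuit I G) (l : Lev C) : Type :=
  Σ s : {s // ¬ C.Plain s}, ({s' // ¬ C.Plain s' ∧ l.lev s' < l.lev s} → Bool) ×
    Fin (C.arity s)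

open Classical in
theorem card_idxG [Fintype G] (C : Circuit I G) (l : Lev C) (t m : ℕ)
    (ht : Fintype.card {s // ¬ C.Plain s} ≤ t) (hm : ∀ g, ¬ C.Plain g → C.arity g ≤ m) :
    Fintype.card (IdxG C l) ≤ m * (2 ^ t - 1) := by
  have hcard : ∀ b : ℕ, Fintype.card {s' // ¬ C.Plain s' ∧ l.lev s' < b} =
      ((Finset.univ.filter (fun s => ¬ C.Plain s)).filter (fun s' => l.lev s' < b)).card := by
    intro b
    rw [Finset.filter_filter, Fintype.card_subtype]
  have hS : (Finset.univ.filter (fun s => ¬ C.Plain s)).card ≤ t := by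
    rw [← Fintype.card_subtype]
    exact ht
  rw [Fintype.card_sigma]
  have e1 : (∑ s : {s // ¬ C.Plain s}, Fintype.card
      (({s' // ¬ C.Plain s' ∧ l.lev s' < l.lev s} → Bool) × Fin (C.arity s))) ≤
      ∑ s : {s // ¬ C.Plain s}, m * 2 ^ ((Finset.univ.filter (fun s => ¬ C.Plain s)).filter
          (fun s' => l.lev s' < l.lev s)).card := by
    refine Finset.sum_le_sum (fun s _ => ?_)
    rw [Fintype.card_prod, Fintype.card_fun, Fintype.card_bool, Fintype.card_fin, hcard,
      Nat.mul_comm]
    exact Nat.mul_le_mul_right _ (hm s s.2)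
  have e2 : (∑ s : {s // ¬ C.Plain s}, m * 2 ^ ((Finset.univ.filter
      (fun s => ¬ C.Plain s)).filter (fun s' => l.lev s' < l.lev s)).card) =
      m * ∑ s ∈ Finset.univ.filter (fun s => ¬ C.Plain s),
          2 ^ ((Finset.univ.filter (fun s => ¬ C.Plain s)).filter
          (fun s' => l.lev s' < l.lev s)).card := by
    rw [Finset.mul_sum]
    exact (Finset.sum_subtype (Finset.univ.filter (fun s => ¬ C.Plain s)) (by simp)
      (fun s => m * 2 ^ ((Finset.univ.filter (fun s => ¬ C.Plain s)).filter
          (fun s' => l.lev s' < l.lev s)).card)).symm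
  have e3 : m * ∑ s ∈ Finset.univ.filter (fun s => ¬ C.Plain s),
          2 ^ ((Finset.univ.filter (fun s => ¬ C.Plain s)).filter
          (fun s' => l.lev s' < l.lev s)).card ≤ m * (2 ^ t - 1) := by
    apply Nat.mul_le_mul_left
    have h2 := sum_lower l.lev (Finset.univ.filter (fun s => ¬ C.Plain s))
    have h3 : (2 : ℕ) ^ (Finset.univ.filter (fun s => ¬ C.Plain s)).card ≤ 2 ^ t :=
      Nat.pow_le_pow_right (by norm_num) hS
    omega
  exact e1.trans (e2 ▸ e3)

/-- if every changing step is a change of one of finitely many monotone functions of the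
input then there are at most as many changing steps as functions -/
theorem count_of_index {κ : Type} [Fintype κ] (N : ℕ) (P : ℕ → Prop) [DecidablePred P]
    (u : κ → ℕ → Bool) (hu : ∀ k i, u k i = true → u k (i + 1) = true)
    (hP : ∀ i, P i → ∃ k, u k i ≠ u k (i + 1)) :
    ((Finset.range N).filter P).card ≤ Fintype.card κ := by
  classical
  have hmono : ∀ k i i', i ≤ i' → u k i = true → u k i' = true := by
    intro k i i' hii'
    induction i', hii' using Nat.le_induction with
    | base => exact id
    | succ i' _ ih => exact fun h => hu k i' (ih h)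
  by_cases hne : Nonempty κ
  · obtain ⟨k0⟩ := hne
    have key2 : ∀ i, ∃ k : κ, P i → u k i ≠ u k (i + 1) := by
      intro i
      by_cases hi : P i
      · obtain ⟨k, hk⟩ := hP i hi
        exact ⟨k, fun _ => hk⟩
      · exact ⟨k0, fun h => absurd h hi⟩
    choose f hf using key2
    rw [← Finset.card_univ (α := κ)]
    apply Finset.card_le_card_of_injOn f
    · intro i _
      exact Finset.mem_coe.mpr (Finset.mem_univ _)
    · intro i hi i' hi' hff
      have h1 := hf i (Finset.mem_filter.mp (Finset.mem_coe.mp hi)).2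
      have h2 := hf i' (Finset.mem_filter.mp (Finset.mem_coe.mp hi')).2
      have hlt : ∀ a b : ℕ, u (f a) a ≠ u (f a) (a + 1) → u (f b) b ≠ u (f b) (b + 1) →
          f a = f b → ¬ a < b := by
        intro a b ha hb hab hltab
        have e1 : u (f a) a = false := by
          cases h : u (f a) a
          · rfl
          · exact absurd (h.trans (hmono _ a (a + 1) (by omega) h).symm) ha
        have e2 : u (f a) (a + 1) = true := by
          cases h : u (f a) (a + 1)
          · exact absurd (e1.trans h.symm) ha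
          · rfl
        rw [hab] at e2
        have e3 := hmono _ (a + 1) b (by omega) e2
        exact hb (e3.trans (hmono _ b (b + 1) (by omega) e3).symm)
      have h3 := hlt i i' h1 h2 hff
      have h4 := hlt i' i h2 h1 hff.symm
      omega
  · have h0 : (Finset.range N).filter P = ∅ := by
      rw [Finset.filter_eq_empty_iff]
      intro i _ hi
      obtain ⟨k, _⟩ := hP i hi
      exact hne ⟨k⟩
    rw [h0]
    exact Nat.zero_le _

open Classical in
theorem seq_countG [Fintype G] (C : Circuit I G) (l : Lev C)
    (X : ℕ → I → Bool) (v : ℕ → G → Bool)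
    (hX : ∀ i e, X i e = true → X (i + 1) e = true) (hv : ∀ i, C.Consistent (X i) (v i))
    (N : ℕ) : ((Finset.range N).filter (fun i => Ch C X v (fun _ => True) i)).card ≤
      Fintype.card (IdxG C l) := by
  refine count_of_index N _ (fun (k : IdxG C l) i =>
    nv C l (extG C l (l.lev k.1) k.2.1) (C.src k.1 k.2.2) (X i))
    (fun k i h => nv_mono C l _ _ (hX i) h) ?_
  intro i hi
  let S : Finset G := Finset.univ.filter (fun s => ¬ C.Plain s ∧ ∃ k : Fin (C.arity s),
    Circuit.node (X i) (v i) (C.src s k) ≠ Circuit.node (X (i + 1)) (v (i + 1)) (C.src s k))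
  have hS : S.Nonempty := by
    obtain ⟨s, hs, _, k, hk⟩ := hi
    exact ⟨s, Finset.mem_filter.mpr ⟨Finset.mem_univ _, hs, k, hk⟩⟩
  obtain ⟨s, hsS, hmin⟩ := Finset.exists_min_image S l.lev hS
  obtain ⟨hs, k, hk⟩ := (Finset.mem_filter.mp hsS).2
  have hlow : ∀ s', ¬ C.Plain s' → l.lev s' < l.lev s → v i s' = v (i + 1) s' := by
    intro s' hs' hlt
    refine special_eq C (hv i) (hv (i + 1)) s' (fun k' => ?_)
    by_contra hk'
    have := hmin s' (Finset.mem_filter.mpr ⟨Finset.mem_univ _, hs', k', hk'⟩)
    omega
  have hval : ∀ i', (∀ s', ¬ C.Plain s' → l.lev s' < l.lev s → v i s' = v i' s') →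
      nv C l (extG C l (l.lev s) (fun s' => v i s')) (C.src s k) (X i') =
        Circuit.node (X i') (v i') (C.src s k) := by
    intro i' hi'
    unfold nv
    cases hsrc : C.src s k with
    | inl a => cases a <;> rfl
    | inr g' =>
        have hlt := l.lt s k g' hsrc
        refine fval_true C l _ (X i') (v i') (hv i') (l.lev g') (fun s' hs' hle => ?_) g' le_rfl
        unfold extG
        rw [dif_pos ⟨hs', by omega⟩]
        exact hi' s' hs' (by omega)
  refine ⟨⟨⟨s, hs⟩, fun s' => v i s', k⟩, ?_⟩
  change nv C l (extG C l (l.lev s) (fun s' => v i s')) (C.src s k) (X i) ≠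
    nv C l (extG C l (l.lev s) (fun s' => v i s')) (C.src s k) (X (i + 1))
  rw [hval i (fun _ _ _ => rfl), hval (i + 1) hlow]
  exact hk

open Classical in
/-- COUNT 1: at most `2 (m 2 ^ t + 1)` changes for `t` special gates with `m` inputs -/
theorem chain_count_t [Finite G] (C : Circuit I G) (hC : ∃ d, C.DepthLE d) (t m : ℕ)
    (ht : {g | ¬ C.Plain g}.ncard ≤ t) (hm : ∀ g, ¬ C.Plain g → C.arity g ≤ m)
    (X : ℕ → I → Bool) (v : ℕ → G → Bool)
    (hX : ∀ i e, X i e = true → X (i + 1) e = true) (hv : ∀ i, C.Consistent (X i) (v i))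
    (N : ℕ) : ((Finset.range N).filter (fun i => ChO C X v i)).card ≤ 2 * (m * 2 ^ t + 1) := by
  have : Fintype G := Fintype.ofFinite G
  obtain ⟨d, lev, hlev1, hlev2⟩ := hC
  let l : Lev C := ⟨lev, d, fun g => (hlev1 g).2, hlev2⟩
  have hsp : Fintype.card {s // ¬ C.Plain s} ≤ t := by
    rw [← Nat.card_eq_fintype_card]
    exact ht
  have h1 := out_count C l X v hX hv N
  have h2 := (seq_countG C l X v hX hv N).trans (card_idxG C l t m hsp hm)
  have h3 : m * (2 ^ t - 1) ≤ m * 2 ^ t := Nat.mul_le_mul_left _ (Nat.sub_le _ _)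
  omega

open Classical in
/-- COUNT 2: at most `2 ∏ (m t_j + 1)` changes if the special gates lie in the layers
`j < r`, with `t_j` gates in the layer `j` -/
theorem chain_count_lay [Finite G] (C : Circuit I G) (hC : ∃ d, C.DepthLE d) (m r : ℕ)
    (rho : G → ℕ)
    (hrho : ∀ g i g', C.src g i = Sum.inr g' → rho g' ≤ rho g ∧ (¬ C.Plain g → rho g' < rho g))
    (hr : ∀ g, ¬ C.Plain g → rho g < r) (hm : ∀ g, ¬ C.Plain g → C.arity g ≤ m)
    (X : ℕ → I → Bool) (v : ℕ → G → Bool)
    (hX : ∀ i e, X i e = true → X (i + 1) e = true) (hv : ∀ i, C.Consistent (X i) (v i))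
    (N : ℕ) : ((Finset.range N).filter (fun i => ChO C X v i)).card ≤
      2 * ∏ j ∈ Finset.range r, (m * {g | ¬ C.Plain g ∧ rho g = j}.ncard + 1) := by
  have : Fintype G := Fintype.ofFinite G
  obtain ⟨d, lev, hlev1, hlev2⟩ := hC
  let l : Lev C := ⟨lev, d, fun g => (hlev1 g).2, hlev2⟩
  -- the convention of `lay_count`
  let rk : G → ℕ := fun g => if C.Plain g then rho g + 1 else rho g
  have hrk : ∀ g i g', C.src g i = Sum.inr g' → rk g' ≤ rk g ∧ (¬ C.Plain g' → rk g' < rk g) := by
    intro g i g' h
    have h1 := hrho g i g' h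
    simp only [rk]
    by_cases hg : C.Plain g
    · rw [if_pos hg]
      by_cases hg' : C.Plain g'
      · rw [if_pos hg']
        exact ⟨by have := h1.1; omega, fun h2 => absurd hg' h2⟩
      · rw [if_neg hg']
        exact ⟨by have := h1.1; omega, fun _ => by have := h1.1; omega⟩
    · have h2 := h1.2 hg
      rw [if_neg hg]
      by_cases hg' : C.Plain g'
      · rw [if_pos hg']
        exact ⟨by omega, fun h3 => absurd hg' h3⟩
      · rw [if_neg hg']
        exact ⟨by omega, fun _ => h2⟩
  have h1 := out_count C l X v hX hv N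
  have h2 := lay_count C l rk hrk X v hX hv N r
  have h3 : ((Finset.range N).filter (fun i => Ch C X v (fun _ => True) i)).card ≤
      ((Finset.range N).filter (fun i => Ch C X v (fun s => rk s < r) i)).card := by
    apply Finset.card_le_card
    intro i hi
    rw [Finset.mem_filter] at hi ⊢
    obtain ⟨hi1, g, hg, _, k, hk⟩ := hi
    refine ⟨hi1, g, hg, ?_, k, hk⟩
    change rk g < r
    simp only [rk]
    rw [if_neg hg]
    exact hr g hg
  have h4 : ∏ j ∈ Finset.range r, (1 + wires C rk j) ≤
      ∏ j ∈ Finset.range r, (m * {g | ¬ C.Plain g ∧ rho g = j}.ncard + 1) := by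
    refine Finset.prod_le_prod' (fun j _ => ?_)
    rw [Nat.add_comm]
    refine Nat.add_le_add_right ?_ 1
    unfold wires
    have e : {p : Σ g, Fin (C.arity g) // ¬ C.Plain p.1 ∧ rk p.1 = j} ≃
        Σ s : {s // ¬ C.Plain s ∧ rk s = j}, Fin (C.arity s) :=
      Equiv.subtypeSigmaEquiv (fun g => Fin (C.arity g)) (fun g => ¬ C.Plain g ∧ rk g = j)
    rw [Nat.card_congr e, Nat.card_eq_fintype_card, Fintype.card_sigma]
    calc (∑ s : {s // ¬ C.Plain s ∧ rk s = j}, Fintype.card (Fin (C.arity s)))
        ≤ ∑ _s : {s // ¬ C.Plain s ∧ rk s = j}, m := by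
          refine Finset.sum_le_sum (fun s _ => ?_)
          rw [Fintype.card_fin]
          exact hm s s.2.1
      _ = m * Fintype.card {s // ¬ C.Plain s ∧ rk s = j} := by
          rw [Finset.sum_const, Finset.card_univ, smul_eq_mul, Nat.mul_comm]
      _ = m * {g | ¬ C.Plain g ∧ rho g = j}.ncard := by
          congr 1
          rw [← Nat.card_eq_fintype_card]
          change Nat.card {s // ¬ C.Plain s ∧ rk s = j} = Nat.card {s // ¬ C.Plain s ∧ rho s = j}
          refine Nat.card_congr (Equiv.subtypeEquivRight (fun s => ?_))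
          constructor
          · rintro ⟨hs, h⟩
            refine ⟨hs, ?_⟩
            simp only [rk] at h
            rw [if_neg hs] at h
            exact h
          · rintro ⟨hs, h⟩
            refine ⟨hs, ?_⟩
            simp only [rk]
            rw [if_neg hs]
            exact h
  omega

open Classical in
/-- COUNT 3: at most `36 W + 1` changes for formulas, `W` the number of input wires of the
special gates; stated for the padded formula, which has the same values (`padded_consistent`),
depth (`padded_depth`) and gates -/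
theorem chain_count_fml [Finite G] (C : Circuit I G) (hC : ∃ d, C.DepthLE d)
    (hF : IsFormula C) (X : ℕ → I → Bool) (v : ℕ → G → Bool)
    (hX : ∀ i e, X i e = true → X (i + 1) e = true)
    (hv : ∀ i, (padded C).Consistent (X i) (v i)) (N : ℕ) :
    ((Finset.range N).filter (fun i => ChO (padded C) X v i)).card ≤
      36 * Nat.card (SW C) + 1 := by
  have : Fintype G := Fintype.ofFinite G
  obtain ⟨d, hd⟩ := hC
  have hd' := padded_depth C d hd
  obtain ⟨lev, hlev1, hlev2⟩ := hd'
  let l : Lev (padded C) := ⟨lev, d, fun g => (hlev1 g).2, hlev2⟩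
  have h1 := out_count (padded C) l X v hX hv N
  have h2 := formula_count C l X v hX hv N
  have h3 := card_sw_padded C hF
  omega

/-- `W ≤ m t` -/
theorem card_sw_le [Finite G] (C : Circuit I G) (t m : ℕ)
    (ht : {g | ¬ C.Plain g}.ncard ≤ t) (hm : ∀ g, ¬ C.Plain g → C.arity g ≤ m) :
    Nat.card (SW C) ≤ m * t := by
  classical
  have : Fintype G := Fintype.ofFinite G
  have e : SW C ≃ Σ s : {s // ¬ C.Plain s}, Fin (C.arity s) :=
    Equiv.subtypeSigmaEquiv (fun g => Fin (C.arity g)) (fun g => ¬ C.Plain g)
  rw [Nat.card_congr e, Nat.card_eq_fintype_card, Fintype.card_sigma]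
  have hsp : Fintype.card {s // ¬ C.Plain s} ≤ t := by
    rw [← Nat.card_eq_fintype_card]
    exact ht
  calc (∑ s : {s // ¬ C.Plain s}, Fintype.card (Fin (C.arity s)))
      ≤ ∑ _s : {s // ¬ C.Plain s}, m := by
        refine Finset.sum_le_sum (fun s _ => ?_)
        rw [Fintype.card_fin]
        exact hm s s.2
    _ = m * Fintype.card {s // ¬ C.Plain s} := by
        rw [Finset.sum_const, Finset.card_univ, smul_eq_mul, Nat.mul_comm]
    _ ≤ m * t := Nat.mul_le_mul_left _ hsp

end Pool.Agent.NEGS
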