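import Pool.Agent.Lib.MP_66cd2e_lc.DN.Cnt

/-!
The last step: a window in which the inputs of the special gates seldom change.
-/

set_option autoImplicit false

namespace Pool.Agent.DN

open Finset Pool.Agent.NEG Pool.Agent.NEGS

section Or

variable {E P N J G : Type} [Fintype P] [Fintype N] {px : P → E → Bool} {py : N → E → Bool}
  {ep en : ℝ} (S : Sys E P N px py ep en)

/-- the OR of a list of approximators -/
theorem or_list (l : List S.A) : ∃ (c : S.A) (E' : Set P) (F' : Set N),
    (E'.ncard : ℝ) ≤ l.length * ep ∧ (F'.ncard : ℝ) ≤ l.length * en ∧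
    (∀ p, p ∉ E' → (∃ a ∈ l, S.ev a (px p) = true) → S.ev c (px p) = true) ∧
    (∀ p, p ∉ F' → S.ev c (py p) = true → ∃ a ∈ l, S.ev a (py p) = true) := by
  induction l with
  | nil =>
      refine ⟨S.bot, ∅, ∅, by simp, by simp, ?_, ?_⟩
      · rintro p _ ⟨a, ha, _⟩
        exact absurd ha List.not_mem_nil
      · intro p _ h
        rw [S.ev_bot] at h
        exact absurd h (by decide)
  | cons a l ih =>
      obtain ⟨c, E', F', hE, hF, h1, h2⟩ := ih
      refine ⟨S.or a c,
        E' ∪ {p : P | ((S.ev a (px p) || S.ev c (px p)) && !(S.ev (S.or a c) (px p))) = true},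
        F' ∪ {p : N | (!(S.ev a (py p) || S.ev c (py p)) && S.ev (S.or a c) (py p)) = true},
        ?_, ?_, ?_, ?_⟩
      · have h3 : ((E' ∪ {p : P | ((S.ev a (px p) || S.ev c (px p)) &&
            !(S.ev (S.or a c) (px p))) = true} : Set P).ncard : ℝ) ≤
            (E'.ncard : ℝ) + (({p : P | ((S.ev a (px p) || S.ev c (px p)) &&
            !(S.ev (S.or a c) (px p))) = true} : Set P).ncard : ℝ) := by
          exact_mod_cast Set.ncard_union_le _ _
        have h4 := S.or_pos a c
        rw [List.length_cons]
        push_cast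
        linarith
      · have h3 : ((F' ∪ {p : N | (!(S.ev a (py p) || S.ev c (py p)) &&
            S.ev (S.or a c) (py p)) = true} : Set N).ncard : ℝ) ≤
            (F'.ncard : ℝ) + (({p : N | (!(S.ev a (py p) || S.ev c (py p)) &&
            S.ev (S.or a c) (py p)) = true} : Set N).ncard : ℝ) := by
          exact_mod_cast Set.ncard_union_le _ _
        have h4 := S.or_neg a c
        rw [List.length_cons]
        push_cast
        linarith
      · intro p hp hex
        rw [Set.mem_union, not_or] at hp
        have h5 : (S.ev a (px p) || S.ev c (px p)) = true := by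
          obtain ⟨b, hb, hbe⟩ := hex
          rcases List.mem_cons.mp hb with rfl | hb
          · rw [hbe]
            simp
          · rw [h1 p hp.1 ⟨b, hb, hbe⟩]
            simp
        by_contra hcon
        apply hp.2
        rw [Set.mem_ofPred_eq, h5, Bool.eq_false_iff.mpr hcon]
        rfl
      · intro p hp hc
        rw [Set.mem_union, not_or] at hp
        have h5 : (S.ev a (py p) || S.ev c (py p)) = true := by
          by_contra hcon
          apply hp.2
          rw [Set.mem_ofPred_eq, Bool.eq_false_iff.mpr hcon, hc]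
          rfl
        rw [Bool.or_eq_true] at h5
        rcases h5 with h5 | h5
        · exact ⟨a, List.mem_cons_self, h5⟩
        · obtain ⟨b, hb, hbe⟩ := h2 p hp.1 h5
          exact ⟨b, List.mem_cons_of_mem _ hb, hbe⟩

/-- the OR of a list of nodes of a forced circuit accepts, up to small errors, at most the
fraction of the positive tests which it accepts of the negative tests -/
theorem or_le [Fintype G] (C : Circuit J G) (l : Lev C) (z : G → Bool) (f : J → E ⊕ Bool)
    (Z : List ((J ⊕ Bool) ⊕ G))
    (hdich : ∀ a : S.A, (∀ w, S.ev a w = true) ∨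
      (({p : P | S.ev a (px p) = true} : Set P).ncard : ℝ) * Fintype.card N ≤
        (({p : N | S.ev a (py p) = true} : Set N).ncard : ℝ) * Fintype.card P) :
    (({p : P | ∃ nd ∈ Z, nv C l z nd (pl f (px p)) = true} : Set P).ncard : ℝ) *
        Fintype.card N ≤
      (({p : N | ∃ nd ∈ Z, nv C l z nd (pl f (py p)) = true} : Set N).ncard : ℝ) *
        Fintype.card P +
      (Fintype.card G + Z.length) * (ep * Fintype.card N + en * Fintype.card P) := by
  classical
  obtain ⟨a, E, F, hE, hF, h1, h2⟩ := along S C l z f l.top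
  obtain ⟨c, E', F', hE', hF', h3, h4⟩ := or_list S (Z.map (an S f a))
  rw [List.length_map] at hE' hF'
  have hcE : (((⋃ g, E g : Set P)).ncard : ℝ) ≤ Fintype.card G * ep := by
    calc (((⋃ g, E g : Set P)).ncard : ℝ) ≤ ((∑ g, (E g).ncard : ℕ) : ℝ) := by
          exact_mod_cast Set.ncard_iUnion_le_of_fintype E
      _ = ∑ g, ((E g).ncard : ℝ) := by push_cast; rfl
      _ ≤ ∑ _g : G, ep := Finset.sum_le_sum (fun g _ => hE g)
      _ = Fintype.card G * ep := by
          rw [Finset.sum_const, Finset.card_univ, nsmul_eq_mul]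
  have hcF : (((⋃ g, F g : Set N)).ncard : ℝ) ≤ Fintype.card G * en := by
    calc (((⋃ g, F g : Set N)).ncard : ℝ) ≤ ((∑ g, (F g).ncard : ℕ) : ℝ) := by
          exact_mod_cast Set.ncard_iUnion_le_of_fintype F
      _ = ∑ g, ((F g).ncard : ℝ) := by push_cast; rfl
      _ ≤ ∑ _g : G, en := Finset.sum_le_sum (fun g _ => hF g)
      _ = Fintype.card G * en := by
          rw [Finset.sum_const, Finset.card_univ, nsmul_eq_mul]
  set EE : Set P := (⋃ g, E g) ∪ E' with hEE
  set FF : Set N := (⋃ g, F g) ∪ F' with hFF
  have hcEE : (EE.ncard : ℝ) ≤ (Fintype.card G + Z.length) * ep := by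
    have h5 : (EE.ncard : ℝ) ≤ ((⋃ g, E g : Set P).ncard : ℝ) + (E'.ncard : ℝ) := by
      exact_mod_cast Set.ncard_union_le _ _
    rw [add_mul]
    linarith
  have hcFF : (FF.ncard : ℝ) ≤ (Fintype.card G + Z.length) * en := by
    have h5 : (FF.ncard : ℝ) ≤ ((⋃ g, F g : Set N).ncard : ℝ) + (F'.ncard : ℝ) := by
      exact_mod_cast Set.ncard_union_le _ _
    rw [add_mul]
    linarith
  -- the approximator of the OR
  have hup : ∀ p, p ∉ EE → (∃ nd ∈ Z, nv C l z nd (pl f (px p)) = true) →
      S.ev c (px p) = true := by
    rintro p hp ⟨nd, hnd, hv⟩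
    rw [hEE, Set.mem_union, not_or, Set.mem_iUnion] at hp
    obtain ⟨hp1, hp2⟩ := hp
    push Not at hp1
    refine h3 p hp2 ⟨an S f a nd, List.mem_map_of_mem hnd, ?_⟩
    cases nd with
    | inl w =>
        rw [an_inl S f a w (fval C l z (pl f (px p)))]
        exact hv
    | inr g => exact h1 p (fun g _ => hp1 g) g (l.le_top g) hv
  have hdown : ∀ p, p ∉ FF → S.ev c (py p) = true →
      ∃ nd ∈ Z, nv C l z nd (pl f (py p)) = true := by
    intro p hp hv
    rw [hFF, Set.mem_union, not_or, Set.mem_iUnion] at hp
    obtain ⟨hp1, hp2⟩ := hp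
    push Not at hp1
    obtain ⟨b, hb, hbe⟩ := h4 p hp2 hv
    obtain ⟨nd, hnd, rfl⟩ := List.mem_map.mp hb
    refine ⟨nd, hnd, ?_⟩
    cases nd with
    | inl w =>
        rw [an_inl S f a w (fval C l z (pl f (py p)))] at hbe
        exact hbe
    | inr g => exact h2 p (fun g _ => hp1 g) g (l.le_top g) hbe
  have hep0 := ep_nonneg S
  have hen0 := en_nonneg S
  have hP0 : (0 : ℝ) ≤ Fintype.card P := Nat.cast_nonneg _
  have hN0 : (0 : ℝ) ≤ Fintype.card N := Nat.cast_nonneg _
  have hK0 : (0 : ℝ) ≤ (Fintype.card G : ℝ) + Z.length := by positivity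
  rcases hdich c with h | h
  · have h5 : (({p : P | ∃ nd ∈ Z, nv C l z nd (pl f (px p)) = true} : Set P).ncard : ℝ) ≤
        Fintype.card P := by
      have h6 := Set.ncard_le_ncard (Set.subset_univ
        ({p : P | ∃ nd ∈ Z, nv C l z nd (pl f (px p)) = true} : Set P)) (Set.toFinite _)
      rw [Set.ncard_univ, Nat.card_eq_fintype_card] at h6
      exact_mod_cast h6
    have h7 : (Fintype.card N : ℝ) ≤
        (({p : N | ∃ nd ∈ Z, nv C l z nd (pl f (py p)) = true} : Set N).ncard : ℝ) +
          (Fintype.card G + Z.length) * en := by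
      have hsub : (Set.univ : Set N) ⊆
          {p : N | ∃ nd ∈ Z, nv C l z nd (pl f (py p)) = true} ∪ FF := by
        intro p _
        by_cases hpF : p ∈ FF
        · exact Or.inr hpF
        · exact Or.inl (hdown p hpF (h _))
      have h8 := (Set.ncard_le_ncard hsub (Set.toFinite _)).trans (Set.ncard_union_le _ _)
      rw [Set.ncard_univ, Nat.card_eq_fintype_card] at h8
      have h9 : (Fintype.card N : ℝ) ≤
          (({p : N | ∃ nd ∈ Z, nv C l z nd (pl f (py p)) = true} : Set N).ncard : ℝ) +
            (FF.ncard : ℝ) := by exact_mod_cast h8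
      linarith
    have h8 := mul_le_mul_of_nonneg_right h5 hN0
    have h9 := mul_le_mul_of_nonneg_left h7 hP0
    have h10 : 0 ≤ ((Fintype.card G : ℝ) + Z.length) * (ep * Fintype.card N) := by positivity
    linarith
  · have hP : (({p : P | ∃ nd ∈ Z, nv C l z nd (pl f (px p)) = true} : Set P).ncard : ℝ) ≤
        (({p : P | S.ev c (px p) = true} : Set P).ncard : ℝ) +
          (Fintype.card G + Z.length) * ep := by
      have hsub : ({p : P | ∃ nd ∈ Z, nv C l z nd (pl f (px p)) = true} : Set P) ⊆
          {p : P | S.ev c (px p) = true} ∪ EE := by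
        intro p hp
        by_cases hpE : p ∈ EE
        · exact Or.inr hpE
        · exact Or.inl (hup p hpE hp)
      have h5 : (({p : P | ∃ nd ∈ Z, nv C l z nd (pl f (px p)) = true} : Set P).ncard : ℝ) ≤
          (({p : P | S.ev c (px p) = true} : Set P).ncard : ℝ) + (EE.ncard : ℝ) := by
        exact_mod_cast (Set.ncard_le_ncard hsub (Set.toFinite _)).trans (Set.ncard_union_le _ _)
      linarith
    have hN : (({p : N | S.ev c (py p) = true} : Set N).ncard : ℝ) ≤
        (({p : N | ∃ nd ∈ Z, nv C l z nd (pl f (py p)) = true} : Set N).ncard : ℝ) +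
          (Fintype.card G + Z.length) * en := by
      have hsub : ({p : N | S.ev c (py p) = true} : Set N) ⊆
          {p : N | ∃ nd ∈ Z, nv C l z nd (pl f (py p)) = true} ∪ FF := by
        intro p hp
        by_cases hpF : p ∈ FF
        · exact Or.inr hpF
        · exact Or.inl (hdown p hpF hp)
      have h5 : (({p : N | S.ev c (py p) = true} : Set N).ncard : ℝ) ≤
          (({p : N | ∃ nd ∈ Z, nv C l z nd (pl f (py p)) = true} : Set N).ncard : ℝ) +
            (FF.ncard : ℝ) := by
        exact_mod_cast (Set.ncard_le_ncard hsub (Set.toFinite _)).trans (Set.ncard_union_le _ _)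
      linarith
    have h6 := mul_le_mul_of_nonneg_right hP hN0
    have h7 := mul_le_mul_of_nonneg_right hN hP0
    linarith

end Or

section Window

variable {J G : Type}

/-- some input wire of a special gate has different values at `x` and `y` (for a choice `Vf` of
the values of the gates) -/
def Bad (C : Circuit J G) (Vf : (J → Bool) → G → Bool) (x y : J → Bool) : Prop :=
  ∃ s, ¬ C.Plain s ∧ ∃ k : Fin (C.arity s),
    Circuit.node x (Vf x) (C.src s k) ≠ Circuit.node y (Vf y) (C.src s k)

/-- if the frozen functions do not change at the inputs of the special gates, then the special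
gates do not change -/
theorem special_frozen (C : Circuit J G) (l : Lev C) (Vf : (J → Bool) → G → Bool)
    (hV : ∀ x, C.Consistent x (Vf x)) (x y : J → Bool)
    (h : ∀ s, ¬ C.Plain s → ∀ k : Fin (C.arity s),
      nv C l (Vf x) (C.src s k) y = nv C l (Vf x) (C.src s k) x) :
    ∀ s, ¬ C.Plain s → Vf x s = Vf y s := by
  have key : ∀ n : ℕ, ∀ s, ¬ C.Plain s → l.lev s ≤ n → Vf x s = Vf y s := by
    intro n
    induction n with
    | zero =>
        intro s hs hl
        refine special_eq C (hV x) (hV y) s (fun k => ?_)
        have h1 := h s hs k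
        cases hsrc : C.src s k with
        | inl a =>
            rw [hsrc] at h1
            cases a with
            | inl j => exact h1.symm
            | inr b => rfl
        | inr g' =>
            have := l.lt s k g' hsrc
            omega
    | succ n ih =>
        intro s hs hl
        refine special_eq C (hV x) (hV y) s (fun k => ?_)
        have h1 := h s hs k
        cases hsrc : C.src s k with
        | inl a =>
            rw [hsrc] at h1
            cases a with
            | inl j => exact h1.symm
            | inr b => rfl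
        | inr g' =>
            have hlt := l.lt s k g' hsrc
            rw [hsrc] at h1
            have h2 : fval C l (Vf x) y g' = Vf y g' :=
              fval_true C l (Vf x) y (Vf y) (hV y) n ih g' (by omega)
            have h3 : fval C l (Vf x) x g' = Vf x g' :=
              fval_true C l (Vf x) x (Vf x) (hV x) n (fun _ _ _ => rfl) g' (by omega)
            change fval C l (Vf x) y g' = fval C l (Vf x) x g' at h1
            change Vf x g' = Vf y g'
            rw [← h2, ← h3]
            exact h1.symm
  intro s hs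
  exact key (l.lev s) s hs le_rfl

variable {E P N : Type} [Fintype P] [Fintype N] {px : P → E → Bool} {py : N → E → Bool}
  {ep en : ℝ} (S : Sys E P N px py ep en)

/-- the output or an input wire of a special gate has different values at `x` and `y` -/
def Chg (C : Circuit J G) (Vf : (J → Bool) → G → Bool) (x y : J → Bool) : Prop :=
  Bad C Vf x y ∨ Vf x C.out ≠ Vf y C.out

include S in
open Classical in
/-- LAST STEP. `sub` substitutes the variables of a circuit `C` by the content of a window and
constants. Up to small errors a change between the empty window and a positive test is at most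
as probable as a change between the empty window and a negative test. -/
theorem window_le (hdich : ∀ a : S.A, (∀ w, S.ev a w = true) ∨
      (({p : P | S.ev a (px p) = true} : Set P).ncard : ℝ) * Fintype.card N ≤
        (({p : N | S.ev a (py p) = true} : Set N).ncard : ℝ) * Fintype.card P) [Finite G]
    (C : Circuit J G) (hC : ∃ d, C.DepthLE d) (Vf : (J → Bool) → G → Bool)
    (hV : ∀ x, C.Consistent x (Vf x)) (sub : J → E ⊕ Bool) :
    ((univ.filter (fun p : P => Chg C Vf (pl sub (fun _ => false)) (pl sub (px p)))).card : ℝ) *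
        Fintype.card N ≤
      ((univ.filter (fun c : N => Chg C Vf (pl sub (fun _ => false)) (pl sub (py c)))).card : ℝ) *
        Fintype.card P +
      ((Nat.card G + Nat.card (SW C) + 1 : ℕ) : ℝ) *
        (ep * Fintype.card N + en * Fintype.card P) := by
  obtain ⟨d, lev, hlev1, hlev2⟩ := hC
  let l : Lev C := ⟨lev, d, fun g => (hlev1 g).2, hlev2⟩
  have : Fintype G := Fintype.ofFinite G
  set X0 : J → Bool := pl sub (fun _ => false) with hX0
  -- the nodes: the special wires and the output which are zero at the empty window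
  let W0 : List ((J ⊕ Bool) ⊕ G) :=
    Sum.inr C.out :: (univ : Finset (SW C)).toList.map (fun p => C.src p.1.1 p.1.2)
  let Z : List ((J ⊕ Bool) ⊕ G) := W0.filter (fun nd => !(Circuit.node X0 (Vf X0) nd))
  have hW0 : W0.length = Nat.card (SW C) + 1 := by
    simp only [W0, List.length_cons, List.length_map, length_toList]
    rw [Nat.card_eq_fintype_card, card_univ]
  have hZ : Z.length ≤ Nat.card (SW C) + 1 := by
    rw [← hW0]
    exact List.length_filter_le _ _
  have hZmem : ∀ nd, nd ∈ Z ↔ nd ∈ W0 ∧ Circuit.node X0 (Vf X0) nd = false := by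
    intro nd
    simp only [Z, List.mem_filter, Bool.not_eq_true']
  have hW0mem : ∀ nd, nd ∈ W0 ↔ nd = Sum.inr C.out ∨
      ∃ s, ¬ C.Plain s ∧ ∃ k : Fin (C.arity s), nd = C.src s k := by
    intro nd
    simp only [W0, List.mem_cons, List.mem_map, mem_toList, mem_univ, true_and]
    constructor
    · rintro (h | ⟨p, rfl⟩)
      · exact Or.inl h
      · exact Or.inr ⟨p.1.1, p.2, p.1.2, rfl⟩
    · rintro (h | ⟨s, hs, k, rfl⟩)
      · exact Or.inl h
      · exact Or.inr ⟨⟨⟨s, k⟩, hs⟩, rfl⟩
  have hle : ∀ x : E → Bool, ∀ j, X0 j = true → pl sub x j = true := by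
    intro x j hj
    exact pl_mono sub (fun i hi => absurd hi (by simp)) j hj
  have e0 : ∀ nd, nv C l (Vf X0) nd X0 = Circuit.node X0 (Vf X0) nd := fun nd =>
    nv_true C l (Vf X0) X0 (Vf X0) (hV X0) (fun _ _ => rfl) nd
  have key : ∀ x : E → Bool, Chg C Vf X0 (pl sub x) ↔
      ∃ nd ∈ Z, nv C l (Vf X0) nd (pl sub x) = true := by
    intro x
    constructor
    · -- if no node of the list is one, then nothing changes
      intro hch
      by_contra hcon
      push Not at hcon
      have h0 : ∀ nd ∈ W0, nv C l (Vf X0) nd (pl sub x) = nv C l (Vf X0) nd X0 := by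
        intro nd hnd
        cases h2 : nv C l (Vf X0) nd X0
        · rw [e0] at h2
          exact Bool.eq_false_iff.mpr (hcon nd ((hZmem nd).mpr ⟨hnd, h2⟩))
        · exact nv_mono C l _ _ (hle x) h2
      have h1 : ∀ s, ¬ C.Plain s → ∀ k : Fin (C.arity s),
          nv C l (Vf X0) (C.src s k) (pl sub x) = nv C l (Vf X0) (C.src s k) X0 :=
        fun s hs k => h0 _ ((hW0mem _).mpr (Or.inr ⟨s, hs, k, rfl⟩))
      have h2 := special_frozen C l Vf hV X0 (pl sub x) h1
      have h3 : ∀ nd, nv C l (Vf X0) nd (pl sub x) =
          Circuit.node (pl sub x) (Vf (pl sub x)) nd := fun nd =>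
        nv_true C l (Vf X0) (pl sub x) (Vf (pl sub x)) (hV _) h2 nd
      rcases hch with ⟨s, hs, k, hk⟩ | hout
      · apply hk
        rw [← e0, ← h3]
        exact (h1 s hs k).symm
      · apply hout
        have h4 := h0 (Sum.inr C.out) ((hW0mem _).mpr (Or.inl rfl))
        rw [h3, e0] at h4
        exact h4.symm
    · rintro ⟨nd, hnd, hv⟩
      by_contra hch
      unfold Chg at hch
      push Not at hch
      obtain ⟨hbad, hout⟩ := hch
      have h1 : ∀ s, ¬ C.Plain s → ∀ k : Fin (C.arity s),
          Circuit.node X0 (Vf X0) (C.src s k) =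
            Circuit.node (pl sub x) (Vf (pl sub x)) (C.src s k) := by
        intro s hs k
        by_contra hne
        exact hbad ⟨s, hs, k, hne⟩
      have h2 : ∀ s, ¬ C.Plain s → Vf X0 s = Vf (pl sub x) s := fun s hs =>
        special_eq C (hV X0) (hV (pl sub x)) s (h1 s hs)
      have h3 : nv C l (Vf X0) nd (pl sub x) =
          Circuit.node (pl sub x) (Vf (pl sub x)) nd :=
        nv_true C l (Vf X0) (pl sub x) (Vf (pl sub x)) (hV _) h2 nd
      rw [h3] at hv
      obtain ⟨hnd1, hnd2⟩ := (hZmem nd).mp hnd
      rcases (hW0mem nd).mp hnd1 with rfl | ⟨s, hs, k, rfl⟩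
      · change Vf (pl sub x) C.out = true at hv
        change Vf X0 C.out = false at hnd2
        rw [hout, hv] at hnd2
        exact absurd hnd2 (by decide)
      · have h4 := h1 s hs k
        rw [hnd2, hv] at h4
        exact absurd h4 (by decide)
  have h1 := or_le S C l (Vf X0) sub Z hdich
  have e1 : ({p : P | ∃ nd ∈ Z, nv C l (Vf X0) nd (pl sub (px p)) = true} : Set P) =
      ((univ.filter (fun p : P => Chg C Vf X0 (pl sub (px p))) : Finset P) : Set P) := by
    ext p
    rw [coe_filter, Set.mem_ofPred_eq, Set.mem_ofPred_eq, key]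
    simp
  have e2 : ({p : N | ∃ nd ∈ Z, nv C l (Vf X0) nd (pl sub (py p)) = true} : Set N) =
      ((univ.filter (fun p : N => Chg C Vf X0 (pl sub (py p))) : Finset N) : Set N) := by
    ext p
    rw [coe_filter, Set.mem_ofPred_eq, Set.mem_ofPred_eq, key]
    simp
  rw [e1, e2, Set.ncard_coe_finset, Set.ncard_coe_finset] at h1
  refine h1.trans ?_
  have hep0 := ep_nonneg S
  have hen0 := en_nonneg S
  have hcardK : ((Fintype.card G : ℝ) + Z.length) ≤
      ((Nat.card G + Nat.card (SW C) + 1 : ℕ) : ℝ) := by
    rw [Nat.card_eq_fintype_card (α := G)]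
    have : Fintype.card G + Z.length ≤ Fintype.card G + Nat.card (SW C) + 1 := by omega
    exact_mod_cast this
  have h2 : 0 ≤ ep * (Fintype.card N : ℝ) + en * Fintype.card P := by positivity
  have h3 := mul_le_mul_of_nonneg_right hcardK h2
  linarith

end Window

end Pool.Agent.DN
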