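import Pool.Agent.Lib.MP_66cd2e_lc.DN.Def
import Pool.Agent.Lib.MP_66cd2e_lc.DN.Chain
import Pool.Agent.Lib.MP_66cd2e_lc.DN.Win

/-!
The contradiction for small circuits whose special gates seldom change along chains.
-/

set_option autoImplicit false

namespace Pool.Agent.DN

open Finset Pool.Agent.NEG Pool.Agent.NEGS

/-- the graph has a clique with one vertex in each group -/
def HasCl {k q : ℕ} (w : Ed k q → Bool) : Prop :=
  ∃ s : Fin k → Fin q, ∀ e, px s e = true → w e = true

/-- composition of substitutions -/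
theorem pl_cmp' {I J K : Type} (f : K → J ⊕ Bool) (g : J → I ⊕ Bool) (x : I → Bool) :
    pl (NEGS.cmp f g) x = pl f (pl g x) := by
  funext k
  unfold pl NEGS.cmp
  cases f k <;> rfl

/-- the number of pairs of groups -/
theorem card_pairs (k : ℕ) :
    ((univ : Finset (Fin k × Fin k)).filter (fun p => p.1 < p.2)).card = k * (k - 1) / 2 := by
  classical
  have h1 : ((univ : Finset (Fin k × Fin k)).filter (fun p => p.1 < p.2)).card =
      ∑ b : Fin k, ((univ : Finset (Fin k)).filter (fun a => a < b)).card := by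
    rw [card_filter, Fintype.sum_prod_type_right]
    refine sum_congr rfl (fun b _ => ?_)
    rw [card_filter]
  rw [h1]
  have h2 : ∀ b : Fin k, ((univ : Finset (Fin k)).filter (fun a => a < b)).card = (b : ℕ) := by
    intro b
    rw [filter_gt_eq_Iio, Fin.card_Iio]
  rw [sum_congr rfl (fun b _ => h2 b), Fin.sum_univ_eq_sum_range (fun i => i) k,
    sum_range_id]

/-- the edges of the clique on a transversal -/
theorem card_px {k q : ℕ} (s : Fin k → Fin q) :
    k * (k - 1) / 2 ≤ (univ.filter (fun e : Ed k q => px s e = true)).card := by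
  classical
  rw [← card_pairs, ← Fintype.card_subtype, ← card_univ]
  refine card_le_card_of_injOn (fun p => (⟨((p.1.1, s p.1.1), (p.1.2, s p.1.2)), p.2⟩ : Ed k q))
    ?_ ?_
  · intro p _
    rw [mem_coe, mem_filter]
    exact ⟨mem_univ _, by simp [px]⟩
  · intro p _ p' _ h
    have h1 := congrArg Subtype.val h
    simp only [Prod.mk.injEq] at h1
    exact Subtype.ext (Prod.ext h1.1.1 h1.2.1)

open Classical in
/-- few negative tests have a clique -/
theorem card_cl {k q P : ℕ} (hP : 0 < P) :
    (univ.filter (fun c : Ed k q → Fin P => HasCl (py c))).card * P ^ (k * (k - 1) / 2) ≤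
      q ^ k * Fintype.card (Ed k q → Fin P) := by
  set m := k * (k - 1) / 2 with hm
  have hone : ∀ s : Fin k → Fin q, (univ.filter (fun c : Ed k q → Fin P =>
      ∀ e, px s e = true → (c e : ℕ) = 0)).card * P ^ m ≤ Fintype.card (Ed k q → Fin P) := by
    intro s
    have h1 : (univ.filter (fun c : Ed k q → Fin P => ∀ e, px s e = true → (c e : ℕ) = 0)) =
        Fintype.piFinset (fun e => if px s e = true then {⟨0, hP⟩} else univ) := by
      ext c
      rw [mem_filter, Fintype.mem_piFinset]
      constructor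
      · intro h e
        by_cases he : px s e = true
        · rw [if_pos he, mem_singleton]
          exact Fin.ext (h.2 e he)
        · rw [if_neg he]
          exact mem_univ _
      · intro h
        refine ⟨mem_univ _, fun e he => ?_⟩
        have h2 := h e
        rw [if_pos he, mem_singleton] at h2
        rw [h2]
    have h2 : ∀ e : Ed k q, (if px s e = true then ({⟨0, hP⟩} : Finset (Fin P)) else univ).card =
        if px s e = true then 1 else P := by
      intro e
      by_cases he : px s e = true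
      · rw [if_pos he, if_pos he, card_singleton]
      · rw [if_neg he, if_neg he, card_univ, Fintype.card_fin]
    have h3 : (univ.filter (fun c : Ed k q → Fin P =>
        ∀ e, px s e = true → (c e : ℕ) = 0)).card =
        P ^ (univ.filter (fun e : Ed k q => ¬ px s e = true)).card := by
      rw [h1, Fintype.card_piFinset, prod_congr rfl (fun e _ => h2 e), prod_ite, prod_const_one,
        one_mul, prod_const]
    have h4 := card_filter_add_card_filter_not (s := (univ : Finset (Ed k q)))
      (fun e => px s e = true)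
    have h5 := card_px s
    rw [card_univ] at h4
    rw [h3, Fintype.card_fun, Fintype.card_fin, ← pow_add]
    apply Nat.pow_le_pow_right hP
    omega
  have hsub : (univ.filter (fun c : Ed k q → Fin P => HasCl (py c))) ⊆
      univ.biUnion (fun s : Fin k → Fin q => univ.filter (fun c : Ed k q → Fin P =>
        ∀ e, px s e = true → (c e : ℕ) = 0)) := by
    intro c hc
    rw [mem_filter] at hc
    obtain ⟨_, s, hs⟩ := hc
    rw [mem_biUnion]
    refine ⟨s, mem_univ _, ?_⟩
    rw [mem_filter]
    refine ⟨mem_univ _, fun e he => ?_⟩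
    have h1 := hs e he
    unfold py at h1
    exact of_decide_eq_true h1
  calc (univ.filter (fun c : Ed k q → Fin P => HasCl (py c))).card * P ^ m
      ≤ (∑ s : Fin k → Fin q, (univ.filter (fun c : Ed k q → Fin P =>
        ∀ e, px s e = true → (c e : ℕ) = 0)).card) * P ^ m :=
        Nat.mul_le_mul_right _ ((card_le_card hsub).trans card_biUnion_le)
    _ = ∑ s : Fin k → Fin q, (univ.filter (fun c : Ed k q → Fin P =>
        ∀ e, px s e = true → (c e : ℕ) = 0)).card * P ^ m := by rw [sum_mul]
    _ ≤ ∑ _s : Fin k → Fin q, Fintype.card (Ed k q → Fin P) := sum_le_sum (fun s _ => hone s)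
    _ = q ^ k * Fintype.card (Ed k q → Fin P) := by
        rw [sum_const, card_univ, Fintype.card_fun, Fintype.card_fin, Fintype.card_fin,
          smul_eq_mul]

/-- what is used about the approximators -/
def GoodSys (k q P r : ℕ) : Prop :=
  ∃ (ep en : ℝ) (S : Sys (Ed k q) (Fin k → Fin q) (Ed k q → Fin P) px py ep en),
    (2 : ℝ) ^ r * ep ≤ Fintype.card (Fin k → Fin q) ∧
    (2 : ℝ) ^ r * en ≤ Fintype.card (Ed k q → Fin P) ∧
    ∀ a : S.A, (∀ w, S.ev a w = true) ∨
      (({p | S.ev a (px p) = true} : Set (Fin k → Fin q)).ncard : ℝ) *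
          Fintype.card (Ed k q → Fin P) ≤
        (({p | S.ev a (py p) = true} : Set (Ed k q → Fin P)).ncard : ℝ) *
          Fintype.card (Fin k → Fin q)

/-- the negative tests without a clique -/
abbrev Cf (k q P : ℕ) : Type := {c : Ed k q → Fin P // ¬ HasCl (py c)}

/-- the indices of the pairs: a block, tests for the blocks before it, a transversal -/
abbrev Ix (L k q P : ℕ) : Type := Fin L × (Fin L → Cf k q P) × (Fin k → Fin q)

section Pairs

variable {L k q P : ℕ}

/-- the positive member of a pair -/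
def Xp (i : Ix L k q P) : Fin L × Ed k q → Bool :=
  pl (sb (fun c : Cf k q P => py c.1) i.1 i.2.1) (px i.2.2)

/-- the negative member of a pair -/
def Xn (i : Ix L k q P) : Fin L × Ed k q → Bool :=
  pl (sb (fun c : Cf k q P => py c.1) i.1 i.2.1) (fun _ => false)

theorem Xp_cl (i : Ix L k q P) : ∃ w, HasCl fun e => Xp i (w, e) := by
  refine ⟨i.1, i.2.2, fun e he => ?_⟩
  simp only [Xp, pl, sb, lt_irrefl, if_false, if_true]
  exact he

theorem Xn_cl (hk : 2 ≤ k) (i : Ix L k q P) : ¬ ∃ w, HasCl fun e => Xn i (w, e) := by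
  have hempty : ¬ HasCl (fun _ : Ed k q => false) := by
    rintro ⟨s, hs⟩
    have h1 : (⟨0, by omega⟩ : Fin k) < ⟨1, by omega⟩ := by
      rw [Fin.lt_def]
      exact Nat.zero_lt_one
    have := hs ⟨((⟨0, by omega⟩, s ⟨0, by omega⟩), (⟨1, by omega⟩, s ⟨1, by omega⟩)), h1⟩ (by
      simp [px])
    exact Bool.false_ne_true this
  rintro ⟨w, hw⟩
  by_cases h : (w : ℕ) < i.1
  · apply (i.2.1 w).2
    have h1 : (fun e => Xn i (w, e)) = py (i.2.1 w).1 := by
      funext e
      simp [Xn, pl, sb, h]
    rw [h1] at hw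
    exact hw
  · apply hempty
    have h1 : (fun e => Xn i (w, e)) = (fun _ : Ed k q => false) := by
      funext e
      by_cases h3 : w = i.1
      · simp [Xn, pl, sb, h3]
      · simp [Xn, pl, sb, h, h3]
    rw [h1] at hw
    exact hw

theorem Xn_le (i : Ix L k q P) (e : Fin L × Ed k q) (h : Xn i e = true) : Xp i e = true :=
  pl_mono _ (fun _ hf => absurd hf Bool.false_ne_true) e h

open Classical in
/-- a small circuit whose special gates seldom change along chains gives different answers on
few of the pairs -/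
theorem core {r D : ℕ} {I G : Type} [Finite G] (hP : 0 < P) (hS : GoodSys k q P r)
    (C : Circuit I G) (hC : ∃ d, C.DepthLE d)
    (hD : ∀ (X : ℕ → I → Bool) (v : ℕ → G → Bool),
      (∀ i e, X i e = true → X (i + 1) e = true) → (∀ i, C.Consistent (X i) (v i)) →
      ∀ N : ℕ, ((Finset.range N).filter (fun i => ChO C X v i)).card ≤ D)
    (sub : I → (Fin L × Ed k q) ⊕ Bool) (Vf : (I → Bool) → G → Bool)
    (hV : ∀ x, C.Consistent x (Vf x)) {θ : ℝ} (hθ : 0 ≤ θ) (h1 : 4 * (D : ℝ) ≤ θ * L)
    (h2 : 4 * (q : ℝ) ^ k ≤ θ * (P : ℝ) ^ (k * (k - 1) / 2))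
    (h3 : 4 * ((Nat.card G + Nat.card (SW C) + 1 : ℕ) : ℝ) ≤ θ * 2 ^ r) :
    (({i | Chg C Vf (pl sub (Xn i)) (pl sub (Xp i))} : Set (Ix L k q P)).ncard : ℝ) ≤
      θ * Nat.card (Ix L k q P) := by
  obtain ⟨ep, en, S, hep, hen, hdich⟩ := hS
  have hep0 := ep_nonneg S
  have hen0 := en_nonneg S
  let _ : Fintype (Cf k q P) := Fintype.ofFinite _
  let t : Cf k q P → Ed k q → Bool := fun c => py c.1
  set N0 : ℝ := (Fintype.card (Ed k q → Fin P) : ℝ) with hN0
  set PP : ℝ := (Fintype.card (Fin k → Fin q) : ℝ) with hPP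
  set NN : ℕ := Fintype.card (Cf k q P) with hNN
  set M1 : ℕ := Fintype.card (Fin L → Cf k q P) with hM1
  set Kk : ℝ := ((Nat.card G + Nat.card (SW C) + 1 : ℕ) : ℝ) with hKk
  set cl : ℕ := (univ.filter (fun c : Ed k q → Fin P => HasCl (py c))).card with hcl
  have hNe : Nonempty (Ed k q → Fin P) := ⟨fun _ => ⟨0, hP⟩⟩
  have hN0pos : 0 < N0 := by
    rw [hN0]
    exact_mod_cast Fintype.card_pos
  have hPP0 : 0 ≤ PP := Nat.cast_nonneg _
  -- one block
  have hone : ∀ (j : Fin L) (τ : Fin L → Cf k q P),
      ((univ.filter (fun s : Fin k → Fin q =>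
        Chg C Vf (pl sub (Xn (j, τ, s))) (pl sub (Xp (j, τ, s))))).card : ℝ) * N0 ≤
      (((univ.filter (fun c : Cf k q P => Chg C Vf (pl sub (pl (sb t j τ) (fun _ => false)))
        (pl sub (pl (sb t j τ) (t c))))).card + cl : ℕ) : ℝ) * PP + Kk * (ep * N0 + en * PP) := by
    intro j τ
    have h4 := window_le S hdich C hC Vf hV (NEGS.cmp sub (sb t j τ))
    simp only [pl_cmp'] at h4
    have h5 : (univ.filter (fun c : Ed k q → Fin P =>
        Chg C Vf (pl sub (pl (sb t j τ) (fun _ => false))) (pl sub (pl (sb t j τ) (py c))))).card ≤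
        (univ.filter (fun c : Cf k q P => Chg C Vf (pl sub (pl (sb t j τ) (fun _ => false)))
        (pl sub (pl (sb t j τ) (t c))))).card + cl := by
      have h6 : univ.filter (fun c : Ed k q → Fin P =>
          Chg C Vf (pl sub (pl (sb t j τ) (fun _ => false))) (pl sub (pl (sb t j τ) (py c)))) ⊆
          (univ.filter (fun c : Cf k q P => Chg C Vf (pl sub (pl (sb t j τ) (fun _ => false)))
            (pl sub (pl (sb t j τ) (t c))))).image Subtype.val ∪
          univ.filter (fun c : Ed k q → Fin P => HasCl (py c)) := by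
        intro c hc
        rw [mem_filter] at hc
        rw [mem_union, mem_image, mem_filter]
        by_cases h7 : HasCl (py c)
        · exact Or.inr ⟨mem_univ _, h7⟩
        · left
          refine ⟨⟨c, h7⟩, ?_, rfl⟩
          rw [mem_filter]
          exact ⟨mem_univ _, hc.2⟩
      exact (card_le_card h6).trans ((card_union_le _ _).trans
        (Nat.add_le_add_right card_image_le _))
    refine h4.trans (add_le_add_left ?_ _)
    exact mul_le_mul_of_nonneg_right (by exact_mod_cast h5) hPP0
  -- the sum over the blocks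
  have hsum := chain_sum (L := L) t (fun x y => Chg C Vf (pl sub x) (pl sub y)) (D := D) (by
    intro τ
    have h4 := hD (fun i => pl sub (Wc t i τ)) (fun i => Vf (pl sub (Wc t i τ)))
      (fun i e he => pl_mono sub (Wc_mono t i τ) e he) (fun i => hV _) L
    refine le_trans ?_ h4
    refine card_le_card_of_injOn (fun j : Fin L => (j : ℕ)) ?_ (fun a _ b _ h => Fin.ext h)
    intro j hj
    rw [mem_coe, mem_filter] at hj
    rw [mem_coe, mem_filter, mem_range]
    refine ⟨j.2, ?_⟩
    rcases hj.2 with ⟨s, hs, k', hk'⟩ | h5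
    · exact Or.inl ⟨s, hs, trivial, k', hk'⟩
    · exact Or.inr h5)
  have hA : (({i | Chg C Vf (pl sub (Xn i)) (pl sub (Xp i))} : Set (Ix L k q P)).ncard) =
      ∑ j : Fin L, ∑ τ : Fin L → Cf k q P, (univ.filter (fun s : Fin k → Fin q =>
        Chg C Vf (pl sub (Xn (j, τ, s))) (pl sub (Xp (j, τ, s))))).card := by
    have e : ({i | Chg C Vf (pl sub (Xn i)) (pl sub (Xp i))} : Set (Ix L k q P)) =
        ((univ.filter (fun i : Ix L k q P => Chg C Vf (pl sub (Xn i)) (pl sub (Xp i))) :
          Finset _) : Set _) := by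
      ext i
      simp
    rw [e, Set.ncard_coe_finset, card_filter, Fintype.sum_prod_type]
    refine sum_congr rfl (fun j _ => ?_)
    rw [Fintype.sum_prod_type]
    refine sum_congr rfl (fun τ _ => ?_)
    rw [card_filter]
  have hcard : (Nat.card (Ix L k q P) : ℝ) = L * (M1 * PP) := by
    rw [Nat.card_eq_fintype_card, Fintype.card_prod, Fintype.card_prod, Fintype.card_fin]
    push_cast
    rfl
  rw [hcard, hA]
  -- numbers
  have hclR : 4 * (cl : ℝ) ≤ θ * N0 := by
    have h4 := card_cl (k := k) (q := q) hP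
    rw [← hcl] at h4
    have h5 : (cl : ℝ) * (P : ℝ) ^ (k * (k - 1) / 2) ≤ (q : ℝ) ^ k * N0 := by
      rw [hN0]
      exact_mod_cast h4
    have h6 : (0 : ℝ) < (P : ℝ) ^ (k * (k - 1) / 2) := by
      have : (0 : ℝ) < P := by exact_mod_cast hP
      positivity
    have h7 : 4 * (cl : ℝ) * (P : ℝ) ^ (k * (k - 1) / 2) ≤
        θ * N0 * (P : ℝ) ^ (k * (k - 1) / 2) := by
      have h8 := mul_le_mul_of_nonneg_right h2 hN0pos.le
      linarith
    exact le_of_mul_le_mul_right h7 h6
  have h2r : (0 : ℝ) < 2 ^ r := by positivity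
  have hepR : 4 * (Kk * ep) ≤ θ * PP := by
    have h4 := mul_le_mul_of_nonneg_right h3 hep0
    have h5 := mul_le_mul_of_nonneg_left hep hθ
    linarith
  have henR : 4 * (Kk * en) ≤ θ * N0 := by
    have h4 := mul_le_mul_of_nonneg_right h3 hen0
    have h5 := mul_le_mul_of_nonneg_left hen hθ
    linarith
  have hNN0 : (NN : ℝ) ≤ N0 := by
    rw [hN0]
    have : NN ≤ Fintype.card (Ed k q → Fin P) :=
      Fintype.card_le_of_injective (Subtype.val : Cf k q P → _) Subtype.val_injective
    exact_mod_cast this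
  have hsumR : ((∑ j : Fin L, ∑ τ : Fin L → Cf k q P, (univ.filter (fun c : Cf k q P =>
      Chg C Vf (pl sub (pl (sb t j τ) (fun _ => false)))
        (pl sub (pl (sb t j τ) (t c))))).card : ℕ) : ℝ) ≤ N0 * (D * M1) := by
    have h4 : ((∑ j : Fin L, ∑ τ : Fin L → Cf k q P, (univ.filter (fun c : Cf k q P =>
      Chg C Vf (pl sub (pl (sb t j τ) (fun _ => false)))
        (pl sub (pl (sb t j τ) (t c))))).card : ℕ) : ℝ) ≤ (NN : ℝ) * (D * M1) := by
      exact_mod_cast hsum
    exact h4.trans (mul_le_mul_of_nonneg_right hNN0 (by positivity))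
  have htot : ((∑ j : Fin L, ∑ τ : Fin L → Cf k q P, (univ.filter (fun s : Fin k → Fin q =>
        Chg C Vf (pl sub (Xn (j, τ, s))) (pl sub (Xp (j, τ, s))))).card : ℕ) : ℝ) * N0 ≤
      (θ * (L * (M1 * PP))) * N0 := by
    calc ((∑ j : Fin L, ∑ τ : Fin L → Cf k q P, (univ.filter (fun s : Fin k → Fin q =>
        Chg C Vf (pl sub (Xn (j, τ, s))) (pl sub (Xp (j, τ, s))))).card : ℕ) : ℝ) * N0
        = ∑ j : Fin L, ∑ τ : Fin L → Cf k q P, ((univ.filter (fun s : Fin k → Fin q =>
        Chg C Vf (pl sub (Xn (j, τ, s))) (pl sub (Xp (j, τ, s))))).card : ℝ) * N0 := by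
          push_cast
          rw [sum_mul]
          refine sum_congr rfl (fun j _ => ?_)
          rw [sum_mul]
      _ ≤ ∑ j : Fin L, ∑ τ : Fin L → Cf k q P, ((((univ.filter (fun c : Cf k q P =>
          Chg C Vf (pl sub (pl (sb t j τ) (fun _ => false)))
          (pl sub (pl (sb t j τ) (t c))))).card + cl : ℕ) : ℝ) * PP +
            Kk * (ep * N0 + en * PP)) :=
          sum_le_sum (fun j _ => sum_le_sum (fun τ _ => hone j τ))
      _ = ((∑ j : Fin L, ∑ τ : Fin L → Cf k q P, (univ.filter (fun c : Cf k q P =>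
          Chg C Vf (pl sub (pl (sb t j τ) (fun _ => false)))
          (pl sub (pl (sb t j τ) (t c))))).card : ℕ) : ℝ) * PP +
            L * M1 * (cl * PP + Kk * (ep * N0 + en * PP)) := by
          push_cast
          simp only [add_mul, sum_add_distrib, sum_const, card_univ, nsmul_eq_mul,
            Fintype.card_fin, ← hM1, sum_mul]
          ring
      _ ≤ N0 * (D * M1) * PP + L * M1 * (cl * PP + Kk * (ep * N0 + en * PP)) := by
          apply add_le_add_left
          exact mul_le_mul_of_nonneg_right hsumR hPP0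
      _ ≤ (θ * (L * (M1 * PP))) * N0 := by
          have hM0 : (0 : ℝ) ≤ M1 := Nat.cast_nonneg _
          have hL0 : (0 : ℝ) ≤ L := Nat.cast_nonneg _
          have k1 : 4 * (N0 * (D * M1) * PP) ≤ θ * L * (N0 * M1 * PP) := by
            have h4 : (0 : ℝ) ≤ N0 * M1 * PP := by positivity
            have h5 := mul_le_mul_of_nonneg_right h1 h4
            linarith
          have k2 : 4 * (cl * PP) ≤ θ * N0 * PP := by
            have h5 := mul_le_mul_of_nonneg_right hclR hPP0
            linarith
          have k3 : 4 * (Kk * (ep * N0)) ≤ θ * PP * N0 := by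
            have h5 := mul_le_mul_of_nonneg_right hepR hN0pos.le
            linarith
          have k4 : 4 * (Kk * (en * PP)) ≤ θ * N0 * PP := by
            have h5 := mul_le_mul_of_nonneg_right henR hPP0
            linarith
          have k5 : 4 * (cl * PP + Kk * (ep * N0 + en * PP)) ≤ 3 * (θ * N0 * PP) := by
            linarith
          have h6 : (0 : ℝ) ≤ L * M1 := by positivity
          have k6 := mul_le_mul_of_nonneg_left k5 h6
          linarith
  exact le_of_mul_le_mul_right htot hN0pos

end Pairs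

end Pool.Agent.DN
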