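import Mathlib

/-!
Cliques in `k`-partite graphs with `q` vertices in each group: terms, tests, closed families.
-/

namespace Pool.Agent.DN

open Finset

/-- the vertices of a block -/
abbrev Vx (k q : ℕ) : Type := Fin k × Fin q

/-- the variables of a block: the edges between different groups -/
abbrev Ed (k q : ℕ) : Type := {e : Vx k q × Vx k q // e.1.1 < e.2.1}

variable {k q : ℕ}

/-- the edges of the clique on `R` -/
def kedge (R : Finset (Vx k q)) : Finset (Ed k q) :=
  univ.filter (fun e => e.1.1 ∈ R ∧ e.1.2 ∈ R)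

/-- a term: at most `l` vertices, at most one in each group -/
def Term (l : ℕ) (R : Finset (Vx k q)) : Prop :=
  R.card ≤ l ∧ ∀ a ∈ R, ∀ b ∈ R, a.1 = b.1 → a = b

/-- the positive tests: the cliques on all transversals -/
def px (s : Fin k → Fin q) (e : Ed k q) : Bool :=
  decide (s e.1.1.1 = e.1.1.2 ∧ s e.1.2.1 = e.1.2.2)

/-- the negative tests: random graphs with edge probability `1 / P` -/
def py {P : ℕ} (c : Ed k q → Fin P) (e : Ed k q) : Bool := decide ((c e : ℕ) = 0)

/-- the function computed by a family of terms -/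
def ev (𝓕 : Finset (Finset (Vx k q))) (w : Ed k q → Bool) : Prop :=
  ∃ R ∈ 𝓕, ∀ e ∈ kedge R, w e = true

open Classical in
/-- the negative tests for which no member of the family over `K` is a clique outside the
clique on `K` -/
noncomputable def fail (P : ℕ) (𝓕 : Finset (Finset (Vx k q))) (K : Finset (Vx k q)) :
    Finset (Ed k q → Fin P) :=
  univ.filter (fun c => ∀ R ∈ 𝓕, K ⊆ R → ¬ ∀ e ∈ kedge R \ kedge K, py c e = true)

/-- the robust sunflower property with the parameters `l`, `ρ`, `B` -/
def Sun (k q P l ρ B : ℕ) : Prop :=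
  ∀ (i : ℕ) (F : Finset (Finset (Vx k q))),
    1 ≤ i → i ≤ l → (∀ R ∈ F, Term l R ∧ R.card = i) → B ^ i < F.card →
    ∃ K : Finset (Vx k q), K.card < i ∧ (∃ R ∈ F, K ⊆ R) ∧ (fail P F K).card ≤ ρ

open Classical in
/-- the terms -/
noncomputable def terms (k q l : ℕ) : Finset (Finset (Vx k q)) :=
  univ.filter (fun R => Term l R)

end Pool.Agent.DN
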