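import Pool.Agent.Lib.MP_66cd2e_lc.DN.Sun

/-!
Closed families of partial transversals: basic properties, the closure, the meet, the
dichotomy.
-/

namespace Pool.Agent.DN

open Finset

variable {k q P : ℕ}

theorem Ed.ne (e : Ed k q) : e.1.1 ≠ e.1.2 := by
  intro h
  have h1 := e.2
  rw [h] at h1
  exact absurd h1 (lt_irrefl _)

theorem kedge_of_card_le_one {R : Finset (Vx k q)} (h : R.card ≤ 1) : kedge R = ∅ := by
  rw [eq_empty_iff_forall_notMem]
  intro e he
  rw [mem_kedge] at he
  exact e.ne (card_le_one.mp h _ he.1 _ he.2)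

theorem Term.sub {l : ℕ} {R S : Finset (Vx k q)} (hR : Term l R) (h : S ⊆ R) : Term l S :=
  ⟨(card_le_card h).trans hR.1, fun a ha b hb => hR.2 a (h ha) b (h hb)⟩

theorem mem_terms {l : ℕ} {R : Finset (Vx k q)} : R ∈ terms k q l ↔ Term l R := by
  simp [terms]

open Classical in
theorem mem_fail {𝓕 : Finset (Finset (Vx k q))} {K : Finset (Vx k q)} {c : Ed k q → Fin P} :
    c ∈ fail P 𝓕 K ↔ ∀ R ∈ 𝓕, K ⊆ R → ¬ ∀ e ∈ kedge R \ kedge K, py c e = true := by
  unfold fail
  exact mem_filter_univ _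

theorem fail_anti {𝓕 𝓖 : Finset (Finset (Vx k q))} (h : 𝓕 ⊆ 𝓖) (K : Finset (Vx k q)) :
    fail P 𝓖 K ⊆ fail P 𝓕 K := by
  intro c hc
  rw [mem_fail] at hc ⊢
  exact fun R hR => hc R (h hR)

/-- closed families -/
structure Closed (P l ρ : ℕ) (𝓕 : Finset (Finset (Vx k q))) : Prop where
  term : ∀ R ∈ 𝓕, Term l R
  up : ∀ S ∈ 𝓕, ∀ R, Term l R → S ⊆ R → R ∈ 𝓕
  cl : ∀ K, Term l K → (fail P 𝓕 K).card ≤ ρ → K ∈ 𝓕

open Classical in
/-- the minimal members -/
noncomputable def mins (𝓕 : Finset (Finset (Vx k q))) : Finset (Finset (Vx k q)) :=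
  𝓕.filter (fun R => ∀ S ∈ 𝓕, S ⊆ R → S = R)

theorem exists_min (𝓕 : Finset (Finset (Vx k q))) (R : Finset (Vx k q))
    (hR : R ∈ 𝓕) : ∃ S ∈ mins 𝓕, S ⊆ R := by
  induction R using Finset.strongInduction with
  | H R ih =>
      by_cases h : ∀ S ∈ 𝓕, S ⊆ R → S = R
      · exact ⟨R, mem_filter.mpr ⟨hR, h⟩, Subset.rfl⟩
      · push Not at h
        obtain ⟨S, hS, hSR, hne⟩ := h
        obtain ⟨T, hT, hTS⟩ := ih S (hSR.ssubset_of_ne hne) hS
        exact ⟨T, hT, hTS.trans hSR⟩

/-- the number of minimal members of size `i` -/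
theorem card_mins {l ρ B : ℕ} (hsun : Sun k q P l ρ B)
    {𝓕 : Finset (Finset (Vx k q))} (h𝓕 : Closed P l ρ 𝓕) (i : ℕ) :
    ((mins 𝓕).filter (fun R => R.card = i)).card ≤ B ^ i := by
  rcases Nat.eq_zero_or_pos i with rfl | hi
  · have h4 : (mins 𝓕).filter (fun R => R.card = 0) ⊆ {∅} := by
      intro S hS
      rw [mem_singleton]
      exact card_eq_zero.mp (mem_filter.mp hS).2
    have := card_le_card h4
    simpa using this
  by_cases hil : i ≤ l
  swap
  · have : (mins 𝓕).filter (fun R => R.card = i) = ∅ := by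
      apply filter_eq_empty_iff.mpr
      rintro R hR h1
      have := (h𝓕.term R (mem_filter.mp hR).1).1
      omega
    rw [this]
    simp
  by_contra hcon
  push Not at hcon
  obtain ⟨K, h1, ⟨R, hR, hKR⟩, h2⟩ := hsun i _ hi hil (by
    intro R hR
    rw [mem_filter] at hR
    exact ⟨h𝓕.term R (mem_filter.mp hR.1).1, hR.2⟩) hcon
  have hsub : (mins 𝓕).filter (fun R => R.card = i) ⊆ 𝓕 :=
    (filter_subset _ _).trans (filter_subset _ _)
  have hR' := mem_filter.mp hR
  have hRm := mem_filter.mp hR'.1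
  have hK : K ∈ 𝓕 := h𝓕.cl K ((h𝓕.term R hRm.1).sub hKR)
    ((card_le_card (fail_anti hsub K)).trans h2)
  have h3 := hRm.2 K hK hKR
  rw [h3] at h1
  omega

theorem card_mins_le {l ρ B : ℕ} (hB : 1 ≤ B) (hsun : Sun k q P l ρ B)
    {𝓕 : Finset (Finset (Vx k q))} (h𝓕 : Closed P l ρ 𝓕) :
    (mins 𝓕).card ≤ (l + 1) * B ^ l := by
  have hmaps : ∀ R ∈ mins 𝓕, R.card ∈ range (l + 1) := by
    intro R hR
    have := (h𝓕.term R (mem_filter.mp hR).1).1
    rw [mem_range]
    omega
  rw [card_eq_sum_card_fiberwise hmaps]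
  calc ∑ i ∈ range (l + 1), ((mins 𝓕).filter (fun R => R.card = i)).card
      ≤ ∑ i ∈ range (l + 1), B ^ l := by
        apply sum_le_sum
        intro i hi
        rw [mem_range] at hi
        exact (card_mins hsun h𝓕 i).trans (Nat.pow_le_pow_right hB (by omega))
    _ = (l + 1) * B ^ l := by rw [sum_const, card_range, smul_eq_mul]

theorem Closed.inter {l ρ : ℕ} {𝓕 𝓖 : Finset (Finset (Vx k q))}
    (h𝓕 : Closed P l ρ 𝓕) (h𝓖 : Closed P l ρ 𝓖) : Closed P l ρ (𝓕 ∩ 𝓖) where
  term R hR := h𝓕.term R (mem_inter.mp hR).1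
  up S hS R hR hSR := by
    rw [mem_inter] at hS ⊢
    exact ⟨h𝓕.up S hS.1 R hR hSR, h𝓖.up S hS.2 R hR hSR⟩
  cl K hK hc := by
    rw [mem_inter]
    exact ⟨h𝓕.cl K hK ((card_le_card (fail_anti inter_subset_left K)).trans hc),
      h𝓖.cl K hK ((card_le_card (fail_anti inter_subset_right K)).trans hc)⟩

/-- the transversals through `R` -/
def thru (R : Finset (Vx k q)) : Finset (Fin k → Fin q) :=
  univ.filter (fun s => ∀ a ∈ R, s a.1 = a.2)

theorem mem_thru {R : Finset (Vx k q)} {s : Fin k → Fin q} :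
    s ∈ thru R ↔ ∀ a ∈ R, s a.1 = a.2 := by
  simp [thru]

/-- the number of transversals through `R` -/
theorem thru_card (R : Finset (Vx k q)) : q ^ R.card * (thru R).card ≤ q ^ k := by
  classical
  induction R using Finset.induction_on with
  | empty =>
      rw [card_empty, pow_zero, Nat.one_mul]
      calc (thru (∅ : Finset (Vx k q))).card ≤ (univ : Finset (Fin k → Fin q)).card :=
            card_le_univ _
        _ = q ^ k := by simp
  | insert a R ha ih =>
      rw [card_insert_of_notMem ha]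
      -- if `a` is in the group of a member the set is empty
      by_cases hgr : ∃ b ∈ R, b.1 = a.1
      · obtain ⟨b, hb, hba⟩ := hgr
        have h0 : thru (insert a R) = ∅ := by
          rw [eq_empty_iff_forall_notMem]
          intro s hs
          rw [mem_thru] at hs
          have h1 := hs a (mem_insert_self a R)
          have h2 := hs b (mem_insert_of_mem hb)
          rw [hba, h1] at h2
          have h3 : b = a := Prod.ext hba h2.symm
          rw [h3] at hb
          exact ha hb
        rw [h0, card_empty, Nat.mul_zero]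
        exact Nat.zero_le _
      · push Not at hgr
        -- `q` disjoint copies inside `thru R`
        have hinj : q * (thru (insert a R)).card ≤ (thru R).card := by
          have h1 : ((univ : Finset (Fin q)) ×ˢ thru (insert a R)).card ≤ (thru R).card := by
            apply card_le_card_of_injOn (fun p => Function.update p.2 a.1 p.1)
            · intro p hp
              rw [mem_coe, mem_product] at hp
              have h2 := mem_thru.mp hp.2
              rw [mem_coe, mem_thru]
              intro b hb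
              change Function.update p.2 a.1 p.1 b.1 = b.2
              rw [Function.update_of_ne (hgr b hb)]
              exact h2 b (mem_insert_of_mem hb)
            · intro p hp p' hp' h
              rw [mem_coe, mem_product] at hp hp'
              have h2 := mem_thru.mp hp.2 a (mem_insert_self a R)
              have h3 := mem_thru.mp hp'.2 a (mem_insert_self a R)
              simp only at h
              have h4 : p.1 = p'.1 := by
                have := congrFun h a.1
                simpa using this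
              refine Prod.ext h4 ?_
              funext i
              by_cases hi : i = a.1
              · rw [hi, h2, h3]
              · have := congrFun h i
                rwa [Function.update_of_ne hi, Function.update_of_ne hi] at this
          rwa [card_product, card_univ, Fintype.card_fin] at h1
        calc q ^ (R.card + 1) * (thru (insert a R)).card
            = q ^ R.card * (q * (thru (insert a R)).card) := by rw [pow_succ]; ring
          _ ≤ q ^ R.card * (thru R).card := Nat.mul_le_mul_left _ hinj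
          _ ≤ q ^ k := ih

/-- a clique with at least two vertices inside the clique of a transversal -/
theorem thru_of_px {l : ℕ} {R : Finset (Vx k q)} (hR : Term l R) (h2 : 2 ≤ R.card)
    {s : Fin k → Fin q} (h : ∀ e ∈ kedge R, px s e = true) : s ∈ thru R := by
  rw [mem_thru]
  intro a ha
  obtain ⟨b, hb, hba⟩ := exists_mem_ne (show 1 < R.card by omega) a
  have hne : a.1 ≠ b.1 := fun h' => hba (hR.2 a ha b hb h').symm
  rcases lt_or_gt_of_ne hne with h' | h'
  · have h3 := h ⟨(a, b), h'⟩ (mem_kedge.mpr ⟨ha, hb⟩)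
    simp only [px, decide_eq_true_eq] at h3
    exact h3.1
  · have h3 := h ⟨(b, a), h'⟩ (mem_kedge.mpr ⟨hb, ha⟩)
    simp only [px, decide_eq_true_eq] at h3
    exact h3.2

theorem px_of_thru {R : Finset (Vx k q)} {s : Fin k → Fin q} (h : s ∈ thru R) :
    ∀ e ∈ kedge R, px s e = true := by
  intro e he
  rw [mem_thru] at h
  rw [mem_kedge] at he
  simp only [px, decide_eq_true_eq]
  exact ⟨h _ he.1, h _ he.2⟩

theorem term_of_thru {l : ℕ} {R : Finset (Vx k q)} {s : Fin k → Fin q} (h : s ∈ thru R)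
    (hl : R.card ≤ l) : Term l R := by
  refine ⟨hl, fun a ha b hb hab => ?_⟩
  rw [mem_thru] at h
  exact Prod.ext hab (by rw [← h a ha, ← h b hb, hab])

/-- a closed family with a member without edges contains the empty term -/
theorem empty_mem_of_small {l ρ : ℕ} {𝓕 : Finset (Finset (Vx k q))} (h𝓕 : Closed P l ρ 𝓕)
    {R : Finset (Vx k q)} (hR : R ∈ 𝓕) (h1 : R.card ≤ 1) : ∅ ∈ 𝓕 := by
  apply h𝓕.cl
  · exact ⟨by simp, fun a ha => absurd ha (notMem_empty a)⟩
  · have h2 : fail P 𝓕 ∅ = ∅ := by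
      rw [eq_empty_iff_forall_notMem]
      intro c hc
      rw [mem_fail] at hc
      apply hc R hR (empty_subset _)
      rw [kedge_of_card_le_one h1]
      intro e he
      exact absurd (mem_sdiff.mp he).1 (notMem_empty e)
    rw [h2, card_empty]
    exact Nat.zero_le _

theorem min_thru {l ρ : ℕ} {𝓕 : Finset (Finset (Vx k q))} (h𝓕 : Closed P l ρ 𝓕)
    {s : Fin k → Fin q} (h : ev 𝓕 (px s)) : ∃ R ∈ mins 𝓕, s ∈ thru R := by
  obtain ⟨R', hR', hw⟩ := h
  obtain ⟨R, hR, hRR⟩ := exists_min 𝓕 R' hR'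
  have hRm := mem_filter.mp hR
  by_cases h1 : R.card ≤ 1
  · have h0 := empty_mem_of_small h𝓕 hRm.1 h1
    have h2 := hRm.2 ∅ h0 (empty_subset _)
    refine ⟨R, hR, ?_⟩
    rw [← h2, mem_thru]
    intro a ha
    exact absurd ha (notMem_empty a)
  · exact ⟨R, hR, thru_of_px (h𝓕.term R hRm.1) (by omega)
      (fun e he => hw e (kedge_mono hRR he))⟩

/-- the error of the meet -/
theorem meet_err {l ρ : ℕ} {𝓕 𝓖 : Finset (Finset (Vx k q))}
    (h𝓕 : Closed P l ρ 𝓕) (h𝓖 : Closed P l ρ 𝓖) (s : Fin k → Fin q)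
    (h1 : ev 𝓕 (px s)) (h2 : ev 𝓖 (px s)) (h3 : ¬ ev (𝓕 ∩ 𝓖) (px s)) :
    ∃ R ∈ mins 𝓕, ∃ S ∈ mins 𝓖, l + 1 ≤ (R ∪ S).card ∧ s ∈ thru (R ∪ S) := by
  obtain ⟨R, hR, hsR⟩ := min_thru h𝓕 h1
  obtain ⟨S, hS, hsS⟩ := min_thru h𝓖 h2
  have hU : s ∈ thru (R ∪ S) := by
    rw [mem_thru] at hsR hsS ⊢
    intro a ha
    rcases mem_union.mp ha with h | h
    · exact hsR a h
    · exact hsS a h
  refine ⟨R, hR, S, hS, ?_, hU⟩
  by_contra hcon
  push Not at hcon
  have ht : Term l (R ∪ S) := term_of_thru hU (by omega)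
  apply h3
  refine ⟨R ∪ S, mem_inter.mpr ⟨?_, ?_⟩, px_of_thru hU⟩
  · exact h𝓕.up R (mem_filter.mp hR).1 _ ht subset_union_left
  · exact h𝓖.up S (mem_filter.mp hS).1 _ ht subset_union_right

open Classical in
theorem meet_count {l ρ B : ℕ} (hq : 1 ≤ q) (hB : 1 ≤ B) (hsun : Sun k q P l ρ B)
    {𝓕 𝓖 : Finset (Finset (Vx k q))} (h𝓕 : Closed P l ρ 𝓕) (h𝓖 : Closed P l ρ 𝓖) :
    q ^ (l + 1) * (univ.filter (fun s : Fin k → Fin q =>
      (ev 𝓕 (px s) ∧ ev 𝓖 (px s)) ∧ ¬ ev (𝓕 ∩ 𝓖) (px s))).card ≤
      (l + 1) ^ 2 * B ^ (2 * l) * q ^ k := by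
  have hsub : univ.filter (fun s : Fin k → Fin q =>
      (ev 𝓕 (px s) ∧ ev 𝓖 (px s)) ∧ ¬ ev (𝓕 ∩ 𝓖) (px s)) ⊆
      ((mins 𝓕 ×ˢ mins 𝓖).filter (fun p => l + 1 ≤ (p.1 ∪ p.2).card)).biUnion
        (fun p => thru (p.1 ∪ p.2)) := by
    intro s hs
    rw [mem_filter] at hs
    obtain ⟨_, ⟨h1, h2⟩, h3⟩ := hs
    obtain ⟨R, hR, S, hS, hc, hs⟩ := meet_err h𝓕 h𝓖 s h1 h2 h3
    exact mem_biUnion.mpr ⟨(R, S), mem_filter.mpr ⟨mem_product.mpr ⟨hR, hS⟩, hc⟩, hs⟩
  have h1 := (card_le_card hsub).trans card_biUnion_le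
  calc q ^ (l + 1) * _ ≤ q ^ (l + 1) * ∑ p ∈ (mins 𝓕 ×ˢ mins 𝓖).filter
        (fun p => l + 1 ≤ (p.1 ∪ p.2).card), (thru (p.1 ∪ p.2)).card :=
        Nat.mul_le_mul_left _ h1
    _ = ∑ p ∈ (mins 𝓕 ×ˢ mins 𝓖).filter (fun p => l + 1 ≤ (p.1 ∪ p.2).card),
        q ^ (l + 1) * (thru (p.1 ∪ p.2)).card := by rw [mul_sum]
    _ ≤ ∑ p ∈ (mins 𝓕 ×ˢ mins 𝓖).filter (fun p => l + 1 ≤ (p.1 ∪ p.2).card), q ^ k := by
        apply sum_le_sum
        intro p hp
        rw [mem_filter] at hp
        exact (Nat.mul_le_mul_right _ (Nat.pow_le_pow_right hq hp.2)).trans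
          (thru_card (p.1 ∪ p.2))
    _ ≤ ∑ p ∈ mins 𝓕 ×ˢ mins 𝓖, q ^ k :=
        sum_le_sum_of_subset (filter_subset _ _)
    _ = (mins 𝓕).card * (mins 𝓖).card * q ^ k := by
        rw [sum_const, card_product, smul_eq_mul]
    _ ≤ ((l + 1) * B ^ l) * ((l + 1) * B ^ l) * q ^ k := by
        apply Nat.mul_le_mul_right
        exact Nat.mul_le_mul (card_mins_le hB hsun h𝓕) (card_mins_le hB hsun h𝓖)
    _ = (l + 1) ^ 2 * B ^ (2 * l) * q ^ k := by
        rw [two_mul, pow_add]
        ring

open Classical in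
/-- closure with a small error -/
theorem exists_closed {l : ℕ} (ρ n : ℕ) :
    ∀ 𝓕 : Finset (Finset (Vx k q)), (∀ R ∈ 𝓕, Term l R) →
      (terms k q l).card ≤ 𝓕.card + n →
      ∃ 𝓖, Closed P l ρ 𝓖 ∧ 𝓕 ⊆ 𝓖 ∧
        (univ.filter (fun c : Ed k q → Fin P =>
          ev 𝓖 (py c) ∧ ¬ ev 𝓕 (py c))).card ≤ n * ρ := by
  induction n with
  | zero =>
      intro 𝓕 h𝓕 hc
      have hsub : 𝓕 ⊆ terms k q l := fun R hR => mem_filter.mpr ⟨mem_univ _, h𝓕 R hR⟩
      have heq : 𝓕 = terms k q l := eq_of_subset_of_card_le hsub (by omega)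
      refine ⟨𝓕, ⟨h𝓕, ?_, ?_⟩, Subset.rfl, ?_⟩
      · intro S _ R hR _
        rw [heq]
        exact mem_filter.mpr ⟨mem_univ _, hR⟩
      · intro R hR _
        rw [heq]
        exact mem_filter.mpr ⟨mem_univ _, hR⟩
      · simp
  | succ n ih =>
      intro 𝓕 h𝓕 hc
      by_cases hcl : Closed P l ρ 𝓕
      · exact ⟨𝓕, hcl, Subset.rfl, by simp⟩
      · -- a term to add
        have hadd : ∃ R, Term l R ∧ R ∉ 𝓕 ∧
            (univ.filter (fun c : Ed k q → Fin P =>
              (∀ e ∈ kedge R, py c e = true) ∧ ¬ ev 𝓕 (py c))).card ≤ ρ := by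
          by_contra hcon
          push Not at hcon
          apply hcl
          refine ⟨h𝓕, ?_, ?_⟩
          · intro S hS R hR hSR
            by_contra hn
            have h1 := hcon R hR hn
            rw [filter_false_of_mem] at h1
            · simp at h1
            · rintro c _ ⟨h2, h3⟩
              exact h3 ⟨S, hS, fun e he => h2 e (kedge_mono hSR he)⟩
          · intro K hK hf
            by_contra hn
            have h1 := hcon K hK hn
            refine absurd (lt_of_lt_of_le h1 (le_trans (card_le_card ?_) hf)) (lt_irrefl _)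
            intro c hc
            rw [mem_filter] at hc
            rw [mem_fail]
            refine fun R hR hKR h3 => hc.2.2 ⟨R, hR, fun e he => ?_⟩
            by_cases heK : e ∈ kedge K
            · exact hc.2.1 e heK
            · exact h3 e (mem_sdiff.mpr ⟨he, heK⟩)
        obtain ⟨R, hR, hRn, hRe⟩ := hadd
        obtain ⟨𝓖, h1, h2, h3⟩ := ih (insert R 𝓕) (by
          intro S hS
          rcases mem_insert.mp hS with rfl | h
          · exact hR
          · exact h𝓕 S h) (by
          rw [card_insert_of_notMem hRn]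
          omega)
        refine ⟨𝓖, h1, (subset_insert _ _).trans h2, ?_⟩
        have hsub : univ.filter (fun c : Ed k q → Fin P =>
            ev 𝓖 (py c) ∧ ¬ ev 𝓕 (py c)) ⊆
            univ.filter (fun c : Ed k q → Fin P =>
              ev 𝓖 (py c) ∧ ¬ ev (insert R 𝓕) (py c)) ∪
            univ.filter (fun c : Ed k q → Fin P =>
              (∀ e ∈ kedge R, py c e = true) ∧ ¬ ev 𝓕 (py c)) := by
          intro c hc
          rw [mem_filter] at hc
          rw [mem_union, mem_filter, mem_filter]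
          by_cases h4 : ev (insert R 𝓕) (py c)
          · right
            refine ⟨mem_univ _, ?_, hc.2.2⟩
            obtain ⟨S, hS, hSc⟩ := h4
            rcases mem_insert.mp hS with rfl | h
            · exact hSc
            · exact absurd ⟨S, h, hSc⟩ hc.2.2
          · left
            exact ⟨mem_univ _, hc.2.1, h4⟩
        calc _ ≤ _ := card_le_card hsub
          _ ≤ _ + _ := card_union_le _ _
          _ ≤ n * ρ + ρ := Nat.add_le_add h3 hRe
          _ = (n + 1) * ρ := by ring

/-- the number of terms -/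
theorem card_terms (k q l : ℕ) : (terms k q l).card ≤ (k * q + 1) ^ l := by
  classical
  calc (terms k q l).card
      ≤ (univ : Finset (Fin l → Option (Vx k q))).card := by
        apply card_le_card_of_injOn (fun R (j : Fin l) => R.toList[(j : ℕ)]?)
          (fun _ _ => mem_coe.mpr (mem_univ _))
        intro R hR S hS h
        have hR' := (mem_filter.mp (mem_coe.mp hR)).2.1
        have hS' := (mem_filter.mp (mem_coe.mp hS)).2.1
        have hl : R.toList = S.toList := by
          apply List.ext_getElem?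
          intro i
          by_cases hi : i < l
          · exact congrFun h ⟨i, hi⟩
          · rw [List.getElem?_eq_none, List.getElem?_eq_none]
            · rw [length_toList]
              omega
            · rw [length_toList]
              omega
        rw [← toList_toFinset R, hl, toList_toFinset S]
    _ = (k * q + 1) ^ l := by
        rw [card_univ, Fintype.card_fun, Fintype.card_option, Fintype.card_prod,
          Fintype.card_fin, Fintype.card_fin, Fintype.card_fin]

end Pool.Agent.DN
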