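import Mathlib

/-! The choice of the parameters. -/

namespace Pool.Agent.DN

open Filter Asymptotics

theorem growth3 (d : ℝ) (hd : 0 < d) (C : ℝ) (m : ℕ) :
    ∃ X : ℝ, ∀ x : ℝ, X ≤ x → C * x ^ m ≤ (2 : ℝ) ^ (d * x) := by
  have hb : 0 < d * Real.log 2 := mul_pos hd (Real.log_pos (by norm_num))
  have h1 := (isLittleO_pow_exp_pos_mul_atTop (k := m) hb)
  have h2 := h1.bound (c := 1 / (|C| + 1)) (by positivity)
  obtain ⟨X, hX⟩ := Filter.eventually_atTop.1 (h2.and (eventually_ge_atTop (0 : ℝ)))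
  refine ⟨X, fun x hx => ?_⟩
  obtain ⟨h3, h0⟩ := hX x hx
  have h4 : (2 : ℝ) ^ (d * x) = Real.exp (d * Real.log 2 * x) := by
    rw [Real.rpow_def_of_pos (by norm_num)]
    congr 1
    ring
  rw [h4]
  rw [Real.norm_of_nonneg (by positivity), Real.norm_of_nonneg (Real.exp_pos _).le] at h3
  have hC : 0 < |C| + 1 := by positivity
  have h5 : (|C| + 1) * x ^ m ≤ Real.exp (d * Real.log 2 * x) := by
    rw [one_div, inv_mul_eq_div, le_div_iff₀ hC] at h3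
    linarith
  have h6 : C * x ^ m ≤ (|C| + 1) * x ^ m :=
    mul_le_mul_of_nonneg_right (by linarith [le_abs_self C]) (by positivity)
  linarith

theorem two_rpow_le {a b : ℝ} (h : a ≤ b) : (2 : ℝ) ^ a ≤ (2 : ℝ) ^ b :=
  Real.rpow_le_rpow_of_exponent_le (by norm_num) h

/-- the number of vertices -/
theorem num_sum {eps x L J k lam Q : ℝ} {m : ℕ} (h : 0 < eps) (hx1 : 1 ≤ x)
    (g1 : 64 * x ^ 3 ≤ (2 : ℝ) ^ (eps / 100 * x)) (h1 : eps ≤ 1)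
    (hk0 : 0 ≤ k) (hQ0 : 0 ≤ Q) (hl0 : 0 ≤ lam)
    (hL1 : L ≤ (2 : ℝ) ^ ((1 - eps / 4) * x)) (hJ1 : J ≤ (2 : ℝ) ^ ((1 - eps / 3) * x))
    (hq : Q ≤ (2 : ℝ) ^ (eps / 8 * x)) (hlam : lam ≤ 2 * x) (hkm : (m : ℝ) = k)
    (hK : k + 1 ≤ x - 3 * Real.logb 2 x - 6) (hkx : k + 1 ≤ x) :
    L * k * Q + J * (k * Q) ^ 2 + J + k ^ 2 * lam
      + (k + 1) * (4 * (k + 1) ^ 2 * (2 : ℝ) ^ (m + 1)) ≤ (2 : ℝ) ^ x := by
  have hx0 : 0 ≤ x := by linarith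
  have hxx2 : x ≤ x ^ 2 := by
    have := mul_le_mul_of_nonneg_right hx1 hx0
    linarith
  have hx23 : x ^ 2 ≤ x ^ 3 := by
    have := mul_le_mul_of_nonneg_right hx1 (show (0 : ℝ) ≤ x ^ 2 by positivity)
    linarith
  have hp : ∀ a b : ℝ, a ≤ b → (2 : ℝ) ^ (a * x) ≤ (2 : ℝ) ^ (b * x) := fun a b hab =>
    two_rpow_le (mul_le_mul_of_nonneg_right hab hx0)
  have hpos : ∀ a : ℝ, (0 : ℝ) < (2 : ℝ) ^ a := fun a => Real.rpow_pos_of_pos (by norm_num) a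
  have hkx' : k ≤ x := by linarith
  -- part a
  have ha : L * k * Q ≤ (2 : ℝ) ^ x / 8 := by
    have a1 : L * k * Q ≤ (2 : ℝ) ^ ((1 - eps / 4) * x) * x * (2 : ℝ) ^ (eps / 8 * x) :=
      mul_le_mul (mul_le_mul hL1 hkx' hk0 (hpos _).le) hq hQ0
        (mul_nonneg (hpos _).le hx0)
    have a2 : (2 : ℝ) ^ x = (2 : ℝ) ^ ((1 - eps / 4) * x) * (2 : ℝ) ^ (eps / 8 * x)
        * (2 : ℝ) ^ (eps / 8 * x) := by
      rw [← Real.rpow_add (by norm_num), ← Real.rpow_add (by norm_num)]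
      congr 1
      ring
    have a3 := hp (eps / 100) (eps / 8) (by linarith)
    have a4 : 8 * x ≤ (2 : ℝ) ^ (eps / 8 * x) := by linarith
    have a5 : (0 : ℝ) ≤ (2 : ℝ) ^ ((1 - eps / 4) * x) * (2 : ℝ) ^ (eps / 8 * x) :=
      mul_nonneg (hpos _).le (hpos _).le
    have a6 := mul_le_mul_of_nonneg_left a4 a5
    rw [a2]
    linarith
  have hb : J * (k * Q) ^ 2 ≤ (2 : ℝ) ^ x / 8 := by
    have a1 : J * (k * Q) ^ 2
        ≤ (2 : ℝ) ^ ((1 - eps / 3) * x) * (x * (2 : ℝ) ^ (eps / 8 * x)) ^ 2 := by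
      have b1 : k * Q ≤ x * (2 : ℝ) ^ (eps / 8 * x) := mul_le_mul hkx' hq hQ0 hx0
      have b2 : (k * Q) ^ 2 ≤ (x * (2 : ℝ) ^ (eps / 8 * x)) ^ 2 :=
        pow_le_pow_left₀ (mul_nonneg hk0 hQ0) b1 2
      exact mul_le_mul hJ1 b2 (by positivity) (hpos _).le
    have a2 : (2 : ℝ) ^ x = (2 : ℝ) ^ ((1 - eps / 3) * x) * ((2 : ℝ) ^ (eps / 8 * x)) ^ 2
        * (2 : ℝ) ^ (eps / 12 * x) := by
      rw [← Real.rpow_natCast ((2 : ℝ) ^ (eps / 8 * x)) 2,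
        ← Real.rpow_mul (by norm_num), ← Real.rpow_add (by norm_num),
        ← Real.rpow_add (by norm_num)]
      congr 1
      push_cast
      ring
    have a3 := hp (eps / 100) (eps / 12) (by linarith)
    have a4 : 8 * x ^ 2 ≤ (2 : ℝ) ^ (eps / 12 * x) := by linarith
    have a5 : (0 : ℝ) ≤ (2 : ℝ) ^ ((1 - eps / 3) * x) * ((2 : ℝ) ^ (eps / 8 * x)) ^ 2 :=
      mul_nonneg (hpos _).le (by positivity)
    have a6 := mul_le_mul_of_nonneg_left a4 a5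
    rw [a2]
    linarith
  have hc : J ≤ (2 : ℝ) ^ x / 8 := by
    have a2 : (2 : ℝ) ^ x = (2 : ℝ) ^ ((1 - eps / 3) * x) * (2 : ℝ) ^ (eps / 3 * x) := by
      rw [← Real.rpow_add (by norm_num)]
      congr 1
      ring
    have a3 := hp (eps / 100) (eps / 3) (by linarith)
    have a4 : 8 ≤ (2 : ℝ) ^ (eps / 3 * x) := by linarith
    have a6 := mul_le_mul_of_nonneg_left a4 (hpos ((1 - eps / 3) * x)).le
    rw [a2]
    linarith
  have hd : k ^ 2 * lam ≤ (2 : ℝ) ^ x / 32 := by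
    have a1 : k ^ 2 * lam ≤ x ^ 2 * (2 * x) :=
      mul_le_mul (pow_le_pow_left₀ hk0 hkx' 2) hlam hl0 (by positivity)
    have a3 := hp (eps / 100) 1 (by linarith)
    rw [one_mul] at a3
    linarith
  have he : (k + 1) * (4 * (k + 1) ^ 2 * (2 : ℝ) ^ (m + 1)) ≤ (2 : ℝ) ^ x / 16 := by
    have e3 : (2 : ℝ) ^ (3 * Real.logb 2 x) = x ^ 3 := by
      rw [mul_comm, Real.rpow_mul (by norm_num),
        Real.rpow_logb (b := 2) (x := x) (by norm_num) (by norm_num) (by linarith)]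
      norm_cast
    have e4 : (2 : ℝ) ^ (6 : ℝ) = 64 := by norm_num
    have e2 : (2 : ℝ) ^ (x - 3 * Real.logb 2 x - 6) = (2 : ℝ) ^ x / (x ^ 3 * 64) := by
      rw [show x - 3 * Real.logb 2 x - 6 = x - (3 * Real.logb 2 x + 6) by ring,
        Real.rpow_sub (by norm_num), Real.rpow_add (by norm_num), e3, e4]
    have e1 : (2 : ℝ) ^ (m + 1) ≤ (2 : ℝ) ^ x / (x ^ 3 * 64) := by
      rw [← e2, ← Real.rpow_natCast]
      apply two_rpow_le
      push_cast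
      linarith
    have hk1 : (0 : ℝ) ≤ k + 1 := by linarith
    have e5 : 4 * (k + 1) ^ 2 * (2 : ℝ) ^ (m + 1) ≤ 4 * x ^ 2 * ((2 : ℝ) ^ x / (x ^ 3 * 64)) := by
      apply mul_le_mul _ e1 (by positivity) (by positivity)
      have := pow_le_pow_left₀ hk1 hkx 2
      linarith
    have e6 : (k + 1) * (4 * (k + 1) ^ 2 * (2 : ℝ) ^ (m + 1))
        ≤ x * (4 * x ^ 2 * ((2 : ℝ) ^ x / (x ^ 3 * 64))) :=
      mul_le_mul hkx e5 (by positivity) hx0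
    have e7 : x * (4 * x ^ 2 * ((2 : ℝ) ^ x / (x ^ 3 * 64))) = (2 : ℝ) ^ x / 16 := by
      have : x ≠ 0 := by linarith
      field_simp
      ring
    linarith
  have := hpos x
  linarith

/-- the number of windows -/
theorem num_windows {eps x L J c : ℝ} (h1 : eps ≤ 1) (hx1 : 1 ≤ x)
    (g2 : 608 ≤ (2 : ℝ) ^ (eps / 4 * x)) (hc : c ≤ eps / 6)
    (hL2 : (2 : ℝ) ^ ((1 - eps / 4) * x) < L + 1) (hJ2 : (2 : ℝ) ^ ((1 - eps / 3) * x) < J + 1) :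
    4 * ((36 * (2 : ℝ) ^ ((2 - eps) * x) + 2) * (2 : ℝ) ^ (c * x)) ≤ L * J := by
  have hx0 : 0 ≤ x := by linarith
  have hp : ∀ a b : ℝ, a ≤ b → (2 : ℝ) ^ (a * x) ≤ (2 : ℝ) ^ (b * x) := fun a b hab =>
    two_rpow_le (mul_le_mul_of_nonneg_right hab hx0)
  have hpos : ∀ a : ℝ, (0 : ℝ) < (2 : ℝ) ^ a := fun a => Real.rpow_pos_of_pos (by norm_num) a
  have hN1 : (1 : ℝ) ≤ (2 : ℝ) ^ ((2 - eps) * x) :=
    Real.one_le_rpow (by norm_num) (mul_nonneg (by linarith) hx0)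
  have hLone := hp (eps / 4) (1 - eps / 4) (by linarith)
  have hJone := hp (eps / 4) (1 - eps / 3) (by linarith)
  have hL3 : (2 : ℝ) ^ ((1 - eps / 4) * x) / 2 ≤ L := by linarith
  have hJ3 : (2 : ℝ) ^ ((1 - eps / 3) * x) / 2 ≤ J := by linarith
  have hLJ : ((2 : ℝ) ^ ((1 - eps / 4) * x) / 2) * ((2 : ℝ) ^ ((1 - eps / 3) * x) / 2)
      ≤ L * J := by
    apply mul_le_mul hL3 hJ3
    · have := hpos ((1 - eps / 3) * x)
      linarith
    · have := hpos ((1 - eps / 4) * x)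
      linarith
  have hsplit : (2 : ℝ) ^ ((1 - eps / 4) * x) * (2 : ℝ) ^ ((1 - eps / 3) * x)
      = (2 : ℝ) ^ ((2 - eps) * x) * ((2 : ℝ) ^ (eps / 4 * x) * (2 : ℝ) ^ (eps / 6 * x)) := by
    rw [← Real.rpow_add (by norm_num), ← Real.rpow_add (by norm_num),
      ← Real.rpow_add (by norm_num)]
    congr 1
    ring
  have hcx := hp c (eps / 6) hc
  have h7 : 608 * (2 : ℝ) ^ (c * x) ≤ (2 : ℝ) ^ (eps / 4 * x) * (2 : ℝ) ^ (eps / 6 * x) :=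
    mul_le_mul g2 hcx (hpos _).le (hpos _).le
  have h8 := mul_le_mul_of_nonneg_left h7 (hpos ((2 - eps) * x)).le
  have h9 : (36 * (2 : ℝ) ^ ((2 - eps) * x) + 2) * (2 : ℝ) ^ (c * x)
      ≤ (38 * (2 : ℝ) ^ ((2 - eps) * x)) * (2 : ℝ) ^ (c * x) :=
    mul_le_mul_of_nonneg_right (by linarith) (hpos _).le
  have h10 : ((2 : ℝ) ^ ((1 - eps / 4) * x) / 2) * ((2 : ℝ) ^ ((1 - eps / 3) * x) / 2)
      = (2 : ℝ) ^ ((1 - eps / 4) * x) * (2 : ℝ) ^ ((1 - eps / 3) * x) / 4 := by ring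
  rw [h10, hsplit] at hLJ
  linarith

/-- the size -/
theorem num_size {eps x K c y : ℝ} (h : 0 < eps) (hx1 : 1 ≤ x) (hc : 0 < c)
    (hcK : 100 ≤ c * K) (hK2 : 2 ≤ K) (hy : 5 / 2 * (c * K * x) ≤ y) :
    16 * (((2 : ℝ) ^ (c * K * x) + 9 * (2 : ℝ) ^ ((2 - eps) * x) + 1) * (2 : ℝ) ^ (c * x))
      ≤ (2 : ℝ) ^ y := by
  have hx0 : 0 ≤ x := by linarith
  have hpos : ∀ a : ℝ, (0 : ℝ) < (2 : ℝ) ^ a := fun a => Real.rpow_pos_of_pos (by norm_num) a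
  have h100 : 100 * x ≤ c * K * x := mul_le_mul_of_nonneg_right hcK hx0
  have hexx : 0 ≤ eps * x := by positivity
  have hA1 : (2 : ℝ) ^ ((2 - eps) * x) ≤ (2 : ℝ) ^ (c * K * x) := two_rpow_le (by linarith)
  have hA2 : (176 : ℝ) ≤ (2 : ℝ) ^ (c * K * x) := by
    have h1 : (2 : ℝ) ^ (8 : ℝ) ≤ (2 : ℝ) ^ (c * K * x) := two_rpow_le (by linarith)
    have h2 : (2 : ℝ) ^ (8 : ℝ) = 256 := by norm_num
    linarith
  have hB : (2 : ℝ) ^ (c * x) ≤ (2 : ℝ) ^ (1 / 2 * (c * K * x)) := by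
    apply two_rpow_le
    have := mul_le_mul_of_nonneg_left hK2 (show 0 ≤ c * x by positivity)
    linarith
  have h1 : (2 : ℝ) ^ (c * K * x) * (2 : ℝ) ^ (c * K * x) * (2 : ℝ) ^ (1 / 2 * (c * K * x))
      ≤ (2 : ℝ) ^ y := by
    rw [← Real.rpow_add (by norm_num), ← Real.rpow_add (by norm_num)]
    apply two_rpow_le
    linarith
  have h2 : 16 * ((2 : ℝ) ^ (c * K * x) + 9 * (2 : ℝ) ^ ((2 - eps) * x) + 1)
      ≤ (2 : ℝ) ^ (c * K * x) * (2 : ℝ) ^ (c * K * x) := by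
    have h3 := mul_le_mul_of_nonneg_right hA2 (hpos (c * K * x)).le
    linarith
  have h4 := mul_le_mul h2 hB (hpos _).le (mul_nonneg (hpos _).le (hpos _).le)
  linarith

/-- the sunflower parameters and the number of blocks -/
theorem num_nat {eps x : ℝ} {g k l a : ℕ} (h : 0 < eps) (h1 : eps ≤ 1)
    (hg3 : eps * x / 48 ≤ (g : ℝ)) (hkx : (k : ℝ) ≤ x) (hk1 : 3999 ≤ k) (hgpos : 1 ≤ g)
    (hl1 : (l : ℝ) ≤ eps * k / 200) (ha : a = 8 * g / (k - 1) + 1)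
    (g3 : 28 * (g : ℝ) ^ 3 ≤ (2 : ℝ) ^ (1 / 2 * (g : ℝ))) :
    28 * g * l ^ 2 * (2 ^ a) ^ l ≤ 2 ^ g ∧ 4 * (g * k) ≤ a * (k * (k - 1) / 2) := by
  have hekx : eps * k ≤ eps * x := mul_le_mul_of_nonneg_left hkx h.le
  have ha1 : 8 * g ≤ a * (k - 1) := by
    have h1 := Nat.div_add_mod (8 * g) (k - 1)
    have h2 := Nat.mod_lt (8 * g) (show 0 < k - 1 by omega)
    rw [ha, add_mul, one_mul, mul_comm (8 * g / (k - 1))]
    omega
  constructor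
  · have ha2 : (a : ℝ) * l ≤ g / 2 := by
      have h1 : ((8 * g / (k - 1) : ℕ) : ℝ) ≤ ((8 * g : ℕ) : ℝ) / ((k - 1 : ℕ) : ℝ) :=
        Nat.cast_div_le
      have h2 : ((k - 1 : ℕ) : ℝ) = (k : ℝ) - 1 := by
        rw [Nat.cast_sub (by omega)]
        simp
      have h3 : (3999 : ℝ) ≤ k := by exact_mod_cast hk1
      have hg0 : (0 : ℝ) ≤ g := Nat.cast_nonneg g
      have h4 : ((8 * g : ℕ) : ℝ) / ((k - 1 : ℕ) : ℝ) ≤ 16 * g / k := by
        rw [h2]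
        push_cast
        rw [div_le_div_iff₀ (by linarith) (by linarith)]
        have := mul_le_mul_of_nonneg_left (show (k : ℝ) ≤ 2 * (k - 1) by linarith)
          (show (0 : ℝ) ≤ 8 * g by linarith)
        linarith
      have h5 : (a : ℝ) ≤ 16 * g / k + 1 := by
        rw [ha]
        push_cast
        push_cast at h1 h4
        linarith
      have h6 : (a : ℝ) * l ≤ (16 * g / k + 1) * (eps * k / 200) :=
        mul_le_mul h5 hl1 (Nat.cast_nonneg l) (by positivity)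
      have h7 : (16 * (g : ℝ) / k + 1) * (eps * k / 200)
          = 16 * (eps * g) / 200 + eps * k / 200 := by
        have : (k : ℝ) ≠ 0 := by linarith
        field_simp
      have h8 : eps * g ≤ 1 * g := mul_le_mul_of_nonneg_right (by linarith) hg0
      rw [h7] at h6
      linarith
    have hlg : (l : ℝ) ≤ g := by linarith
    have e1 : ((2 : ℝ) ^ a) ^ l ≤ (2 : ℝ) ^ (1 / 2 * (g : ℝ)) := by
      rw [← pow_mul, ← Real.rpow_natCast]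
      apply two_rpow_le
      push_cast
      linarith
    have e2 : (2 : ℝ) ^ g = (2 : ℝ) ^ (1 / 2 * (g : ℝ)) * (2 : ℝ) ^ (1 / 2 * (g : ℝ)) := by
      rw [← Real.rpow_natCast, ← Real.rpow_add (by norm_num)]
      congr 1
      ring
    have hp : (0 : ℝ) < (2 : ℝ) ^ (1 / 2 * (g : ℝ)) := Real.rpow_pos_of_pos (by norm_num) _
    have e3 : 28 * (g : ℝ) * (l : ℝ) ^ 2 ≤ 28 * (g : ℝ) ^ 3 := by
      have e4 : (l : ℝ) ^ 2 ≤ (g : ℝ) ^ 2 := pow_le_pow_left₀ (Nat.cast_nonneg l) hlg 2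
      have e5 := mul_le_mul_of_nonneg_left e4 (show (0 : ℝ) ≤ 28 * g by positivity)
      calc 28 * (g : ℝ) * (l : ℝ) ^ 2 ≤ 28 * g * (g : ℝ) ^ 2 := e5
        _ = 28 * (g : ℝ) ^ 3 := by ring
    have h1 : ((28 * g * l ^ 2 * (2 ^ a) ^ l : ℕ) : ℝ) ≤ ((2 ^ g : ℕ) : ℝ) := by
      push_cast
      rw [e2]
      exact mul_le_mul (le_trans e3 g3) e1 (by positivity) hp.le
    exact_mod_cast h1
  · have e1 : k * (k - 1) / 2 * 2 = k * (k - 1) := by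
      apply Nat.div_mul_cancel
      have := Nat.even_mul_pred_self k
      exact this.two_dvd
    have e3 : k * (8 * g) ≤ k * (a * (k - 1)) := Nat.mul_le_mul_left k ha1
    have e4 : a * (k * (k - 1) / 2) * 2 = k * (a * (k - 1)) := by
      rw [mul_assoc, e1]
      ring
    have e6 : k * (8 * g) = 8 * (g * k) := by ring
    omega

theorem numbers3_aux (eps : ℝ) (h : 0 < eps) (heps1 : eps ≤ 1) :
    ∃ c : ℝ, 0 < c ∧ ∃ K0 : ℕ, ∀ n K : ℕ, K0 ≤ K →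
      (K : ℝ) ≤ Real.logb 2 n - 3 * Real.logb 2 (Real.logb 2 n) - 6 →
      ∃ k l g P L J lam : ℕ, 2 ≤ n ∧ K = k + 1 ∧ 3 ≤ k ∧ 2 ≤ P ∧ 2 ≤ l ∧ k + 1 ≤ 2 ^ (3 * g) ∧
        28 * g * l ^ 2 * P ^ l ≤ 2 ^ g ∧
        4 * ((2 : ℝ) ^ (3 * g)) ^ k * (n : ℝ) ^ c ≤ (P : ℝ) ^ (k * (k - 1) / 2) ∧
        1 ≤ J ∧ L ≤ 2 ^ lam ∧
        L * k * 2 ^ (3 * g) + J * (k * 2 ^ (3 * g)) ^ 2 + J + k ^ 2 * lam
          + (k + 1) * (4 * (k + 1) ^ 2 * 2 ^ (k + 1)) ≤ n ∧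
        4 * ((36 * (n : ℝ) ^ (2 - eps) + 2) * (n : ℝ) ^ c) ≤ (L : ℝ) * J ∧
        16 * (((n : ℝ) ^ (c * K) + 9 * (n : ℝ) ^ (2 - eps) + 1) * (n : ℝ) ^ c)
          ≤ (2 : ℝ) ^ (g * l) := by
  obtain ⟨X1, hX1⟩ := growth3 (eps / 100) (by positivity) 64 3
  obtain ⟨X2, hX2⟩ := growth3 (eps / 4) (by positivity) 608 0
  obtain ⟨X3, hX3⟩ := growth3 (1 / 2) (by positivity) 28 3
  obtain ⟨K0, hK0⟩ := exists_nat_ge
    (max (max X1 X2) (max (X3 * (48 / eps)) (max (4000 / eps) (10000000 / eps ^ 2))))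
  refine ⟨eps ^ 2 / 100000, by positivity, K0, fun n K hK hK2 => ?_⟩
  have hKK0 : (K0 : ℝ) ≤ K := by exact_mod_cast hK
  have hx := le_trans hK0 hKK0
  obtain ⟨x, hxdef⟩ : ∃ x : ℝ, x = Real.logb 2 (n : ℝ) := ⟨_, rfl⟩
  rw [← hxdef] at hK2
  have hKnn : (0 : ℝ) ≤ K := Nat.cast_nonneg K
  have hn2 : 2 ≤ n := by
    by_contra hcon
    have h01 : x = 0 := by
      rw [hxdef]
      interval_cases n
      · simp
      · simp
    rw [h01] at hK2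
    simp at hK2
    linarith
  have hnpos : (0 : ℝ) < n := by
    have : (2 : ℝ) ≤ n := by exact_mod_cast hn2
    linarith
  have hnx : (n : ℝ) = (2 : ℝ) ^ x := by
    rw [hxdef, Real.rpow_logb (by norm_num) (by norm_num) hnpos]
  have hx1 : 1 ≤ x := by
    rw [hxdef]
    have h2n : (2 : ℝ) ≤ n := by exact_mod_cast hn2
    have := Real.logb_le_logb_of_le (b := 2) (by norm_num) (by norm_num) h2n
    rwa [Real.logb_self_eq_one (by norm_num)] at this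
  have hlog : 0 ≤ Real.logb 2 x := Real.logb_nonneg (by norm_num) hx1
  have hKx : (K : ℝ) ≤ x := by linarith
  have hxX1 : X1 ≤ x :=
    le_trans (le_trans (le_trans (le_max_left _ _) (le_max_left _ _)) hx) hKx
  have hxX2 : X2 ≤ x :=
    le_trans (le_trans (le_trans (le_max_right _ _) (le_max_left _ _)) hx) hKx
  have hxX3 : X3 * (48 / eps) ≤ x :=
    le_trans (le_trans (le_trans (le_max_left _ _) (le_max_right _ _)) hx) hKx
  have hK4 : 4000 / eps ≤ K :=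
    le_trans (le_trans (le_trans (le_max_left _ _) (le_max_right _ _)) (le_max_right _ _)) hx
  have hK5 : 10000000 / eps ^ 2 ≤ K :=
    le_trans (le_trans (le_trans (le_max_right _ _) (le_max_right _ _)) (le_max_right _ _)) hx
  have heK : 4000 ≤ eps * K := by
    rw [div_le_iff₀ h] at hK4
    linarith
  have heK2 : 10000000 ≤ eps ^ 2 * K := by
    rw [div_le_iff₀ (by positivity)] at hK5
    linarith
  have hexK : eps * K ≤ eps * x := mul_le_mul_of_nonneg_left hKx h.le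
  have hex : 4000 ≤ eps * x := le_trans heK hexK
  have heKle : eps * K ≤ K := by
    have := mul_le_mul_of_nonneg_right heps1 hKnn
    linarith
  have g1 := hX1 x hxX1
  have g2 := hX2 x hxX2
  rw [pow_zero, mul_one] at g2
  have hg48 : X3 ≤ eps * x / 48 := by
    have h9 := mul_le_mul_of_nonneg_left hxX3 h.le
    have h10 : eps * (X3 * (48 / eps)) = X3 * 48 := by field_simp
    linarith
  clear hX1 hX2 hxX1 hxX2 hxX3 hK4 hK5 hx hKK0 hK0 hK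
  -- the parameters
  obtain ⟨g, hg⟩ : ∃ g : ℕ, g = ⌊eps * x / 24⌋₊ := ⟨_, rfl⟩
  have hg1 : (g : ℝ) ≤ eps * x / 24 := by rw [hg]; exact Nat.floor_le (by positivity)
  have hg2 : eps * x / 24 < (g : ℝ) + 1 := by rw [hg]; exact Nat.lt_floor_add_one _
  have hg3 : eps * x / 48 ≤ (g : ℝ) := by linarith
  clear hg
  have hL0 : (0 : ℝ) ≤ (2 : ℝ) ^ ((1 - eps / 4) * x) := by positivity
  obtain ⟨L, hL⟩ : ∃ L : ℕ, L = ⌊(2 : ℝ) ^ ((1 - eps / 4) * x)⌋₊ := ⟨_, rfl⟩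
  have hL1 : (L : ℝ) ≤ (2 : ℝ) ^ ((1 - eps / 4) * x) := by rw [hL]; exact Nat.floor_le hL0
  have hL2 : (2 : ℝ) ^ ((1 - eps / 4) * x) < (L : ℝ) + 1 := by
    rw [hL]; exact Nat.lt_floor_add_one _
  clear hL hL0
  have hJ0 : (0 : ℝ) ≤ (2 : ℝ) ^ ((1 - eps / 3) * x) := by positivity
  obtain ⟨J, hJ⟩ : ∃ J : ℕ, J = ⌊(2 : ℝ) ^ ((1 - eps / 3) * x)⌋₊ := ⟨_, rfl⟩
  have hJ1 : (J : ℝ) ≤ (2 : ℝ) ^ ((1 - eps / 3) * x) := by rw [hJ]; exact Nat.floor_le hJ0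
  have hJ2 : (2 : ℝ) ^ ((1 - eps / 3) * x) < (J : ℝ) + 1 := by
    rw [hJ]; exact Nat.lt_floor_add_one _
  clear hJ hJ0
  obtain ⟨lam, hlam⟩ : ∃ lam : ℕ, lam = ⌈x⌉₊ := ⟨_, rfl⟩
  have hlam1 : x ≤ (lam : ℝ) := by rw [hlam]; exact Nat.le_ceil _
  have hlam2 : (lam : ℝ) < x + 1 := by rw [hlam]; exact Nat.ceil_lt_add_one (by linarith)
  clear hlam
  have hK40 : (4000 : ℝ) ≤ K := le_trans heK heKle
  have hKpos : 4000 ≤ K := by exact_mod_cast hK40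
  obtain ⟨k, hk⟩ : ∃ k : ℕ, K = k + 1 := ⟨K - 1, by omega⟩
  have hkK : (k : ℝ) + 1 = K := by rw [hk]; push_cast; ring
  have hkx : (k : ℝ) ≤ x := by linarith
  have hk0 : (0 : ℝ) ≤ k := Nat.cast_nonneg k
  have hek : eps * K / 2 ≤ eps * k := by
    have := mul_le_mul_of_nonneg_left (show (K : ℝ) / 2 ≤ k by linarith) h.le
    linarith
  obtain ⟨l, hl⟩ : ∃ l : ℕ, l = ⌊eps * k / 200⌋₊ := ⟨_, rfl⟩
  have hl1 : (l : ℝ) ≤ eps * k / 200 := by rw [hl]; exact Nat.floor_le (by positivity)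
  have hl2 : eps * k / 200 < (l : ℝ) + 1 := by rw [hl]; exact Nat.lt_floor_add_one _
  have hl3 : eps * K / 800 ≤ (l : ℝ) := by linarith
  clear hl
  obtain ⟨a, ha⟩ : ∃ a : ℕ, a = 8 * g / (k - 1) + 1 := ⟨_, rfl⟩
  have hk1 : 3999 ≤ k := by omega
  have hgpos : 1 ≤ g := by
    have : (1 : ℝ) ≤ g := by linarith
    exact_mod_cast this
  have g3 := hX3 (g : ℝ) (le_trans hg48 hg3)
  obtain ⟨hnat1, hnat2⟩ := num_nat h heps1 hg3 hkx hk1 hgpos hl1 ha g3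
  have hq : ((2 ^ (3 * g) : ℕ) : ℝ) ≤ (2 : ℝ) ^ (eps / 8 * x) := by
    push_cast
    rw [← Real.rpow_natCast]
    apply two_rpow_le
    push_cast
    linarith
  have hq2 : (2 : ℝ) ^ (eps / 16 * x) ≤ ((2 ^ (3 * g) : ℕ) : ℝ) := by
    push_cast
    rw [← Real.rpow_natCast]
    apply two_rpow_le
    push_cast
    linarith
  have hN : (n : ℝ) ^ (2 - eps) = (2 : ℝ) ^ ((2 - eps) * x) := by
    rw [hnx, ← Real.rpow_mul (by norm_num), mul_comm]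
  have hNc : (n : ℝ) ^ (eps ^ 2 / 100000) = (2 : ℝ) ^ (eps ^ 2 / 100000 * x) := by
    rw [hnx, ← Real.rpow_mul (by norm_num), mul_comm]
  have hNK : (n : ℝ) ^ (eps ^ 2 / 100000 * K) = (2 : ℝ) ^ (eps ^ 2 / 100000 * K * x) := by
    rw [hnx, ← Real.rpow_mul (by norm_num), mul_comm x]
  have hce : eps ^ 2 / 100000 ≤ eps / 6 := by
    have : eps * eps ≤ 1 * eps := mul_le_mul_of_nonneg_right heps1 h.le
    have h2 : eps ^ 2 = eps * eps := sq eps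
    linarith
  clear hxdef
  refine ⟨k, l, g, 2 ^ a, L, J, lam, hn2, hk, ?_, ?_, ?_, ?_, hnat1, ?_, ?_, ?_, ?_, ?_, ?_⟩
  · omega
  · rw [ha]
    calc 2 = 2 ^ 1 := by norm_num
      _ ≤ 2 ^ (8 * g / (k - 1) + 1) :=
        Nat.pow_le_pow_right (by norm_num) (Nat.le_add_left 1 _)
  · have : (2 : ℝ) ≤ l := by linarith
    exact_mod_cast this
  · have h1 : ((k + 1 : ℕ) : ℝ) ≤ ((2 ^ (3 * g) : ℕ) : ℝ) := by
      have e1 : (2 : ℝ) ^ (eps / 100 * x) ≤ (2 : ℝ) ^ (eps / 16 * x) := two_rpow_le (by linarith)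
      have e2 : x ≤ x ^ 3 := by
        have := pow_le_pow_right₀ hx1 (show 1 ≤ 3 by norm_num)
        rwa [pow_one] at this
      push_cast at hq2 ⊢
      linarith
    exact_mod_cast h1
  · rw [hNc]
    have e1 : ((2 ^ a : ℕ) : ℝ) ^ (k * (k - 1) / 2) = (2 : ℝ) ^ ((a * (k * (k - 1) / 2) : ℕ) : ℝ) := by
      push_cast
      rw [← pow_mul, ← Real.rpow_natCast]
      push_cast
      rfl
    have e2 : ((2 : ℝ) ^ (3 * g)) ^ k = (2 : ℝ) ^ (((3 * (g * k) : ℕ)) : ℝ) := by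
      rw [← pow_mul, ← Real.rpow_natCast]
      congr 2
      ring
    have e3 : (4 : ℝ) = (2 : ℝ) ^ (2 : ℝ) := by norm_num
    rw [e1, e2, e3, ← Real.rpow_add (by norm_num), ← Real.rpow_add (by norm_num)]
    apply two_rpow_le
    have e4 : ((4 * (g * k) : ℕ) : ℝ) ≤ ((a * (k * (k - 1) / 2) : ℕ) : ℝ) := by
      exact_mod_cast hnat2
    have e5 : (3999 : ℝ) ≤ k := by exact_mod_cast hk1
    have e6 : (g : ℝ) * 3999 ≤ g * k := mul_le_mul_of_nonneg_left e5 (Nat.cast_nonneg g)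
    have e7 : eps ^ 2 / 100000 * x ≤ eps / 6 * x := mul_le_mul_of_nonneg_right hce (by linarith)
    have e8 : ((4 * (g * k) : ℕ) : ℝ) = 4 * ((g : ℝ) * k) := by push_cast; ring
    have e9 : ((3 * (g * k) : ℕ) : ℝ) = 3 * ((g : ℝ) * k) := by push_cast; ring
    rw [e8] at e4
    rw [e9]
    linarith
  · have : (0 : ℝ) < J := by
      have h600 : (2 : ℝ) ^ (eps / 4 * x) ≤ (2 : ℝ) ^ ((1 - eps / 3) * x) := by
        apply two_rpow_le
        exact mul_le_mul_of_nonneg_right (by linarith) (by linarith)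
      linarith
    have : 0 < J := by exact_mod_cast this
    omega
  · have h1 : ((L : ℕ) : ℝ) ≤ ((2 ^ lam : ℕ) : ℝ) := by
      push_cast
      refine le_trans hL1 ?_
      rw [← Real.rpow_natCast]
      apply two_rpow_le
      linarith
    exact_mod_cast h1
  · have hsum := num_sum (m := k) (lam := (lam : ℝ)) h hx1 g1 heps1 hk0 (Nat.cast_nonneg _) (Nat.cast_nonneg lam) hL1 hJ1 hq (by linarith)
      rfl (by linarith) (by linarith)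
    have h2 : ((L * k * 2 ^ (3 * g) + J * (k * 2 ^ (3 * g)) ^ 2 + J + k ^ 2 * lam
          + (k + 1) * (4 * (k + 1) ^ 2 * 2 ^ (k + 1)) : ℕ) : ℝ) ≤ (n : ℝ) := by
      rw [hnx]
      push_cast at hsum ⊢
      exact hsum
    exact_mod_cast h2
  · rw [hN, hNc]
    exact num_windows heps1 hx1 g2 hce hL2 hJ2
  · rw [hN, hNc, hNK]
    have e1 : (2 : ℝ) ^ (g * l) = (2 : ℝ) ^ ((g * l : ℕ) : ℝ) := (Real.rpow_natCast _ _).symm
    rw [e1]
    apply num_size h hx1 (by positivity) (by linarith) (by linarith)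
    have e3 : (eps * x / 48) * (eps * K / 800) ≤ (g : ℝ) * l :=
      mul_le_mul hg3 hl3 (by positivity) (Nat.cast_nonneg g)
    have e4 : (0 : ℝ) ≤ eps ^ 2 * K * x := by positivity
    push_cast
    linarith

theorem numbers3 (eps : ℝ) (h : 0 < eps) :
    ∃ c : ℝ, 0 < c ∧ ∃ K0 : ℕ, ∀ n K : ℕ, K0 ≤ K →
      (K : ℝ) ≤ Real.logb 2 n - 3 * Real.logb 2 (Real.logb 2 n) - 6 →
      ∃ k l g P L J lam : ℕ, 2 ≤ n ∧ K = k + 1 ∧ 3 ≤ k ∧ 2 ≤ P ∧ 2 ≤ l ∧ k + 1 ≤ 2 ^ (3 * g) ∧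
        28 * g * l ^ 2 * P ^ l ≤ 2 ^ g ∧
        4 * ((2 : ℝ) ^ (3 * g)) ^ k * (n : ℝ) ^ c ≤ (P : ℝ) ^ (k * (k - 1) / 2) ∧
        1 ≤ J ∧ L ≤ 2 ^ lam ∧
        L * k * 2 ^ (3 * g) + J * (k * 2 ^ (3 * g)) ^ 2 + J + k ^ 2 * lam
          + (k + 1) * (4 * (k + 1) ^ 2 * 2 ^ (k + 1)) ≤ n ∧
        4 * ((36 * (n : ℝ) ^ (2 - eps) + 2) * (n : ℝ) ^ c) ≤ (L : ℝ) * J ∧
        16 * (((n : ℝ) ^ (c * K) + 9 * (n : ℝ) ^ (2 - eps) + 1) * (n : ℝ) ^ c)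
          ≤ (2 : ℝ) ^ (g * l) := by
  obtain ⟨c, hc, K0, H⟩ := numbers3_aux (min eps 1) (lt_min h one_pos) (min_le_right _ _)
  refine ⟨c, hc, K0, fun n K hK hK2 => ?_⟩
  obtain ⟨k, l, g, P, L, J, lam, h0, h1, h2, h3, h4, h5, h6, h7, h8, h9, h10, h11, h12⟩ :=
    H n K hK hK2
  have hn1 : (1 : ℝ) ≤ n := by
    have : (2 : ℝ) ≤ n := by exact_mod_cast h0
    linarith
  have hle : (n : ℝ) ^ (2 - eps) ≤ (n : ℝ) ^ (2 - min eps 1) := by
    apply Real.rpow_le_rpow_of_exponent_le hn1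
    linarith [min_le_left eps 1]
  have hc0 : (0 : ℝ) ≤ (n : ℝ) ^ c := Real.rpow_nonneg (by linarith) c
  refine ⟨k, l, g, P, L, J, lam, h0, h1, h2, h3, h4, h5, h6, h7, h8, h9, h10, ?_, ?_⟩
  · have := mul_le_mul_of_nonneg_right (show 36 * (n : ℝ) ^ (2 - eps) + 2
      ≤ 36 * (n : ℝ) ^ (2 - min eps 1) + 2 by linarith) hc0
    linarith
  · have := mul_le_mul_of_nonneg_right (show (n : ℝ) ^ (c * K) + 9 * (n : ℝ) ^ (2 - eps) + 1
      ≤ (n : ℝ) ^ (c * K) + 9 * (n : ℝ) ^ (2 - min eps 1) + 1 by linarith) hc0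
    linarith

end Pool.Agent.DN
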