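import Pool.Agent.Lib.MP_66cd2e_lc.CL.Ers
import Pool.Agent.Lib.MP_66cd2e_lc.DN.Def
import Pool.Agent.Lib.MP_66cd2e_lc.DN.Stmt

/-!
The tournament: the domination number is at most `k + 1` if and only if for one of the windows
`k` chosen vertices of one block, one in each group, dominate the vertices which stand for the
pairs.
-/

set_option autoImplicit false

namespace Pool.Agent.DN

open Pool.Agent.Lib.MP_66cd2e_lc Pool.Agent.Lib.MP_66cd2e_lc.CL

/-- a tournament from an asymmetric relation; the other arcs follow the order -/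
def tie {n : ℕ} (f : Fin n → Fin n → Prop) (hf : ∀ u v, f u v → ¬ f v u) :
    Tournament (Fin n) where
  arc u v := f u v ∨ (¬ f v u ∧ u < v)
  irrefl v h := by
    rcases h with h | h
    · exact hf v v h h
    · exact lt_irrefl _ h.2
  exactlyOne u v huv := by
    constructor
    · rintro (h | ⟨h, h'⟩) (g | ⟨g, g'⟩)
      · exact hf u v h g
      · exact g h
      · exact h g
      · exact lt_asymm h' g'
    · intro h
      by_cases h1 : f u v
      · exact Or.inl h1
      · by_cases h2 : f v u
        · exact absurd (Or.inl h2) h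
        · refine Or.inr ⟨h2, ?_⟩
          rcases lt_or_gt_of_ne huv with h3 | h3
          · exact h3
          · exact absurd (Or.inr ⟨h1, h3⟩) h

/-- the five kinds of special vertices: the vertices which can be chosen, the selectors, the
pairs, the tests of the block, the copies of `Q` -/
inductive VB (L J k q E N : ℕ) : Type
  | a (l : Fin L) (i : Fin k) (u : Fin q) : VB L J k q E N
  | sel (j : Fin J) : VB L J k q E N
  | b (j : Fin J) (p : Ed k q) : VB L J k q E N
  | e (i i' : Fin k) (β : Fin E) : VB L J k q E N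
  | c (i : Fin (k + 1)) (v : Fin N) : VB L J k q E N

variable {L J k q E N n : ℕ}

/-- the special vertices as elements of a sum -/
def VB.toSum : VB L J k q E N →
    (Fin L × Fin k × Fin q) ⊕ Fin J ⊕ (Fin J × Vx k q × Vx k q) ⊕ (Fin k × Fin k × Fin E) ⊕
      (Fin (k + 1) × Fin N)
  | .a l i u => .inl (l, i, u)
  | .sel j => .inr (.inl j)
  | .b j p => .inr (.inr (.inl (j, p.1)))
  | .e i j β => .inr (.inr (.inr (.inl (i, j, β))))
  | .c i v => .inr (.inr (.inr (.inr (i, v))))

theorem VB.toSum_inj : Function.Injective (VB.toSum : VB L J k q E N → _) := by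
  intro x y h
  cases x <;> cases y <;> simp_all [VB.toSum, Subtype.ext_iff]

theorem exists_emb
    (h : L * k * q + J + J * (k * q) ^ 2 + k ^ 2 * E + (k + 1) * N ≤ n) :
    ∃ ι : VB L J k q E N → Fin n, Function.Injective ι := by
  have hc : Fintype.card ((Fin L × Fin k × Fin q) ⊕ Fin J ⊕ (Fin J × Vx k q × Vx k q) ⊕
      (Fin k × Fin k × Fin E) ⊕ (Fin (k + 1) × Fin N)) ≤ Fintype.card (Fin n) := by
    simp only [Fintype.card_sum, Fintype.card_prod, Fintype.card_fin]
    calc L * (k * q) + (J + (J * (k * q * (k * q)) + (k * (k * E) + (k + 1) * N)))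
        = L * k * q + J + J * (k * q) ^ 2 + k ^ 2 * E + (k + 1) * N := by ring
      _ ≤ n := h
  obtain ⟨f⟩ := Function.Embedding.nonempty_of_card_le hc
  exact ⟨f ∘ VB.toSum, f.injective.comp VB.toSum_inj⟩

/-- the condition for the arc from `a l i u` to `e j j' β` -/
def ec (l : Fin L) (i j j' : Fin k) (β : Fin E) : Prop :=
  (i = j ∧ Nat.testBit l.val β.val = false) ∨ (i = j' ∧ Nat.testBit l.val β.val = true) ∨ j = j'

/-- the prescribed arcs; `none` stands for the other vertices -/
def pref (Q : Tournament (Fin N)) (X : Fin L × Fin k × Fin q → Fin J × Ed k q → Prop) :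
    Option (VB L J k q E N) → Option (VB L J k q E N) → Prop
  | some (.a _ i _), some (.a _ j _) => j.val = (i.val + 1) % (k + 1)
  | some (.a _ i _), some (.sel _) => i.val + 1 = k
  | some (.sel _), some (.a _ j _) => j.val = 0
  | some (.a l i u), some (.b j p) => X (l, i, u) (j, p)
  | some (.b j p), some (.a l i u) => ¬ X (l, i, u) (j, p)
  | some (.sel j'), some (.b j _) => j' ≠ j
  | some (.b j _), some (.sel j') => j' = j
  | some (.a l i _), some (.e j j' β) => ec l i j j' β
  | some (.e j j' β), some (.a l i _) => ¬ ec l i j j' β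
  | some (.e _ _ _), some (.sel _) => True
  | some (.a _ i _), some (.c j _) => j = i.castSucc
  | some (.c j _), some (.a _ i _) => j ≠ i.castSucc
  | some (.sel _), some (.c j _) => j = Fin.last k
  | some (.c j _), some (.sel _) => j ≠ Fin.last k
  | some (.c i v), some (.c j w) => Q.arc v w ∨ (v = w ∧ i < j)
  | some (.c _ _), some (.b _ _) => True
  | some (.c _ _), some (.e _ _ _) => True
  | some (.c _ _), none => True
  | some (.a _ _ _), none => True
  | _, _ => False

theorem pref_asymm (hk : 2 ≤ k) (Q : Tournament (Fin N))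
    (X : Fin L × Fin k × Fin q → Fin J × Ed k q → Prop)
    (x y : Option (VB L J k q E N)) (h : pref Q X x y) : ¬ pref Q X y x := by
  rcases x with _ | (⟨l, i, u⟩ | ⟨j⟩ | ⟨j, p⟩ | ⟨i, j, β⟩ | ⟨i, v⟩) <;>
    rcases y with _ | (⟨l', i', u'⟩ | ⟨j'⟩ | ⟨j', p'⟩ | ⟨i', j', β'⟩ | ⟨i', v'⟩) <;>
    simp only [pref, not_false_eq_true, not_not] at h ⊢ <;>
    first
      | exact h
      | exact not_not.2 h
      | skip
  · intro h'
    have h1 := i.2
    have h2 := i'.2
    rw [Nat.mod_eq_of_lt (by omega)] at h h'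
    omega
  · intro h'
    omega
  · intro h'
    omega
  · rintro (h' | ⟨h1, h2⟩)
    · rcases h with h | ⟨h3, h4⟩
      · by_cases hv : v = v'
        · rw [hv] at h
          exact Q.irrefl _ h
        · exact (Q.exactlyOne v v' hv).1 h h'
      · rw [h3] at h'
        exact Q.irrefl _ h'
    · rcases h with h | ⟨h3, h4⟩
      · rw [h1] at h
        exact Q.irrefl _ h
      · exact lt_asymm h2 h4

open Classical in
/-- the kind of a vertex -/
noncomputable def kd (ι : VB L J k q E N → Fin n) (u : Fin n) : Option (VB L J k q E N) :=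
  if h : ∃ v, ι v = u then some h.choose else none

theorem kd_apply {ι : VB L J k q E N → Fin n} (hι : Function.Injective ι)
    (v : VB L J k q E N) : kd ι (ι v) = some v := by
  have h : ∃ v', ι v' = ι v := ⟨v, rfl⟩
  unfold kd
  rw [dif_pos h]
  exact congrArg some (hι h.choose_spec)

theorem kd_cases (ι : VB L J k q E N → Fin n) (u : Fin n) :
    (kd ι u = none ∧ ∀ v, ι v ≠ u) ∨ ∃ v, ι v = u := by
  by_cases h : ∃ v, ι v = u
  · exact Or.inr h
  · left
    constructor
    · unfold kd
      rw [dif_neg h]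
    · intro v hv
      exact h ⟨v, hv⟩

/-- the tournament -/
noncomputable def TX (hk : 2 ≤ k) (Q : Tournament (Fin N))
    (X : Fin L × Fin k × Fin q → Fin J × Ed k q → Prop) (ι : VB L J k q E N → Fin n) :
    Tournament (Fin n) :=
  tie (fun u v => pref Q X (kd ι u) (kd ι v)) (fun _ _ h => pref_asymm hk Q X _ _ h)

theorem TX_arc (hk : 2 ≤ k) (Q : Tournament (Fin N))
    (X : Fin L × Fin k × Fin q → Fin J × Ed k q → Prop) (ι : VB L J k q E N → Fin n)
    {u v : Fin n} (h : pref Q X (kd ι u) (kd ι v)) : (TX hk Q X ι).arc u v := Or.inl h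

theorem TX_not_arc (hk : 2 ≤ k) (Q : Tournament (Fin N))
    (X : Fin L × Fin k × Fin q → Fin J × Ed k q → Prop) (ι : VB L J k q E N → Fin n)
    {u v : Fin n} (h : pref Q X (kd ι v) (kd ι u)) : ¬ (TX hk Q X ι).arc u v := by
  rintro (h1 | ⟨h1, _⟩)
  · exact pref_asymm hk Q X _ _ h h1
  · exact h1 h

/-- the domination number of a tournament with the prescribed arcs -/
theorem dom_iff (hk : 2 ≤ k) (hL : L ≤ 2 ^ E) {Q : Tournament (Fin N)} (hQ : Dom Q (k + 1))
    {ι : VB L J k q E N → Fin n} (hι : Function.Injective ι) (T : Tournament (Fin n))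
    (X : Fin L × Fin k × Fin q → Fin J × Ed k q → Prop)
    (hT : ∀ u v, (∀ (t : Fin L × Fin k × Fin q) (p : Fin J × Ed k q),
        ¬ (u = ι (.a t.1 t.2.1 t.2.2) ∧ v = ι (.b p.1 p.2))) →
      (∀ (t : Fin L × Fin k × Fin q) (p : Fin J × Ed k q),
        ¬ (v = ι (.a t.1 t.2.1 t.2.2) ∧ u = ι (.b p.1 p.2))) →
      (T.arc u v ↔ (TX hk Q X ι).arc u v)) :
    domNumber T ≤ k + 1 ↔ ∃ (i0 : Fin L) (j0 : Fin J) (s : Fin k → Fin q), ∀ e : Ed k q, ∃ i,
      T.arc (ι (.a i0 i (s i))) (ι (.b j0 e)) := by
  classical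
  have hk0 : 0 < k := by omega
  have hkne : Nonempty (Fin k) := ⟨⟨0, hk0⟩⟩
  -- the prescribed arcs
  have harc : ∀ u v : Fin n, (∀ j p, v ≠ ι (.b j p)) →
      (∀ j p, u ≠ ι (.b j p)) → pref Q X (kd ι u) (kd ι v) → T.arc u v := by
    intro u v hv hu h
    exact (hT u v (fun t p h' => hv p.1 p.2 h'.2) (fun t p h' => hu p.1 p.2 h'.2)).2
      (TX_arc hk Q X ι h)
  have hnarc : ∀ u v : Fin n, (∀ j p, v ≠ ι (.b j p)) → (∀ t : Fin L × Fin k × Fin q,
      v ≠ ι (.a t.1 t.2.1 t.2.2)) → pref Q X (kd ι v) (kd ι u) → ¬ T.arc u v := by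
    intro u v hv hu h h'
    exact TX_not_arc hk Q X ι h
      ((hT u v (fun t p h' => hv p.1 p.2 h'.2) (fun t p h' => hu t h'.1)).1 h')
  have hselb : ∀ (j' j : Fin J) (p : Ed k q), T.arc (ι (.sel j')) (ι (.b j p)) ↔ j' ≠ j := by
    intro j' j p
    have h1 := hT (ι (.sel j')) (ι (.b j p)) (fun t p h' => by simpa using hι h'.1)
      (fun t p h' => by simpa using hι h'.1)
    rw [h1]
    constructor
    · intro h hj
      exact TX_not_arc hk Q X ι (by rw [kd_apply hι, kd_apply hι]; exact hj) h
    · intro h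
      exact TX_arc hk Q X ι (by rw [kd_apply hι, kd_apply hι]; exact h)
  have hab : ∀ (l : Fin L) (i : Fin k) (u : Fin q) (j : Fin J) (p : Ed k q),
      ι (.a l i u) ≠ ι (.b j p) := fun l i u j p h => by simpa using hι h
  have hsb : ∀ (j' j : Fin J) (p : Ed k q), ι (.sel j') ≠ ι (.b j p) :=
    fun j' j p h => by simpa using hι h
  constructor
  · intro hdom
    obtain ⟨S, hS, hcard⟩ : domNumber T ∈
        {m : ℕ | ∃ S : Finset (Fin n), IsDominating T S ∧ S.card = m} :=
      Nat.sInf_mem ⟨_, Finset.univ, fun w hw => absurd (Finset.mem_univ w) hw, rfl⟩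
    rw [← hcard] at hdom
    -- the projection to `Q`
    obtain ⟨P, hP⟩ : ∃ P : Finset (Fin N), ∀ x, x ∈ P ↔ ∃ i, ι (.c i x) ∈ S :=
      ⟨Finset.univ.filter fun x => ∃ i, ι (.c i x) ∈ S, by simp⟩
    have hPc : P.card ≤ k + 1 := by
      refine le_trans ?_ hdom
      have h1 : ∀ x ∈ P, ∃ i, ι (.c i x) ∈ S := fun x hx => (hP x).1 hx
      choose! f hf using h1
      refine Finset.card_le_card_of_injOn (fun x => ι (.c (f x) x)) (fun x hx => hf x hx) ?_
      intro x _ y _ hxy
      have h2 : (VB.c (f x) x : VB L J k q E N) = VB.c (f y) y := hι hxy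
      injection h2
    obtain ⟨y, hyP, hy⟩ := hQ P hPc
    have hcv : ∀ i : Fin (k + 1), ∃ v ∈ S, ¬ pref Q X (some (.c i y)) (kd ι v) := by
      intro i
      have hyS : ι (.c i y) ∉ S := fun h => hyP ((hP y).2 ⟨i, h⟩)
      obtain ⟨v, hvS, hv⟩ := hS _ hyS
      have hcb : ∀ j p, ι (.c i y) ≠ ι (.b j p) := fun j p h => by simpa using hι h
      have hca : ∀ t : Fin L × Fin k × Fin q, ι (.c i y) ≠ ι (.a t.1 t.2.1 t.2.2) :=
        fun t h => by simpa using hι h
      have key : ¬ pref Q X (kd ι (ι (.c i y))) (kd ι v) := fun h => hnarc v _ hcb hca h hv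
      rw [kd_apply hι] at key
      exact ⟨v, hvS, key⟩
    have hg : ∀ i : Fin k, ∃ l u, ι (.a l i u) ∈ S := by
      intro i
      obtain ⟨v, hvS, key⟩ := hcv i.castSucc
      rcases kd_cases ι v with ⟨h1, _⟩ | ⟨w, rfl⟩
      · rw [h1] at key
        exact absurd trivial key
      · rw [kd_apply hι] at key
        cases w with
        | a l j u =>
          have h2 : ¬ (i.castSucc ≠ j.castSucc) := key
          rw [not_not] at h2
          have h3 : i = j := Fin.castSucc_injective _ h2
          subst h3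
          exact ⟨l, u, hvS⟩
        | sel j =>
          have h2 : ¬ (i.castSucc ≠ Fin.last k) := key
          exact absurd (Fin.castSucc_lt_last i).ne h2
        | b j p => exact absurd trivial key
        | e j j' β => exact absurd trivial key
        | c j w =>
          have h2 : ¬ (Q.arc y w ∨ (y = w ∧ i.castSucc < j)) := key
          exact absurd (Or.inl (hy w ((hP w).2 ⟨j, hvS⟩))) h2
    have hgs : ∃ j, ι (.sel j) ∈ S := by
      obtain ⟨v, hvS, key⟩ := hcv (Fin.last k)
      rcases kd_cases ι v with ⟨h1, _⟩ | ⟨w, rfl⟩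
      · rw [h1] at key
        exact absurd trivial key
      · rw [kd_apply hι] at key
        cases w with
        | a l j u =>
          have h2 : ¬ (Fin.last k ≠ j.castSucc) := key
          exact absurd (Fin.castSucc_lt_last j).ne' h2
        | sel j => exact ⟨j, hvS⟩
        | b j p => exact absurd trivial key
        | e j j' β => exact absurd trivial key
        | c j w =>
          have h2 : ¬ (Q.arc y w ∨ (y = w ∧ Fin.last k < j)) := key
          exact absurd (Or.inl (hy w ((hP w).2 ⟨j, hvS⟩))) h2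
    choose l s hls using hg
    obtain ⟨j0, hj0⟩ := hgs
    have hS0 : S = insert (ι (.sel j0))
        (Finset.univ.image (fun i : Fin k => ι (.a (l i) i (s i)))) := by
      symm
      refine Finset.eq_of_subset_of_card_le ?_ ?_
      · intro x hx
        rcases Finset.mem_insert.1 hx with h | h
        · rw [h]
          exact hj0
        · obtain ⟨i, -, rfl⟩ := Finset.mem_image.1 h
          exact hls i
      · rw [Finset.card_insert_of_notMem, Finset.card_image_of_injective, Finset.card_univ,
          Fintype.card_fin]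
        · exact hdom
        · intro i j hij
          have h1 : (VB.a (l i) i (s i) : VB L J k q E N) = VB.a (l j) j (s j) := hι hij
          injection h1
        · intro h
          obtain ⟨i, -, hi⟩ := Finset.mem_image.1 h
          exact absurd (hι hi) (by simp)
    have hmem : ∀ v ∈ S, v = ι (.sel j0) ∨ ∃ i, v = ι (.a (l i) i (s i)) := by
      intro v hv
      rw [hS0] at hv
      rcases Finset.mem_insert.1 hv with h | h
      · exact Or.inl h
      · obtain ⟨i, -, h⟩ := Finset.mem_image.1 h
        exact Or.inr ⟨i, h.symm⟩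
    -- one block
    have hbit : ∀ (j j' : Fin k) (β : Fin E), j ≠ j' → Nat.testBit (l j).val β.val = true →
        Nat.testBit (l j').val β.val = true := by
      intro j j' β hjj' hb
      have heS : ι (.e j j' β) ∉ S := by
        intro h
        rcases hmem _ h with hi | ⟨i, hi⟩
        · exact absurd (hι hi) (by simp)
        · exact absurd (hι hi) (by simp)
      obtain ⟨v, hvS, hv⟩ := hS _ heS
      have heb : ∀ j'' p, ι (.e j j' β) ≠ ι (.b j'' p) := fun j'' p h => by simpa using hι h
      have hea : ∀ t : Fin L × Fin k × Fin q, ι (.e j j' β) ≠ ι (.a t.1 t.2.1 t.2.2) :=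
        fun t h => by simpa using hι h
      rcases hmem v hvS with rfl | ⟨i, rfl⟩
      · exfalso
        refine hnarc _ _ heb hea ?_ hv
        rw [kd_apply hι, kd_apply hι]
        exact trivial
      have key : ¬ pref Q X (kd ι (ι (.e j j' β))) (kd ι (ι (.a (l i) i (s i)))) :=
        fun h => hnarc _ _ heb hea h hv
      rw [kd_apply hι, kd_apply hι] at key
      have h2 : ¬ ¬ ec (l i) i j j' β := key
      rw [not_not] at h2
      rcases h2 with ⟨h2, h3⟩ | ⟨h2, h3⟩ | h2
      · subst h2
        rw [hb] at h3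
        exact absurd h3 (by decide)
      · subst h2
        exact h3
      · exact absurd h2 hjj'
    have hl : ∀ j j' : Fin k, l j = l j' := by
      intro j j'
      by_cases hjj' : j = j'
      · rw [hjj']
      · apply Fin.ext
        apply Nat.eq_of_testBit_eq
        intro β
        rcases Nat.lt_or_ge β E with hβ | hβ
        · have h1 := hbit j j' ⟨β, hβ⟩ hjj'
          have h2 := hbit j' j ⟨β, hβ⟩ (Ne.symm hjj')
          simp only at h1 h2
          rw [Bool.eq_iff_iff]
          exact ⟨h1, h2⟩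
        · have h3 : ∀ j : Fin k, Nat.testBit (l j).val β = false := by
            intro j
            apply Nat.testBit_lt_two_pow
            calc (l j).val < L := (l j).2
              _ ≤ 2 ^ E := hL
              _ ≤ 2 ^ β := Nat.pow_le_pow_right (by norm_num) hβ
          rw [h3, h3]
    refine ⟨l ⟨0, hk0⟩, j0, s, fun e => ?_⟩
    have heS : ι (.b j0 e) ∉ S := by
      intro h
      rcases hmem _ h with hi | ⟨i, hi⟩
      · exact absurd (hι hi) (by simp)
      · exact absurd (hι hi) (by simp)
    obtain ⟨v, hvS, hv⟩ := hS _ heS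
    rcases hmem v hvS with rfl | ⟨i, rfl⟩
    · exact absurd rfl ((hselb _ _ _).1 hv)
    · refine ⟨i, ?_⟩
      rw [hl ⟨0, hk0⟩ i]
      exact hv
  · rintro ⟨i0, j0, s, h⟩
    have hdom : IsDominating T (insert (ι (.sel j0))
        (Finset.univ.image (fun i : Fin k => ι (.a i0 i (s i))))) := by
      intro w _
      have hin : ∀ i : Fin k, ι (.a i0 i (s i)) ∈ insert (ι (.sel j0))
          (Finset.univ.image (fun i : Fin k => ι (.a i0 i (s i)))) := fun i =>
        Finset.mem_insert_of_mem (Finset.mem_image_of_mem _ (Finset.mem_univ i))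
      have hins : ι (.sel j0) ∈ insert (ι (.sel j0))
          (Finset.univ.image (fun i : Fin k => ι (.a i0 i (s i)))) :=
        Finset.mem_insert_self _ _
      rcases kd_cases ι w with ⟨h1, h2⟩ | ⟨w, rfl⟩
      · refine ⟨_, hin ⟨0, hk0⟩, ?_⟩
        apply harc
        · exact fun j p hp => h2 _ hp.symm
        · exact hab _ _ _
        · rw [h1, kd_apply hι]
          exact trivial
      · cases w with
        | a l' j u' =>
          have hj := j.2
          rcases Nat.eq_zero_or_pos j.val with h0 | h0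
          · refine ⟨_, hins, ?_⟩
            apply harc
            · exact hab _ _ _
            · exact hsb _
            · rw [kd_apply hι, kd_apply hι]
              exact h0
          · refine ⟨_, hin ⟨j.val - 1, by omega⟩, ?_⟩
            apply harc
            · exact hab _ _ _
            · exact hab _ _ _
            · rw [kd_apply hι, kd_apply hι]
              have h5 : j.val - 1 + 1 = j.val := by omega
              change j.val = (j.val - 1 + 1) % (k + 1)
              rw [h5, Nat.mod_eq_of_lt (by omega)]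
        | sel j' =>
          refine ⟨_, hin ⟨k - 1, by omega⟩, ?_⟩
          apply harc
          · exact hsb _
          · exact hab _ _ _
          · rw [kd_apply hι, kd_apply hι]
            change k - 1 + 1 = k
            omega
        | b j p =>
          by_cases hj : j0 = j
          · subst hj
            obtain ⟨i, hi⟩ := h p
            exact ⟨_, hin i, hi⟩
          · exact ⟨_, hins, (hselb _ _ _).2 hj⟩
        | e j j' β =>
          have heb : ∀ j'' p, ι (.e j j' β) ≠ ι (.b j'' p) := fun j'' p h => by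
            simpa using hι h
          cases hb : Nat.testBit i0.val β.val
          · refine ⟨_, hin j, ?_⟩
            apply harc
            · exact heb
            · exact hab _ _ _
            · rw [kd_apply hι, kd_apply hι]
              exact Or.inl ⟨rfl, hb⟩
          · refine ⟨_, hin j', ?_⟩
            apply harc
            · exact heb
            · exact hab _ _ _
            · rw [kd_apply hι, kd_apply hι]
              exact Or.inr (Or.inl ⟨rfl, hb⟩)
        | c j v =>
          have hcb : ∀ j'' p, ι (.c j v) ≠ ι (.b j'' p) := fun j'' p h => by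
            simpa using hι h
          rcases Fin.eq_castSucc_or_eq_last j with ⟨i, rfl⟩ | rfl
          · refine ⟨_, hin i, ?_⟩
            apply harc
            · exact hcb
            · exact hab _ _ _
            · rw [kd_apply hι, kd_apply hι]
              exact (rfl : i.castSucc = i.castSucc)
          · refine ⟨_, hins, ?_⟩
            apply harc
            · exact hcb
            · exact hsb _
            · rw [kd_apply hι, kd_apply hι]
              exact (rfl : Fin.last k = Fin.last k)
    have h1 : domNumber T ≤ (insert (ι (.sel j0))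
        (Finset.univ.image (fun i : Fin k => ι (.a i0 i (s i))))).card :=
      Nat.sInf_le ⟨_, hdom, rfl⟩
    refine h1.trans ((Finset.card_insert_le _ _).trans (Nat.add_le_add_right ?_ 1))
    refine Finset.card_image_le.trans ?_
    rw [Finset.card_univ, Fintype.card_fin]

/-- the pairs of the prescribed arcs which do not depend on `X` -/
theorem pref_indep (Q : Tournament (Fin N))
    (X X' : Fin L × Fin k × Fin q → Fin J × Ed k q → Prop) (x y : Option (VB L J k q E N))
    (h1 : ∀ (t : Fin L × Fin k × Fin q) (p : Fin J × Ed k q),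
      ¬ (x = some (.a t.1 t.2.1 t.2.2) ∧ y = some (.b p.1 p.2)))
    (h2 : ∀ (t : Fin L × Fin k × Fin q) (p : Fin J × Ed k q),
      ¬ (y = some (.a t.1 t.2.1 t.2.2) ∧ x = some (.b p.1 p.2))) :
    pref Q X x y ↔ pref Q X' x y := by
  rcases x with _ | (⟨l, i, u⟩ | ⟨j⟩ | ⟨j, p⟩ | ⟨i, j, β⟩ | ⟨i, v⟩) <;>
    rcases y with _ | (⟨l', i', u'⟩ | ⟨j'⟩ | ⟨j', p'⟩ | ⟨i', j', β'⟩ | ⟨i', v'⟩) <;>
    first
      | exact Iff.rfl
      | skip
  · exact absurd ⟨rfl, rfl⟩ (h1 (l, i, u) (j', p'))
  · exact absurd ⟨rfl, rfl⟩ (h2 (l', i', u') (j, p))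

/-- **The tournament.** -/
theorem tour2_gen {k q L J lam n : ℕ} (hk : 2 ≤ k) (hL : L ≤ 2 ^ lam)
    (hn : L * k * q + J + J * (k * q) ^ 2 + k ^ 2 * lam +
      (k + 1) * (4 * (k + 1) ^ 2 * 2 ^ (k + 1)) ≤ n) :
    ∃ (T0 : Tournament (Fin n)) (A B : Finset (Fin n)), Disjoint A B ∧
      ∃ (fa : Fin L × Fin k × Fin q ≃ {x // x ∈ A}) (fb : Fin J × Ed k q ≃ {x // x ∈ B}),
        (∀ T, SameOff T0 T A B → (domNumber T ≤ k + 1 ↔
          ∃ (i0 : Fin L) (j0 : Fin J) (s : Fin k → Fin q), ∀ e : Ed k q, ∃ i,
            T.arc (fa (i0, i, s i)) (fb (j0, e)))) ∧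
        (∀ x : {x // x ∈ A} → {x // x ∈ B} → Prop, ∃ T, SameOff T0 T A B ∧
          ∀ (a : {x // x ∈ A}) (b : {x // x ∈ B}), T.arc a b ↔ x a b) := by
  classical
  obtain ⟨Q, hQ⟩ := exists_dom (k + 1) (by omega)
  obtain ⟨ι, hι⟩ := exists_emb (L := L) (J := J) (k := k) (q := q) (E := lam)
    (N := 4 * (k + 1) ^ 2 * 2 ^ (k + 1)) hn
  let fA : Fin L × Fin k × Fin q → Fin n := fun t => ι (.a t.1 t.2.1 t.2.2)
  let fB : Fin J × Ed k q → Fin n := fun p => ι (.b p.1 p.2)
  have hfA : Function.Injective fA := by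
    intro t t' h
    have h1 : (VB.a t.1 t.2.1 t.2.2 : VB L J k q lam (4 * (k + 1) ^ 2 * 2 ^ (k + 1))) =
        VB.a t'.1 t'.2.1 t'.2.2 := hι h
    injection h1 with h2 h3 h4
    exact Prod.ext h2 (Prod.ext h3 h4)
  have hfB : Function.Injective fB := by
    intro t t' h
    have h1 : (VB.b t.1 t.2 : VB L J k q lam (4 * (k + 1) ^ 2 * 2 ^ (k + 1))) =
        VB.b t'.1 t'.2 := hι h
    injection h1 with h2 h3
    exact Prod.ext h2 h3
  have hAm : ∀ u, u ∈ Finset.univ.image fA ↔ ∃ t, fA t = u := fun u => by simp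
  have hBm : ∀ u, u ∈ Finset.univ.image fB ↔ ∃ p, fB p = u := fun u => by simp
  refine ⟨TX hk Q (fun _ _ => False) ι, Finset.univ.image fA, Finset.univ.image fB, ?_, ?_⟩
  · rw [Finset.disjoint_left]
    intro u hu hu'
    obtain ⟨t, rfl⟩ := (hAm u).1 hu
    obtain ⟨p, hp⟩ := (hBm _).1 hu'
    exact absurd (hι hp) (by simp)
  · let fa : Fin L × Fin k × Fin q ≃ {x // x ∈ Finset.univ.image fA} :=
      Equiv.ofBijective (fun t => ⟨fA t, Finset.mem_image_of_mem _ (Finset.mem_univ t)⟩)
        ⟨fun t t' h => hfA (congrArg Subtype.val h), fun u => by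
          obtain ⟨t, ht⟩ := (hAm u.1).1 u.2
          exact ⟨t, Subtype.ext ht⟩⟩
    let fb : Fin J × Ed k q ≃ {x // x ∈ Finset.univ.image fB} :=
      Equiv.ofBijective (fun t => ⟨fB t, Finset.mem_image_of_mem _ (Finset.mem_univ t)⟩)
        ⟨fun t t' h => hfB (congrArg Subtype.val h), fun u => by
          obtain ⟨t, ht⟩ := (hBm u.1).1 u.2
          exact ⟨t, Subtype.ext ht⟩⟩
    refine ⟨fa, fb, ?_, ?_⟩
    · intro T hT
      refine dom_iff hk hL hQ hι T (fun _ _ => False) ?_
      intro u v h1 h2
      refine hT u v ?_ ?_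
      · rintro ⟨hu, hv⟩
        obtain ⟨t, rfl⟩ := (hAm u).1 hu
        obtain ⟨p, rfl⟩ := (hBm v).1 hv
        exact h1 t p ⟨rfl, rfl⟩
      · rintro ⟨hu, hv⟩
        obtain ⟨t, rfl⟩ := (hAm v).1 hv
        obtain ⟨p, rfl⟩ := (hBm u).1 hu
        exact h2 t p ⟨rfl, rfl⟩
    · intro x
      refine ⟨TX hk Q (fun t p => x (fa t) (fb p)) ι, ?_, ?_⟩
      · intro u v h1 h2
        have h3 : ∀ (t : Fin L × Fin k × Fin q) (p : Fin J × Ed k q),
            ¬ (u = ι (.a t.1 t.2.1 t.2.2) ∧ v = ι (.b p.1 p.2)) := by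
          rintro t p ⟨hu, hv⟩
          exact h1 ⟨(hAm u).2 ⟨t, hu.symm⟩, (hBm v).2 ⟨p, hv.symm⟩⟩
        have h4 : ∀ (t : Fin L × Fin k × Fin q) (p : Fin J × Ed k q),
            ¬ (v = ι (.a t.1 t.2.1 t.2.2) ∧ u = ι (.b p.1 p.2)) := by
          rintro t p ⟨hv, hu⟩
          exact h2 ⟨(hBm u).2 ⟨p, hu.symm⟩, (hAm v).2 ⟨t, hv.symm⟩⟩
        have hkd : ∀ (u : Fin n) (w : VB L J k q lam (4 * (k + 1) ^ 2 * 2 ^ (k + 1))),
            kd ι u = some w → u = ι w := by
          intro u w hu
          rcases kd_cases ι u with ⟨h5, _⟩ | ⟨w', rfl⟩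
          · rw [h5] at hu
            exact absurd hu (by simp)
          · rw [kd_apply hι] at hu
            injection hu with hu
            rw [hu]
        have h5 := pref_indep Q (fun t p => x (fa t) (fb p)) (fun _ _ => False) (kd ι u) (kd ι v)
          (fun t p h => h3 t p ⟨hkd _ _ h.1, hkd _ _ h.2⟩)
          (fun t p h => h4 t p ⟨hkd _ _ h.1, hkd _ _ h.2⟩)
        have h6 := pref_indep Q (fun t p => x (fa t) (fb p)) (fun _ _ => False) (kd ι v) (kd ι u)
          (fun t p h => h4 t p ⟨hkd _ _ h.1, hkd _ _ h.2⟩)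
          (fun t p h => h3 t p ⟨hkd _ _ h.1, hkd _ _ h.2⟩)
        exact or_congr h5 (and_congr (not_congr h6) Iff.rfl)
      · intro a b
        obtain ⟨t, rfl⟩ := fa.surjective a
        obtain ⟨p, rfl⟩ := fb.surjective b
        have h1 : kd ι (fa t).1 = some (.a t.1 t.2.1 t.2.2) := kd_apply hι _
        have h2 : kd ι (fb p).1 = some (.b p.1 p.2) := kd_apply hι _
        constructor
        · rintro (h | ⟨h, _⟩)
          · change pref Q (fun t p => x (fa t) (fb p)) (kd ι (fa t).1) (kd ι (fb p).1) at h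
            rw [h1, h2] at h
            exact h
          · change ¬ pref Q (fun t p => x (fa t) (fb p)) (kd ι (fb p).1) (kd ι (fa t).1) at h
            rw [h1, h2] at h
            exact not_not.1 h
        · intro h
          apply TX_arc
          rw [h1, h2]
          exact h

/-- the same statement, the hypotheses in another form -/
theorem tour2 {k q L J lam n : ℕ} (hk : 3 ≤ k) (_hJ : 1 ≤ J) (hL : L ≤ 2 ^ lam)
    (hn : L * k * q + J * (k * q) ^ 2 + J + k ^ 2 * lam +
      (k + 1) * (4 * (k + 1) ^ 2 * 2 ^ (k + 1)) ≤ n) :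
    ∃ (T0 : Tournament (Fin n)) (A B : Finset (Fin n)), Disjoint A B ∧
      ∃ (fa : Fin L × Fin k × Fin q ≃ {x // x ∈ A}) (fb : Fin J × Ed k q ≃ {x // x ∈ B}),
        (∀ T, SameOff T0 T A B → (domNumber T ≤ k + 1 ↔
          ∃ (i0 : Fin L) (j0 : Fin J) (s : Fin k → Fin q), ∀ e : Ed k q, ∃ i,
            T.arc (fa (i0, i, s i)) (fb (j0, e)))) ∧
        (∀ x : {x // x ∈ A} → {x // x ∈ B} → Prop, ∃ T, SameOff T0 T A B ∧
          ∀ (a : {x // x ∈ A}) (b : {x // x ∈ B}), T.arc a b ↔ x a b) :=
  tour2_gen (by omega) hL (by omega)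

end Pool.Agent.DN
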