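import Pool.Agent.Lib.MP_66cd2e_lc.DN.Good
import Pool.Agent.Lib.MP_66cd2e_lc.DN.Num
import Pool.Agent.Lib.MP_66cd2e_lc.DN.FamC
import Pool.Agent.Lib.MP_66cd2e_lc.DN.Tour

/-!
The final statement.
-/

set_option autoImplicit false

namespace Pool.Agent.DN

open Finset Pool.Agent.NEG Pool.Agent.NEGS Pool.Agent.Lib.MP_66cd2e_lc

/-- the values of the gates of an acyclic circuit are unique -/
theorem cons_unique {I G : Type} (C : Circuit I G) (hC : ∃ d, C.DepthLE d) (x : I → Bool)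
    (v w : G → Bool) (hv : C.Consistent x v) (hw : C.Consistent x w) : v = w := by
  obtain ⟨d, lev, _, hlev⟩ := hC
  have key : ∀ m : ℕ, ∀ g, lev g ≤ m → v g = w g := by
    intro m
    induction m with
    | zero =>
        intro g hg
        rw [hv g, hw g]
        congr 1
        funext i
        cases h : C.src g i with
        | inl a => cases a <;> rfl
        | inr g' =>
            have := hlev g i g' h
            omega
    | succ m ih =>
        intro g hg
        rw [hv g, hw g]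
        congr 1
        funext i
        cases h : C.src g i with
        | inl a => cases a <;> rfl
        | inr g' =>
            have := hlev g i g' h
            exact ih g' (by omega)
  funext g
  exact key (lev g) g le_rfl

section Sub

variable {k q L J : ℕ}

/-- the substitution of the arcs by the blocks -/
def sub1 (a : Fin L × Fin k × Fin q) (b : Fin J × Ed k q) : (Fin (L * J) × Ed k q) ⊕ Bool :=
  if (a.2.1 = b.2.1.1.1 ∧ a.2.2 ≠ b.2.1.1.2) ∨ (a.2.1 = b.2.1.2.1 ∧ a.2.2 ≠ b.2.1.2.2) then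
    Sum.inr true
  else if a.2.1 = b.2.1.1.1 then Sum.inl (finProdFinEquiv (a.1, b.1), b.2) else Sum.inr false

theorem sub1_iff (Y : Fin (L * J) × Ed k q → Bool) :
    (∃ (i0 : Fin L) (j0 : Fin J) (s : Fin k → Fin q), ∀ e : Ed k q, ∃ i,
      (match sub1 (i0, i, s i) (j0, e) with
        | .inl z => Y z
        | .inr b => b) = true) ↔ ∃ w, HasCl fun e => Y (w, e) := by
  constructor
  · rintro ⟨i0, j0, s, hs⟩
    refine ⟨finProdFinEquiv (i0, j0), s, fun e he => ?_⟩
    obtain ⟨i, hi⟩ := hs e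
    unfold px at he
    rw [decide_eq_true_eq] at he
    unfold sub1 at hi
    rw [if_neg] at hi
    · by_cases h1 : i = e.1.1.1
      · rw [if_pos h1] at hi
        exact hi
      · rw [if_neg h1] at hi
        exact absurd hi Bool.false_ne_true
    · rintro (⟨h1, h2⟩ | ⟨h1, h2⟩)
      · apply h2
        change s i = e.1.1.2
        change i = e.1.1.1 at h1
        rw [h1]
        exact he.1
      · apply h2
        change s i = e.1.2.2
        change i = e.1.2.1 at h1
        rw [h1]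
        exact he.2
  · rintro ⟨w, s, hs⟩
    refine ⟨(finProdFinEquiv.symm w).1, (finProdFinEquiv.symm w).2, s, fun e => ?_⟩
    by_cases h1 : s e.1.1.1 = e.1.1.2
    · by_cases h2 : s e.1.2.1 = e.1.2.2
      · refine ⟨e.1.1.1, ?_⟩
        unfold sub1
        rw [if_neg, if_pos rfl]
        · change Y (finProdFinEquiv (finProdFinEquiv.symm w), e) = true
          rw [Equiv.apply_symm_apply]
          exact hs e (by unfold px; rw [decide_eq_true_eq]; exact ⟨h1, h2⟩)
        · rintro (⟨_, h3⟩ | ⟨h3, _⟩)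
          · exact h3 h1
          · exact absurd h3 (ne_of_lt e.2)
      · refine ⟨e.1.2.1, ?_⟩
        unfold sub1
        rw [if_pos (Or.inr ⟨rfl, h2⟩)]
    · refine ⟨e.1.1.1, ?_⟩
      unfold sub1
      rw [if_pos (Or.inl ⟨rfl, h1⟩)]

end Sub

theorem final (ε : ℝ) (hε : 0 < ε) : ∃ c : ℝ, 0 < c ∧ ∃ K₀ : ℕ, ∀ n K : ℕ, K₀ ≤ K →
    (K : ℝ) ≤ Real.logb 2 n - 3 * Real.logb 2 (Real.logb 2 n) - 6 →
    ∃ (T0 : Tournament (Fin n)) (A B : Finset (Fin n)) (N : ℕ)
      (P Q : Fin N → Tournament (Fin n)), Disjoint A B ∧ 0 < N ∧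
      (∀ S T, SameOff T0 S A B → SameOff T0 T A B → (∀ a ∈ A, ∀ b ∈ B, S.arc a b → T.arc a b) →
        domNumber S ≤ K → domNumber T ≤ K) ∧
      (∀ i, SameOff T0 (P i) A B ∧ SameOff T0 (Q i) A B ∧
        domNumber (P i) ≤ K ∧ K < domNumber (Q i)) ∧
      ∀ (G : Type) [Finite G] (C : Circuit ({x // x ∈ A} × {x // x ∈ B}) G),
        (∃ d, C.DepthLE d) → Few C ((n : ℝ) ^ (2 - ε)) → (Nat.card G : ℝ) ≤ (n : ℝ) ^ (c * K) →
        ¬ Decides T0 A B K C ∧
        ({i | Differs A B C (P i) (Q i)}.ncard : ℝ) ≤ (n : ℝ) ^ (-c) * N := by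
  classical
  obtain ⟨c, hc, K₀, hnum⟩ := numbers3 ε hε
  refine ⟨c, hc, K₀, fun n K hK1 hK2 => ?_⟩
  obtain ⟨k, l, g, P, L, J, lam, hn2, rfl, hk3, hP, hl, hkq, hB, hcl, hJ, hLlam, hsize, hLJ, hG⟩ :=
    hnum n K hK1 hK2
  obtain ⟨T0, A, B, hAB, fa, fb, hT, hx⟩ := tour2 (k := k) (q := 2 ^ (3 * g)) (L := L) (J := J)
    (lam := lam) (n := n) hk3 hJ hLlam hsize
  have hg : 1 ≤ g := by
    rcases Nat.eq_zero_or_pos g with h | h
    · rw [h] at hkq
      norm_num at hkq
      omega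
    · exact h
  have hn1 : (1 : ℝ) < n := by exact_mod_cast hn2
  have hn0 : (0 : ℝ) < n := by linarith
  have hnc : (0 : ℝ) < (n : ℝ) ^ c := Real.rpow_pos_of_pos hn0 _
  have hneg : (n : ℝ) ^ (-c) * (n : ℝ) ^ c = 1 := by
    rw [← Real.rpow_add hn0]
    simp
  have hM0 : (0 : ℝ) ≤ (n : ℝ) ^ (2 - ε) := Real.rpow_nonneg (Nat.cast_nonneg _) _
  have hθ0 : (0 : ℝ) < (n : ℝ) ^ (-c) := Real.rpow_pos_of_pos hn0 _
  have hθ1 : (n : ℝ) ^ (-c) < 1 := Real.rpow_lt_one_of_one_lt_of_neg hn1 (by linarith)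
  -- the tournament of an input of the chain
  let sub : {x // x ∈ A} × {x // x ∈ B} → (Fin (L * J) × Ed k (2 ^ (3 * g))) ⊕ Bool :=
    fun e => sub1 (fa.symm e.1) (fb.symm e.2)
  have hTY : ∀ Y : Fin (L * J) × Ed k (2 ^ (3 * g)) → Bool, ∃ T, SameOff T0 T A B ∧
      inp A B T = pl sub Y ∧ (domNumber T ≤ k + 1 ↔ ∃ w, HasCl fun e => Y (w, e)) := by
    intro Y
    obtain ⟨T, hT1, hT2⟩ := hx (fun a b => pl sub Y (a, b) = true)
    refine ⟨T, hT1, ?_, ?_⟩
    · funext e
      unfold inp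
      rw [Bool.eq_iff_iff, decide_eq_true_eq, hT2 e.1 e.2]
    · rw [hT T hT1, ← sub1_iff]
      refine exists_congr (fun i0 => exists_congr (fun j0 => exists_congr (fun s =>
        forall_congr' (fun e => exists_congr (fun i => ?_)))))
      rw [hT2]
      unfold pl
      simp only [sub, Equiv.symm_apply_apply]
      cases sub1 (i0, i, s i) (j0, e) <;> exact Iff.rfl
  choose TY hTY1 hTY2 hTY3 using hTY
  have hpairs : ∃ (N : ℕ) (PP QQ : Fin N → Tournament (Fin n)), 0 < N ∧
        (∀ i, SameOff T0 (PP i) A B ∧ SameOff T0 (QQ i) A B ∧ domNumber (PP i) ≤ k + 1 ∧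
          k + 1 < domNumber (QQ i)) ∧
        ∀ (G : Type) [Finite G] (C : Circuit ({x // x ∈ A} × {x // x ∈ B}) G),
          (∃ d, C.DepthLE d) → Few C ((n : ℝ) ^ (2 - ε)) →
          (Nat.card G : ℝ) ≤ (n : ℝ) ^ (c * ((k + 1 : ℕ) : ℝ)) →
          ({i | Differs A B C (PP i) (QQ i)}.ncard : ℝ) ≤ (n : ℝ) ^ (-c) * N := by
    let eN : Ix (L * J) k (2 ^ (3 * g)) P ≃ Fin (Nat.card (Ix (L * J) k (2 ^ (3 * g)) P)) :=
      Finite.equivFin _
    refine ⟨Nat.card (Ix (L * J) k (2 ^ (3 * g)) P), fun i => TY (Xp (eN.symm i)),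
      fun i => TY (Xn (eN.symm i)), ?_, ?_, ?_⟩
    · -- there are pairs
      have hLJ0 : 0 < L * J := by
        have h1 : (0 : ℝ) < (L : ℝ) * J := by
          have h2 : (0 : ℝ) < (36 * (n : ℝ) ^ (2 - ε) + 2) * (n : ℝ) ^ c := by positivity
          linarith
        exact_mod_cast h1
      have hcf : Nonempty (Cf k (2 ^ (3 * g)) P) := by
        by_contra hcon
        rw [not_nonempty_iff] at hcon
        have h1 : (univ.filter (fun c : Ed k (2 ^ (3 * g)) → Fin P => HasCl (py c))) = univ := by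
          apply filter_true_of_mem
          intro c _
          by_contra h
          exact hcon.false ⟨c, h⟩
        have h2 := card_cl (k := k) (q := 2 ^ (3 * g)) (P := P) (by omega)
        rw [h1, card_univ] at h2
        have hNe : Nonempty (Ed k (2 ^ (3 * g)) → Fin P) := ⟨fun _ => ⟨0, by omega⟩⟩
        have h3 : 0 < Fintype.card (Ed k (2 ^ (3 * g)) → Fin P) := Fintype.card_pos
        have h4 : P ^ (k * (k - 1) / 2) ≤ (2 ^ (3 * g)) ^ k := by
          rw [mul_comm] at h2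
          exact Nat.le_of_mul_le_mul_right h2 h3
        have h5 : (P : ℝ) ^ (k * (k - 1) / 2) ≤ ((2 : ℝ) ^ (3 * g)) ^ k := by exact_mod_cast h4
        have h6 : (1 : ℝ) ≤ (n : ℝ) ^ c := Real.one_le_rpow hn1.le hc.le
        have h7 : (0 : ℝ) < ((2 : ℝ) ^ (3 * g)) ^ k := by positivity
        nlinarith
      have hne : Nonempty (Ix (L * J) k (2 ^ (3 * g)) P) :=
        ⟨(⟨0, hLJ0⟩, fun _ => Classical.choice hcf, fun _ => ⟨0, by positivity⟩)⟩
      exact Nat.card_pos
    · intro i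
      refine ⟨hTY1 _, hTY1 _, (hTY3 _).mpr (Xp_cl _), ?_⟩
      rw [← not_le]
      intro h
      exact Xn_cl (by omega) _ ((hTY3 _).mp h)
    · intro G _ C hC hfew hsize'
      obtain ⟨C', hC', hcons, hout, hSW, hCh⟩ := few_ctl C hC hM0 hfew
      have hVx : ∀ x, ∃ v, C'.Consistent x v := fun x => by
        obtain ⟨d, lev, h1, h2⟩ := hC'
        exact exists_consistent C' lev d (fun g => (h1 g).2) h2 x
      choose Vf hV using hVx
      set D : ℕ := ⌊36 * (n : ℝ) ^ (2 - ε) + 2⌋₊ with hD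
      have hDle : (D : ℝ) ≤ 36 * (n : ℝ) ^ (2 - ε) + 2 := Nat.floor_le (by positivity)
      have hmain := core (L := L * J) (k := k) (q := 2 ^ (3 * g)) (P := P) (r := g * l) (D := D)
        (by omega) (good_sys hP hl hg hkq hB) C' hC' (fun X v hX hv N => by
          rw [hD]
          exact Nat.le_floor (hCh X v hX hv N)) sub Vf hV (θ := (n : ℝ) ^ (-c)) hθ0.le ?_ ?_ ?_
      · have hle : ({i | Differs A B C (TY (Xp (eN.symm i))) (TY (Xn (eN.symm i)))} :
            Set (Fin (Nat.card (Ix (L * J) k (2 ^ (3 * g)) P)))).ncard ≤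
            ({i | Chg C' Vf (pl sub (Xn i)) (pl sub (Xp i))} :
              Set (Ix (L * J) k (2 ^ (3 * g)) P)).ncard := by
          refine Set.ncard_le_ncard_of_injOn eN.symm ?_ (eN.symm.injective.injOn)
            (Set.toFinite _)
          intro i hi
          obtain ⟨v, w, hv, hw, hvw⟩ := hi
          rw [hTY2] at hv hw
          have e1 : v = Vf (pl sub (Xp (eN.symm i))) :=
            cons_unique C hC _ _ _ hv ((hcons _ _).mp (hV _))
          have e2 : w = Vf (pl sub (Xn (eN.symm i))) :=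
            cons_unique C hC _ _ _ hw ((hcons _ _).mp (hV _))
          refine Or.inr ?_
          rw [hout, ← e1, ← e2]
          exact hvw.symm
        have hle' : (({i | Differs A B C (TY (Xp (eN.symm i))) (TY (Xn (eN.symm i)))} :
            Set (Fin (Nat.card (Ix (L * J) k (2 ^ (3 * g)) P)))).ncard : ℝ) ≤
            (({i | Chg C' Vf (pl sub (Xn i)) (pl sub (Xp i))} :
              Set (Ix (L * J) k (2 ^ (3 * g)) P)).ncard : ℝ) := by exact_mod_cast hle
        exact hle'.trans hmain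
      · -- the number of changes
        have h1 : 4 * ((D : ℝ) * (n : ℝ) ^ c) ≤ ((L * J : ℕ) : ℝ) := by
          push_cast
          refine le_trans ?_ hLJ
          gcongr
        have h2 := mul_le_mul_of_nonneg_left h1 hθ0.le
        calc 4 * (D : ℝ) = (n : ℝ) ^ (-c) * (4 * ((D : ℝ) * (n : ℝ) ^ c)) := by
              calc 4 * (D : ℝ) = 4 * D * 1 := (mul_one _).symm
                _ = 4 * D * ((n : ℝ) ^ (-c) * (n : ℝ) ^ c) := by rw [hneg]
                _ = (n : ℝ) ^ (-c) * (4 * ((D : ℝ) * (n : ℝ) ^ c)) := by ring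
          _ ≤ (n : ℝ) ^ (-c) * ((L * J : ℕ) : ℝ) := h2
      · have h2 := mul_le_mul_of_nonneg_left hcl hθ0.le
        push_cast
        calc 4 * ((2 : ℝ) ^ (3 * g)) ^ k =
              (n : ℝ) ^ (-c) * (4 * ((2 : ℝ) ^ (3 * g)) ^ k * (n : ℝ) ^ c) := by
              calc 4 * ((2 : ℝ) ^ (3 * g)) ^ k = 4 * ((2 : ℝ) ^ (3 * g)) ^ k * 1 :=
                    (mul_one _).symm
                _ = 4 * ((2 : ℝ) ^ (3 * g)) ^ k * ((n : ℝ) ^ (-c) * (n : ℝ) ^ c) := by rw [hneg]
                _ = _ := by ring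
          _ ≤ (n : ℝ) ^ (-c) * (P : ℝ) ^ (k * (k - 1) / 2) := h2
      · have h1 : 4 * (((Nat.card G + Nat.card (SW C') + 1 : ℕ) : ℝ) * (n : ℝ) ^ c) ≤
            (2 : ℝ) ^ (g * l) := by
          refine le_trans ?_ hG
          have h3 : ((Nat.card G + Nat.card (SW C') + 1 : ℕ) : ℝ) ≤
              (n : ℝ) ^ (c * ((k + 1 : ℕ) : ℝ)) + 9 * (n : ℝ) ^ (2 - ε) + 1 := by
            push_cast at hsize' ⊢
            linarith
          have h4 := mul_le_mul_of_nonneg_right h3 hnc.le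
          have h5 : 0 ≤ ((Nat.card G + Nat.card (SW C') + 1 : ℕ) : ℝ) * (n : ℝ) ^ c := by
            positivity
          linarith
        have h2 := mul_le_mul_of_nonneg_left h1 hθ0.le
        calc 4 * ((Nat.card G + Nat.card (SW C') + 1 : ℕ) : ℝ) =
              (n : ℝ) ^ (-c) * (4 * (((Nat.card G + Nat.card (SW C') + 1 : ℕ) : ℝ) *
                (n : ℝ) ^ c)) := by
              calc 4 * ((Nat.card G + Nat.card (SW C') + 1 : ℕ) : ℝ) =
                    4 * ((Nat.card G + Nat.card (SW C') + 1 : ℕ) : ℝ) * 1 := (mul_one _).symm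
                _ = 4 * ((Nat.card G + Nat.card (SW C') + 1 : ℕ) : ℝ) *
                    ((n : ℝ) ^ (-c) * (n : ℝ) ^ c) := by rw [hneg]
                _ = _ := by ring
          _ ≤ (n : ℝ) ^ (-c) * 2 ^ (g * l) := h2
  obtain ⟨N, PP, QQ, hN, hPQ, hall⟩ := hpairs
  refine ⟨T0, A, B, N, PP, QQ, hAB, hN, ?_, hPQ, ?_⟩
  · intro S T hS hT' harc hdom
    rw [hT S hS] at hdom
    rw [hT T hT']
    obtain ⟨i0, j0, s, hs⟩ := hdom
    refine ⟨i0, j0, s, fun e => ?_⟩
    obtain ⟨i, hi⟩ := hs e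
    exact ⟨i, harc _ (fa (i0, i, s i)).2 _ (fb (j0, e)).2 hi⟩
  · intro G _ C hC hfew hcon
    have h1 := hall G C hC hfew hcon
    refine ⟨fun hdec => ?_, h1⟩
    have h2 : ({i | Differs A B C (PP i) (QQ i)} : Set (Fin N)) = Set.univ := by
      ext i
      simp only [Set.mem_ofPred_eq, Set.mem_univ, iff_true]
      obtain ⟨h3, h4, h5, h6⟩ := hPQ i
      have hVx : ∀ x, ∃ v, C.Consistent x v := fun x => by
        obtain ⟨d, lev, h1, h2⟩ := hC
        exact exists_consistent C lev d (fun g => (h1 g).2) h2 x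
      obtain ⟨v, hv⟩ := hVx (inp A B (PP i))
      obtain ⟨w, hw⟩ := hVx (inp A B (QQ i))
      refine ⟨v, w, hv, hw, ?_⟩
      have h7 := (hdec _ h3 v hv).mpr h5
      have h8 : w C.out = false := by
        rw [Bool.eq_false_iff]
        intro h9
        exact absurd ((hdec _ h4 w hw).mp h9) (not_le.mpr h6)
      rw [h7, h8]
      decide
    rw [h2, Set.ncard_univ, Nat.card_eq_fintype_card, Fintype.card_fin] at h1
    have h3 : (0 : ℝ) < N := by exact_mod_cast hN
    nlinarith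

end Pool.Agent.DN
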