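import Pool.Agent.Lib.MP_66cd2e_lc.DN.Main2

/-!
The final estimates: few special gates, or special gates in few layers.
-/

namespace Pool.Agent.NEGS

open Pool.Agent.NEG

open Classical in
theorem core_bound (a : ℕ) (ha : 1 ≤ a)
    (hex : ∀ l : ℕ, a ≤ l → ∃ 𝒜 : Set ((Fin (l ^ 7) × Fin (l ^ 7) → Bool) → Prop),
      IsApp l (l ^ 7) 𝒜)
    (n s P : ℕ) (hP : 1 ≤ P) (G : Type) [Finite G]
    (C : Circuit (Fin (2 * n) × Fin (2 * n)) G) (hC : ∃ d, C.DepthLE d)
    (hcard : Nat.card G ≤ s) (hPM : DecidesPM n C)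
    (hD : ∀ (X : ℕ → Fin (2 * n) × Fin (2 * n) → Bool) (v : ℕ → G → Bool),
      (∀ i e, X i e = true → X (i + 1) e = true) → (∀ i, C.Consistent (X i) (v i)) →
      ∀ N, ((Finset.range N).filter (fun i => Ch C X v (fun _ => True) i)).card ≤ 2 * P)
    (hS : Nat.card (SW C) + 1 ≤ P) :
    n ≤ 16 * a ^ 7 * P * (Nat.log 2 (s + n) + 1) ^ 7 := by
  by_contra hcon
  push Not at hcon
  set l0 : ℕ := Nat.log 2 (s + n) + 1 with hl0
  have hl01 : 1 ≤ l0 := by omega
  have hsn : s + n < 2 ^ l0 := Nat.lt_pow_succ_log_self (by norm_num) (s + n)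
  set l : ℕ := a * l0 with hl
  have hal : a ≤ l := Nat.le_mul_of_pos_right a hl01
  have hl0l : l0 ≤ l := Nat.le_mul_of_pos_left l0 ha
  have hl1 : 1 ≤ l := ha.trans hal
  obtain ⟨𝒜, h𝒜⟩ := hex l hal
  have hpow : 2 ^ l0 ≤ 2 ^ l := Nat.pow_le_pow_right (by norm_num) hl0l
  have hT : 16 * P * l ^ 7 ≤ n := by
    calc 16 * P * l ^ 7 = 16 * a ^ 7 * P * l0 ^ 7 := by
          rw [hl, Nat.mul_pow]
          ring
      _ ≤ n := hcon.le
  have hq : 0 < l ^ 7 := by positivity
  have hT2 : 16 * P ≤ n := by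
    calc 16 * P = 16 * P * 1 := (Nat.mul_one _).symm
      _ ≤ 16 * P * l ^ 7 := Nat.mul_le_mul_left _ hq
      _ ≤ n := hT
  have h3 : 2 ^ l ≤ 2 ^ (3 * l) := Nat.pow_le_pow_right (by norm_num) (by omega)
  refine main_false2 (E := l) (s := s) (D := 2 * P) (L := 16 * P) h𝒜 hq C hC hcard (by omega) hD
    ?_ (by omega) (by omega) hT hPM
  generalize 2 ^ l = p1 at hpow h3
  generalize 2 ^ (3 * l) = p3 at h3 ⊢
  omega

open Classical in
theorem card_sw {I G : Type} [Fintype G] (C : Circuit I G) (t m : ℕ)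
    (ht : Fintype.card {s // ¬ C.Plain s} ≤ t) (hm : ∀ g, ¬ C.Plain g → C.arity g ≤ m) :
    Nat.card (SW C) ≤ m * 2 ^ t := by
  have e : SW C ≃ Σ s : {s // ¬ C.Plain s}, Fin (C.arity s) :=
    Equiv.subtypeSigmaEquiv (fun g => Fin (C.arity g)) (fun g => ¬ C.Plain g)
  rw [Nat.card_congr e, Nat.card_eq_fintype_card, Fintype.card_sigma]
  calc (∑ s : {s // ¬ C.Plain s}, Fintype.card (Fin (C.arity s)))
      ≤ ∑ _s : {s // ¬ C.Plain s}, m := by
        refine Finset.sum_le_sum (fun s _ => ?_)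
        rw [Fintype.card_fin]
        exact hm s s.2
    _ = Fintype.card {s // ¬ C.Plain s} * m := by
        rw [Finset.sum_const, Finset.card_univ, smul_eq_mul]
    _ ≤ t * m := Nat.mul_le_mul_right _ ht
    _ ≤ m * 2 ^ t := by
        rw [Nat.mul_comm]
        exact Nat.mul_le_mul_left _ Nat.lt_two_pow_self.le

open Classical in
theorem card_sw_layers {I G : Type} [Fintype G] (C : Circuit I G) (rk : G → ℕ) (r : ℕ) :
    (Finset.univ.filter (fun p : Σ g, Fin (C.arity g) => ¬ C.Plain p.1 ∧ rk p.1 < r)).card + 1 ≤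
      ∏ i ∈ Finset.range r, (1 + wires C rk i) := by
  induction r with
  | zero => simp
  | succ r ih =>
      rw [Finset.prod_range_succ]
      have h1 : (Finset.univ.filter
          (fun p : Σ g, Fin (C.arity g) => ¬ C.Plain p.1 ∧ rk p.1 < r + 1)).card ≤
          (Finset.univ.filter
            (fun p : Σ g, Fin (C.arity g) => ¬ C.Plain p.1 ∧ rk p.1 < r)).card +
          wires C rk r := by
        have h2 : wires C rk r = (Finset.univ.filter
            (fun p : Σ g, Fin (C.arity g) => ¬ C.Plain p.1 ∧ rk p.1 = r)).card := by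
          unfold wires
          rw [Nat.card_eq_fintype_card, Fintype.card_subtype]
        rw [h2]
        refine le_trans (Finset.card_le_card ?_) (Finset.card_union_le _ _)
        intro p hp
        rw [Finset.mem_filter] at hp
        rw [Finset.mem_union, Finset.mem_filter, Finset.mem_filter]
        rcases Nat.lt_succ_iff_lt_or_eq.mp hp.2.2 with h | h
        · exact Or.inl ⟨hp.1, hp.2.1, h⟩
        · exact Or.inr ⟨hp.1, hp.2.1, h⟩
      have h3 := Nat.mul_le_mul_right (1 + wires C rk r) ih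
      refine le_trans ?_ h3
      generalize (Finset.univ.filter
            (fun p : Σ g, Fin (C.arity g) => ¬ C.Plain p.1 ∧ rk p.1 < r)).card = x at h1
      have h4 : (x + 1) * (1 + wires C rk r) = x + wires C rk r + 1 + x * wires C rk r := by ring
      omega

theorem exp_bound2 (a : ℕ) (ha : 1 ≤ a)
    (hex : ∀ l : ℕ, a ≤ l → ∃ 𝒜 : Set ((Fin (l ^ 7) × Fin (l ^ 7) → Bool) → Prop),
      IsApp l (l ^ 7) 𝒜) :
    ∃ K : ℕ, ∀ (n s : ℕ) (G : Type) [Finite G]
      (C : Circuit (Fin (2 * n) × Fin (2 * n)) G), (∃ d, C.DepthLE d) →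
      Nat.card G ≤ s → DecidesPM n C →
      (∀ t m : ℕ, {g | ¬ C.Plain g}.ncard ≤ t → (∀ g, ¬ C.Plain g → C.arity g ≤ m) →
        n ≤ K * (m * 2 ^ t + 1) * (Nat.log 2 (s + n) + 1) ^ 7) ∧
      ∀ (r : ℕ) (rk : G → ℕ), Layered C rk r →
        n ≤ K * (∏ i ∈ Finset.range r, (1 + wires C rk i)) *
          (Nat.log 2 (s + n) + 1) ^ 7 := by
  classical
  refine ⟨16 * a ^ 7, fun n s G _ C hC hcard hPM => ⟨fun t m ht hm => ?_, fun r rk hrk => ?_⟩⟩
  · have : Fintype G := Fintype.ofFinite G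
    obtain ⟨d, lev, hlev1, hlev2⟩ := id hC
    let l : Lev C := ⟨lev, d, fun g => (hlev1 g).2, hlev2⟩
    have hsp : Fintype.card {s // ¬ C.Plain s} ≤ t := by
      rw [← Nat.card_eq_fintype_card]
      exact ht
    refine core_bound a ha hex n s (m * 2 ^ t + 1) (by omega) G C hC hcard hPM ?_ ?_
    · intro X v hX hv N
      exact (seq_count C l X v hX hv N).trans (card_idx C l t m hsp hm)
    · exact Nat.add_le_add_right (card_sw C t m hsp hm) 1
  · have : Fintype G := Fintype.ofFinite G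
    obtain ⟨d, lev, hlev1, hlev2⟩ := id hC
    let l : Lev C := ⟨lev, d, fun g => (hlev1 g).2, hlev2⟩
    have hP : 1 ≤ ∏ i ∈ Finset.range r, (1 + wires C rk i) :=
      Finset.one_le_prod' (fun i _ => Nat.le_add_right 1 _)
    refine core_bound a ha hex n s _ hP G C hC hcard hPM ?_ ?_
    · intro X v hX hv N
      have h1 := lay_count C l rk hrk.1 X v hX hv N r
      have h2 : ((Finset.range N).filter (fun i => Ch C X v (fun _ => True) i)).card ≤
          ((Finset.range N).filter (fun i => Ch C X v (fun s => rk s < r) i)).card := by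
        apply Finset.card_le_card
        intro i hi
        rw [Finset.mem_filter] at hi ⊢
        obtain ⟨hi1, g, hg, _, k, hk⟩ := hi
        exact ⟨hi1, g, hg, hrk.2 g hg, k, hk⟩
      omega
    · refine le_trans (Nat.add_le_add_right ?_ 1) (card_sw_layers C rk r)
      rw [Nat.card_eq_fintype_card, Fintype.card_subtype]
      apply Finset.card_le_card
      intro p hp
      rw [Finset.mem_filter] at hp ⊢
      exact ⟨hp.1, hp.2, hrk.2 p.1 hp.2⟩

end Pool.Agent.NEGS
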