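import Pool.Agent.Lib.MP_66cd2e_lc.DN.Fin8

/-!
Formulas: every gate feeds at most one wire.
-/

namespace Pool.Agent.NEGS

open Pool.Agent.NEG

variable {I G : Type}

/-- a formula: every gate feeds at most one wire (variables may be used many times) -/
def IsFormula (C : Circuit I G) : Prop :=
  ∀ (g : G) (p p' : Σ g, Fin (C.arity g)), C.src p.1 p.2 = Sum.inr g →
    C.src p'.1 p'.2 = Sum.inr g → p = p'

/-- there is a special gate weakly below the gate -/
inductive Mixed (C : Circuit I G) : G → Prop
  | special (g : G) (h : ¬ C.Plain g) : Mixed C g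
  | step (g : G) (i : Fin (C.arity g)) (g' : G) (h : C.src g i = Sum.inr g')
      (hg : Mixed C g') : Mixed C g

/-- the wire comes from a gate which has a special gate weakly below -/
def MW (C : Circuit I G) (p : Σ g, Fin (C.arity g)) : Prop :=
  ∃ g', C.src p.1 p.2 = Sum.inr g' ∧ Mixed C g'

/-- the special gates and the gates with two mixed inputs -/
def SS (C : Circuit I G) (g : G) : Prop :=
  ¬ C.Plain g ∨ ∃ i j : Fin (C.arity g), i ≠ j ∧ MW C ⟨g, i⟩ ∧ MW C ⟨g, j⟩

theorem mixed_of_ss (C : Circuit I G) {g : G} (h : SS C g) : Mixed C g := by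
  rcases h with h | ⟨i, j, _, ⟨g', h1, h2⟩, _⟩
  · exact Mixed.special g h
  · exact Mixed.step g i g' h1 h2

open Classical in
/-- there are at most as many gates with two mixed inputs as special gates -/
theorem card_branch [Fintype G] (C : Circuit I G) (hF : IsFormula C) :
    (Finset.univ.filter (fun g => C.Plain g ∧ SS C g)).card ≤
      (Finset.univ.filter (fun g => ¬ C.Plain g)).card := by
  -- the mixed wires
  let Wm : Finset (Σ g, Fin (C.arity g)) := Finset.univ.filter (fun p => MW C p)
  let PM : Finset G := Finset.univ.filter (fun g => C.Plain g ∧ Mixed C g)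
  let Br : Finset G := Finset.univ.filter (fun g => C.Plain g ∧ SS C g)
  let Sp : Finset G := Finset.univ.filter (fun g => ¬ C.Plain g)
  have hup : Wm.card ≤ PM.card + Sp.card := by
    have h1 : ∀ p : Σ g, Fin (C.arity g), ∃ g' : G, p ∈ Wm → C.src p.1 p.2 = Sum.inr g' ∧
        Mixed C g' := by
      intro p
      by_cases hp : p ∈ Wm
      · obtain ⟨g', h⟩ := (Finset.mem_filter.mp hp).2
        exact ⟨g', fun _ => h⟩
      · exact ⟨p.1, fun h => absurd h hp⟩
    choose f hf using h1
    have h2 : Wm.card ≤ (PM ∪ Sp).card := by
      apply Finset.card_le_card_of_injOn f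
      · intro p hp
        have h3 := (hf p (Finset.mem_coe.mp hp)).2
        rw [Finset.mem_coe, Finset.mem_union]
        by_cases h4 : C.Plain (f p)
        · exact Or.inl (Finset.mem_filter.mpr ⟨Finset.mem_univ _, h4, h3⟩)
        · exact Or.inr (Finset.mem_filter.mpr ⟨Finset.mem_univ _, h4⟩)
      · intro p hp p' hp' hpp
        have h3 := (hf p (Finset.mem_coe.mp hp)).1
        have h4 := (hf p' (Finset.mem_coe.mp hp')).1
        rw [← hpp] at h4
        exact hF (f p) p p' h3 h4
    exact h2.trans (Finset.card_union_le _ _)
  have hdown : PM.card + Br.card ≤ Wm.card := by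
    have h1 : ∀ g ∈ PM, ∃ p : Σ g, Fin (C.arity g), p ∈ Wm ∧ p.1 = g := by
      intro g hg
      obtain ⟨_, hp, hm⟩ := Finset.mem_filter.mp hg
      cases hm with
      | special _ h => exact absurd hp h
      | step _ i g' h hg' =>
          exact ⟨⟨g, i⟩, Finset.mem_filter.mpr ⟨Finset.mem_univ _, g', h, hg'⟩, rfl⟩
    have h2 : ∀ g ∈ Br, g ∈ PM ∧ ∃ p p' : Σ g, Fin (C.arity g), p ≠ p' ∧ p ∈ Wm ∧ p' ∈ Wm ∧
        p.1 = g ∧ p'.1 = g := by
      intro g hg
      obtain ⟨_, hp, hm⟩ := Finset.mem_filter.mp hg
      refine ⟨Finset.mem_filter.mpr ⟨Finset.mem_univ _, hp, mixed_of_ss C hm⟩, ?_⟩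
      rcases hm with h | ⟨i, j, hij, hi, hj⟩
      · exact absurd hp h
      · refine ⟨⟨g, i⟩, ⟨g, j⟩, ?_, Finset.mem_filter.mpr ⟨Finset.mem_univ _, hi⟩,
          Finset.mem_filter.mpr ⟨Finset.mem_univ _, hj⟩, rfl, rfl⟩
        intro h
        rw [Sigma.mk.injEq] at h
        exact hij (eq_of_heq h.2)
    -- count the wires gate by gate
    have h3 : ∑ g ∈ PM, (Wm.filter (fun p => p.1 = g)).card ≤ Wm.card := by
      rw [← Finset.card_biUnion]
      · apply Finset.card_le_card
        intro p hp
        rw [Finset.mem_biUnion] at hp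
        obtain ⟨g, _, hp⟩ := hp
        exact (Finset.mem_filter.mp hp).1
      · intro g _ g' _ hgg'
        rw [Function.onFun, Finset.disjoint_left]
        intro p hp hp'
        exact hgg' ((Finset.mem_filter.mp hp).2.symm.trans (Finset.mem_filter.mp hp').2)
    have h4 : PM.card + Br.card ≤ ∑ g ∈ PM, (Wm.filter (fun p => p.1 = g)).card := by
      have h5 : ∑ g ∈ PM, (1 + if g ∈ Br then 1 else 0) = PM.card + Br.card := by
        rw [Finset.sum_add_distrib, Finset.sum_const, smul_eq_mul, mul_one]
        congr 1
        rw [← Finset.card_filter]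
        congr 1
        ext g
        rw [Finset.mem_filter]
        exact ⟨fun h => h.2, fun h => ⟨(h2 g h).1, h⟩⟩
      rw [← h5]
      refine Finset.sum_le_sum (fun g hg => ?_)
      by_cases hb : g ∈ Br
      · rw [if_pos hb]
        obtain ⟨_, p, p', hne, hp, hp', hpg, hpg'⟩ := h2 g hb
        have : 1 < (Wm.filter (fun p => p.1 = g)).card := by
          rw [Finset.one_lt_card]
          exact ⟨p, Finset.mem_filter.mpr ⟨hp, hpg⟩, p', Finset.mem_filter.mpr ⟨hp', hpg'⟩, hne⟩
        omega
      · rw [if_neg hb]
        obtain ⟨p, hp, hpg⟩ := h1 g hg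
        have : 0 < (Wm.filter (fun p => p.1 = g)).card :=
          Finset.card_pos.mpr ⟨p, Finset.mem_filter.mpr ⟨hp, hpg⟩⟩
        omega
    omega
  change Br.card ≤ Sp.card
  omega

open Classical in
/-- the number of dummy inputs -/
noncomputable def pad (C : Circuit I G) (g : G) : ℕ := if SS C g then 3 else 0

/-- the circuit with three constant dummy inputs at the gates of `SS` -/
noncomputable def padded (C : Circuit I G) : Circuit I G where
  arity g := C.arity g + pad C g
  src g := Fin.addCases (C.src g) (fun _ => Sum.inl (Sum.inr false))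
  fn g f := C.fn g (fun i => f (Fin.castAdd _ i))
  out := C.out

theorem padded_src (C : Circuit I G) (g : G) (i : Fin (C.arity g)) :
    (padded C).src g (Fin.castAdd _ i) = C.src g i := by
  simp only [padded]
  exact Fin.addCases_left i

theorem padded_src_gate (C : Circuit I G) (g : G) (i : Fin ((padded C).arity g)) (g' : G)
    (h : (padded C).src g i = Sum.inr g') : ∃ j : Fin (C.arity g), i = Fin.castAdd _ j ∧
      C.src g j = Sum.inr g' := by
  revert h
  change Fin.addCases (C.src g) (fun _ => Sum.inl (Sum.inr false)) i = Sum.inr g' → _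
  refine Fin.addCases (fun j => ?_) (fun j => ?_) i
  · intro h
    rw [Fin.addCases_left] at h
    exact ⟨j, rfl, h⟩
  · intro h
    rw [Fin.addCases_right] at h
    cases h

theorem padded_plain (C : Circuit I G) (g : G) : (padded C).Plain g ↔ ¬ SS C g := by
  constructor
  · intro h hs
    have h1 := h.1
    simp only [padded, pad] at h1
    rw [if_pos hs] at h1
    omega
  · intro hs
    have hp : C.Plain g := by
      by_contra hp
      exact hs (Or.inl hp)
    refine ⟨?_, ?_⟩
    · simp only [padded, pad]
      rw [if_neg hs]
      exact hp.1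
    · intro a b hab h
      exact hp.2 _ _ (fun i hi => hab _ hi) h

theorem padded_consistent (C : Circuit I G) (x : I → Bool) (v : G → Bool) :
    (padded C).Consistent x v ↔ C.Consistent x v := by
  unfold Circuit.Consistent
  refine forall_congr' (fun g => ?_)
  have h : (padded C).fn g (fun i => Circuit.node x v ((padded C).src g i)) =
      C.fn g (fun i => Circuit.node x v (C.src g i)) := by
    change C.fn g (fun i => Circuit.node x v ((padded C).src g (Fin.castAdd _ i))) = _
    congr 1
    funext i
    rw [padded_src]
  rw [h]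

theorem padded_depth (C : Circuit I G) (d : ℕ) (h : C.DepthLE d) : (padded C).DepthLE d := by
  obtain ⟨lev, h1, h2⟩ := h
  refine ⟨lev, h1, fun g i g' hg => ?_⟩
  obtain ⟨j, _, hj⟩ := padded_src_gate C g i g' hg
  exact h2 g j g' hj

/-- the forced value of a gate without special gates below does not depend on the constants -/
theorem fval_unmixed (C : Circuit I G) (l : Lev (padded C)) (z z' : G → Bool) (x : I → Bool)
    (n : ℕ) : ∀ g, l.lev g ≤ n → ¬ Mixed C g →
      fval (padded C) l z x g = fval (padded C) l z' x g := by
  induction n with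
  | zero =>
      intro g hg hm
      have hp : (padded C).Plain g := (padded_plain C g).mpr (fun hs => hm (mixed_of_ss C hs))
      rw [fval_plain _ l z x g hp, fval_plain _ l z' x g hp]
      congr 1
      funext i
      cases h : (padded C).src g i with
      | inl a => cases a <;> rfl
      | inr g' =>
          have := l.lt g i g' h
          omega
  | succ n ih =>
      intro g hg hm
      have hp : (padded C).Plain g := (padded_plain C g).mpr (fun hs => hm (mixed_of_ss C hs))
      rw [fval_plain _ l z x g hp, fval_plain _ l z' x g hp]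
      congr 1
      funext i
      cases h : (padded C).src g i with
      | inl a => cases a <;> rfl
      | inr g' =>
          have hlt := l.lt g i g' h
          obtain ⟨j, _, hj⟩ := padded_src_gate C g i g' h
          simp only [Circuit.node]
          exact ih g' (by omega) (fun hm' => hm (Mixed.step g j g' hj hm'))

/-- the forced value of a gate depends on one constant only -/
theorem fval_const (C : Circuit I G) (l : Lev (padded C)) (z : G → Bool)
    (n : ℕ) : ∀ g, l.lev g ≤ n → ∃ ε : Bool, ∀ x : I → Bool,
      fval (padded C) l z x g = fval (padded C) l (fun _ => ε) x g := by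
  classical
  induction n with
  | zero =>
      intro g hg
      by_cases hp : (padded C).Plain g
      · refine ⟨false, fun x => ?_⟩
        rw [fval_plain _ l z x g hp, fval_plain _ l _ x g hp]
        congr 1
        funext i
        cases h : (padded C).src g i with
        | inl a => cases a <;> rfl
        | inr g' =>
            have := l.lt g i g' h
            omega
      · refine ⟨z g, fun x => ?_⟩
        rw [fval_special _ l z x g hp, fval_special _ l _ x g hp]
  | succ n ih =>
      intro g hg
      by_cases hp : (padded C).Plain g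
      · have hs := (padded_plain C g).mp hp
        -- the values of the inputs
        have hin : ∃ ε : Bool, ∀ (x : I → Bool) (i : Fin ((padded C).arity g)),
            Circuit.node x (fval (padded C) l z x) ((padded C).src g i) =
              Circuit.node x (fval (padded C) l (fun _ => ε) x) ((padded C).src g i) := by
          by_cases hm : ∃ (i : Fin (C.arity g)) (g' : G), C.src g i = Sum.inr g' ∧ Mixed C g'
          · obtain ⟨i0, g0, hi0, hg0⟩ := hm
            have hlt0 := l.lt g (Fin.castAdd _ i0) g0 (by rw [padded_src]; exact hi0)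
            obtain ⟨ε, hε⟩ := ih g0 (by omega)
            refine ⟨ε, fun x i => ?_⟩
            cases h : (padded C).src g i with
            | inl a => cases a <;> rfl
            | inr g' =>
                have hlt := l.lt g i g' h
                obtain ⟨j, _, hj⟩ := padded_src_gate C g i g' h
                simp only [Circuit.node]
                by_cases hm' : Mixed C g'
                · have hij : i0 = j := by
                    by_contra hne
                    exact hs (Or.inr ⟨i0, j, hne, ⟨g0, hi0, hg0⟩, ⟨g', hj, hm'⟩⟩)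
                  rw [← hij, hi0] at hj
                  rw [← Sum.inr.inj hj]
                  exact hε x
                · exact fval_unmixed C l z _ x n g' (by omega) hm'
          · refine ⟨false, fun x i => ?_⟩
            cases h : (padded C).src g i with
            | inl a => cases a <;> rfl
            | inr g' =>
                have hlt := l.lt g i g' h
                obtain ⟨j, _, hj⟩ := padded_src_gate C g i g' h
                simp only [Circuit.node]
                exact fval_unmixed C l z _ x n g' (by omega) (fun hm' => hm ⟨j, g', hj, hm'⟩)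
        obtain ⟨ε, hε⟩ := hin
        refine ⟨ε, fun x => ?_⟩
        rw [fval_plain _ l z x g hp, fval_plain _ l _ x g hp]
        congr 1
        funext i
        exact hε x i
      · refine ⟨z g, fun x => ?_⟩
        rw [fval_special _ l z x g hp, fval_special _ l _ x g hp]

theorem nv_const (C : Circuit I G) (l : Lev (padded C)) (z : G → Bool)
    (nd : (I ⊕ Bool) ⊕ G) : ∃ ε : Bool, ∀ x : I → Bool,
      nv (padded C) l z nd x = nv (padded C) l (fun _ => ε) nd x := by
  cases nd with
  | inl a => exact ⟨false, fun x => by cases a <;> rfl⟩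
  | inr g =>
      obtain ⟨ε, hε⟩ := fval_const C l z (l.lev g) g le_rfl
      exact ⟨ε, hε⟩

open Classical in
/-- in the padded formula the number of changes is at most twice the number of input wires -/
theorem formula_count [Fintype G] (C : Circuit I G) (l : Lev (padded C))
    (X : ℕ → I → Bool) (v : ℕ → G → Bool)
    (hX : ∀ i e, X i e = true → X (i + 1) e = true)
    (hv : ∀ i, (padded C).Consistent (X i) (v i)) (N : ℕ) :
    ((Finset.range N).filter (fun i => Ch (padded C) X v (fun _ => True) i)).card ≤
      2 * Nat.card (SW (padded C)) := by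
  let u : SW (padded C) × Bool → ℕ → Bool := fun k i =>
    nv (padded C) l (fun _ => k.2) ((padded C).src k.1.1.1 k.1.1.2) (X i)
  have key : ∀ i, Ch (padded C) X v (fun _ => True) i → ∃ k, u k i ≠ u k (i + 1) := by
    intro i hi
    let S : Finset G := Finset.univ.filter (fun s => ¬ (padded C).Plain s ∧
      ∃ k : Fin ((padded C).arity s),
        Circuit.node (X i) (v i) ((padded C).src s k) ≠
          Circuit.node (X (i + 1)) (v (i + 1)) ((padded C).src s k))
    have hS : S.Nonempty := by
      obtain ⟨s, hs, _, k, hk⟩ := hi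
      exact ⟨s, Finset.mem_filter.mpr ⟨Finset.mem_univ _, hs, k, hk⟩⟩
    obtain ⟨s, hsS, hmin⟩ := Finset.exists_min_image S l.lev hS
    obtain ⟨hs, k, hk⟩ := (Finset.mem_filter.mp hsS).2
    have hlow : ∀ s', ¬ (padded C).Plain s' → l.lev s' < l.lev s → v i s' = v (i + 1) s' := by
      intro s' hs' hlt
      refine special_eq (padded C) (hv i) (hv (i + 1)) s' (fun k' => ?_)
      by_contra hk'
      have := hmin s' (Finset.mem_filter.mpr ⟨Finset.mem_univ _, hs', k', hk'⟩)
      omega
    have hval : ∀ i', (∀ s', ¬ (padded C).Plain s' → l.lev s' < l.lev s → v i s' = v i' s') →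
        nv (padded C) l (v i) ((padded C).src s k) (X i') =
          Circuit.node (X i') (v i') ((padded C).src s k) := by
      intro i' hi'
      unfold nv
      cases hsrc : (padded C).src s k with
      | inl a => cases a <;> rfl
      | inr g' =>
          have hlt := l.lt s k g' hsrc
          exact fval_true (padded C) l _ (X i') (v i') (hv i') (l.lev g')
            (fun s' hs' hle => hi' s' hs' (by omega)) g' le_rfl
    obtain ⟨ε, hε⟩ := nv_const C l (v i) ((padded C).src s k)
    refine ⟨⟨⟨⟨s, k⟩, hs⟩, ε⟩, ?_⟩
    change nv (padded C) l (fun _ => ε) ((padded C).src s k) (X i) ≠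
      nv (padded C) l (fun _ => ε) ((padded C).src s k) (X (i + 1))
    rw [← hε, ← hε, hval i (fun _ _ _ => rfl), hval (i + 1) hlow]
    exact hk
  have hmono : ∀ k i i', i ≤ i' → u k i = true → u k i' = true := by
    intro k i i' hii'
    induction i', hii' using Nat.le_induction with
    | base => exact id
    | succ i' _ ih => exact fun h => nv_mono (padded C) l _ _ (hX i') (ih h)
  by_cases hne : Nonempty (SW (padded C) × Bool)
  · obtain ⟨k0⟩ := hne
    have key2 : ∀ i, ∃ k : SW (padded C) × Bool, Ch (padded C) X v (fun _ => True) i →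
        u k i ≠ u k (i + 1) := by
      intro i
      by_cases hi : Ch (padded C) X v (fun _ => True) i
      · obtain ⟨k, hk⟩ := key i hi
        exact ⟨k, fun _ => hk⟩
      · exact ⟨k0, fun h => absurd h hi⟩
    choose f hf using key2
    have hcard : 2 * Nat.card (SW (padded C)) =
        (Finset.univ : Finset (SW (padded C) × Bool)).card := by
      rw [Finset.card_univ, Fintype.card_prod, Fintype.card_bool, Nat.card_eq_fintype_card,
        Nat.mul_comm]
    rw [hcard]
    apply Finset.card_le_card_of_injOn f
    · intro i _
      exact Finset.mem_coe.mpr (Finset.mem_univ _)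
    · intro i hi i' hi' hff
      have h1 := hf i (Finset.mem_filter.mp (Finset.mem_coe.mp hi)).2
      have h2 := hf i' (Finset.mem_filter.mp (Finset.mem_coe.mp hi')).2
      have hlt : ∀ a b : ℕ, u (f a) a ≠ u (f a) (a + 1) → u (f b) b ≠ u (f b) (b + 1) →
          f a = f b → ¬ a < b := by
        intro a b ha hb hab hltab
        have e1 : u (f a) a = false := by
          cases h : u (f a) a
          · rfl
          · exact absurd (h.trans (hmono _ a (a + 1) (by omega) h).symm) ha
        have e2 : u (f a) (a + 1) = true := by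
          cases h : u (f a) (a + 1)
          · exact absurd (e1.trans h.symm) ha
          · rfl
        rw [hab] at e2
        have e3 := hmono _ (a + 1) b (by omega) e2
        exact hb (e3.trans (hmono _ b (b + 1) (by omega) e3).symm)
      have h3 := hlt i i' h1 h2 hff
      have h4 := hlt i' i h2 h1 hff.symm
      omega
  · have h0 : (Finset.range N).filter (fun i => Ch (padded C) X v (fun _ => True) i) = ∅ := by
      rw [Finset.filter_eq_empty_iff]
      intro i _ hi
      obtain ⟨k, _⟩ := key i hi
      exact hne ⟨k⟩
    rw [h0]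
    exact Nat.zero_le _

open Classical in
/-- the number of input wires of the padded formula -/
theorem card_sw_padded [Fintype G] (C : Circuit I G) (hF : IsFormula C) :
    Nat.card (SW (padded C)) ≤ 9 * Nat.card (SW C) := by
  have e : SW (padded C) ≃ Σ s : {s // ¬ (padded C).Plain s}, Fin ((padded C).arity s) :=
    Equiv.subtypeSigmaEquiv (fun g => Fin ((padded C).arity g)) (fun g => ¬ (padded C).Plain g)
  have e' : SW C ≃ Σ s : {s // ¬ C.Plain s}, Fin (C.arity s) :=
    Equiv.subtypeSigmaEquiv (fun g => Fin (C.arity g)) (fun g => ¬ C.Plain g)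
  rw [Nat.card_congr e, Nat.card_congr e', Nat.card_eq_fintype_card, Nat.card_eq_fintype_card,
    Fintype.card_sigma, Fintype.card_sigma]
  simp only [Fintype.card_fin]
  have h1 : (∑ s : {s // ¬ (padded C).Plain s}, (padded C).arity s) =
      ∑ s ∈ Finset.univ.filter (fun s => ¬ (padded C).Plain s), (padded C).arity s :=
    (Finset.sum_subtype (Finset.univ.filter (fun s => ¬ (padded C).Plain s)) (by simp)
      (fun s => (padded C).arity s)).symm
  have h2 : (∑ s : {s // ¬ C.Plain s}, C.arity s) =
      ∑ s ∈ Finset.univ.filter (fun s => ¬ C.Plain s), C.arity s :=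
    (Finset.sum_subtype (Finset.univ.filter (fun s => ¬ C.Plain s)) (by simp)
      (fun s => C.arity s)).symm
  rw [h1, h2]
  set Sp : Finset G := Finset.univ.filter (fun s => ¬ C.Plain s) with hSp
  set Br : Finset G := Finset.univ.filter (fun g => C.Plain g ∧ SS C g) with hBr
  have h3 : Finset.univ.filter (fun s => ¬ (padded C).Plain s) ⊆ Sp ∪ Br := by
    intro s hs
    have hs' : SS C s := by
      by_contra hcon
      exact (Finset.mem_filter.mp hs).2 ((padded_plain C s).mpr hcon)
    rw [Finset.mem_union]
    by_cases hp : C.Plain s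
    · exact Or.inr (Finset.mem_filter.mpr ⟨Finset.mem_univ _, hp, hs'⟩)
    · exact Or.inl (Finset.mem_filter.mpr ⟨Finset.mem_univ _, hp⟩)
  have har : ∀ s, (padded C).arity s ≤ C.arity s + 3 := by
    intro s
    simp only [padded, pad]
    split_ifs <;> omega
  have hcard : Sp.card ≤ ∑ s ∈ Sp, C.arity s := by
    rw [Finset.card_eq_sum_ones]
    refine Finset.sum_le_sum (fun s hs => ?_)
    have hs' := (Finset.mem_filter.mp hs).2
    by_contra h0
    apply hs'
    refine ⟨by omega, fun a b _ h4 => ?_⟩
    have h5 : a = b := by
      funext i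
      exact absurd i.2 (by omega)
    rw [← h5]
    exact h4
  have hbr : Br.card ≤ Sp.card := card_branch C hF
  have h4 : ∑ s ∈ Sp, (padded C).arity s ≤ ∑ s ∈ Sp, C.arity s + 3 * Sp.card := by
    calc ∑ s ∈ Sp, (padded C).arity s ≤ ∑ s ∈ Sp, (C.arity s + 3) :=
          Finset.sum_le_sum (fun s _ => har s)
      _ = ∑ s ∈ Sp, C.arity s + 3 * Sp.card := by
          rw [Finset.sum_add_distrib, Finset.sum_const, smul_eq_mul, Nat.mul_comm]
  have h5 : ∑ s ∈ Br, (padded C).arity s ≤ 5 * Br.card := by
    calc ∑ s ∈ Br, (padded C).arity s ≤ ∑ _s ∈ Br, 5 := by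
          refine Finset.sum_le_sum (fun s hs => ?_)
          have h6 := (Finset.mem_filter.mp hs).2.1.1
          have h7 := har s
          omega
      _ = 5 * Br.card := by rw [Finset.sum_const, smul_eq_mul, Nat.mul_comm]
  calc ∑ s ∈ Finset.univ.filter (fun s => ¬ (padded C).Plain s), (padded C).arity s
      ≤ ∑ s ∈ Sp ∪ Br, (padded C).arity s :=
        Finset.sum_le_sum_of_subset h3
    _ ≤ ∑ s ∈ Sp, (padded C).arity s + ∑ s ∈ Br, (padded C).arity s := by
        rw [← Finset.sum_union_inter]
        exact Nat.le_add_right _ _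
    _ ≤ 9 * ∑ s ∈ Sp, C.arity s := by omega

theorem formula_bound (a : ℕ) (ha : 1 ≤ a)
    (hex : ∀ l : ℕ, a ≤ l → ∃ 𝒜 : Set ((Fin (l ^ 7) × Fin (l ^ 7) → Bool) → Prop),
      IsApp l (l ^ 7) 𝒜)
    (n s : ℕ) (G : Type) [Finite G]
    (C : Circuit (Fin (2 * n) × Fin (2 * n)) G) (hC : ∃ d, C.DepthLE d)
    (hcard : Nat.card G ≤ s) (hPM : DecidesPM n C) (hF : IsFormula C) :
    n ≤ 16 * a ^ 7 * (9 * Nat.card (SW C) + 1) * (Nat.log 2 (s + n) + 1) ^ 7 := by
  classical
  have : Fintype G := Fintype.ofFinite G
  obtain ⟨d, hd⟩ := hC
  have hd' := padded_depth C d hd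
  obtain ⟨lev, hlev1, hlev2⟩ := id hd'
  let l : Lev (padded C) := ⟨lev, d, fun g => (hlev1 g).2, hlev2⟩
  have hcs := card_sw_padded C hF
  refine core_bound a ha hex n s (9 * Nat.card (SW C) + 1) (by omega) G (padded C) ⟨d, hd'⟩
    hcard ?_ ?_ ?_
  · intro H hH v hv
    exact hPM H hH v ((padded_consistent C _ v).mp hv)
  · intro X v hX hv N
    have h1 := formula_count C l X v hX hv N
    omega
  · omega

end Pool.Agent.NEGS
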