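import Pool.Agent.Lib.MP_66cd2e_lc.DN.App
import Pool.Agent.Lib.MP_66cd2e_lc.DN.Core

/-!
The approximators with the numbers of the core theorem.
-/

set_option autoImplicit false

namespace Pool.Agent.DN

open Finset Pool.Agent.NEG Pool.Agent.NEGS

theorem good_sys {k l g P : ℕ} (hP : 2 ≤ P) (hl : 2 ≤ l) (hg : 1 ≤ g)
    (hk : k + 1 ≤ 2 ^ (3 * g)) (hB : 28 * g * l ^ 2 * P ^ l ≤ 2 ^ g) :
    GoodSys k (2 ^ (3 * g)) P (g * l) := by
  classical
  obtain ⟨ep, en, S, hep, hen, hS⟩ := exists_sysP hP hl hg hk hB
  refine ⟨ep, en, S, ?_, ?_, ?_⟩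
  · rw [Fintype.card_fun, Fintype.card_fin, Fintype.card_fin]
    push_cast
    exact hep
  · rw [Fintype.card_fun, Fintype.card_fin]
    push_cast
    exact hen
  · intro a
    rcases hS a with h | h
    · exact Or.inl h
    · right
      have e1 : ({p | S.ev a (px p) = true} : Set (Fin k → Fin (2 ^ (3 * g)))) =
          ((univ.filter (fun s : Fin k → Fin (2 ^ (3 * g)) => S.ev a (px s) = true) :
            Finset _) : Set _) := by
        ext p
        simp
      have e2 : ({p | S.ev a (py p) = true} : Set (Ed k (2 ^ (3 * g)) → Fin P)) =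
          ((univ.filter (fun c : Ed k (2 ^ (3 * g)) → Fin P => S.ev a (py c) = true) :
            Finset _) : Set _) := by
        ext p
        simp
      rw [e1, e2, Set.ncard_coe_finset, Set.ncard_coe_finset, Fintype.card_fun,
        Fintype.card_fun, Fintype.card_fin, Fintype.card_fin, Fintype.card_fin]
      exact_mod_cast h

end Pool.Agent.DN
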