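import Pool.Agent.Lib.MP_0087d5_lc.NEGS.Main

/-!
The number of changes of the inputs of the special gates along an increasing chain of inputs.
-/

namespace Pool.Agent.NEGS

open Pool.Agent.NEG

/-- a sequence of bits which can only rise outside `A` changes outside `A` at most once more
than the number of elements of `A` -/
theorem rises_le (b : ℕ → Bool) (A : Finset ℕ) (N : ℕ)
    (h : ∀ i < N, i ∉ A → b i = true → b (i + 1) = true) :
    ((Finset.range N).filter (fun i => i ∉ A ∧ b i ≠ b (i + 1))).card ≤
      ((Finset.range N).filter (fun i => i ∈ A)).card + (if b N = true then 1 else 0) := by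
  induction N with
  | zero => simp
  | succ N ih =>
      have ih' := ih (fun i hi => h i (by omega))
      rw [Finset.range_add_one, Finset.filter_insert, Finset.filter_insert]
      by_cases hA : N ∈ A
      · rw [if_neg (fun hh => hh.1 hA), if_pos hA, Finset.card_insert_of_notMem (by simp)]
        split_ifs at ih' ⊢ <;> omega
      · rw [if_neg hA]
        by_cases hb : b N = true
        · have h1 := h N (by omega) hA hb
          rw [if_neg (fun hh => hh.2 (hb.trans h1.symm)), if_pos h1]
          rw [if_pos hb] at ih'
          exact ih'
        · rw [if_neg hb] at ih'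
          by_cases h1 : b (N + 1) = true
          · rw [if_pos h1]
            split_ifs
            · rw [Finset.card_insert_of_notMem (by simp)]
              omega
            · omega
          · have h2 : b N = b (N + 1) := by
              rw [Bool.eq_false_iff.mpr hb, Bool.eq_false_iff.mpr h1]
            rw [if_neg (fun hh => hh.2 h2), if_neg h1]
            exact ih'

section Chain

variable {I G : Type}

/-- a node whose special gates below do not change can only rise -/
theorem node_step (C : Circuit I G) (l : Lev C) (n : ℕ) {x y : I → Bool}
    (hxy : ∀ i, x i = true → y i = true) {v w : G → Bool} (hv : C.Consistent x v)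
    (hw : C.Consistent y w) (hz : ∀ s, ¬ C.Plain s → l.lev s ≤ n → v s = w s)
    (nd : (I ⊕ Bool) ⊕ G) (hnd : ∀ g, nd = Sum.inr g → l.lev g ≤ n)
    (h : Circuit.node x v nd = true) : Circuit.node y w nd = true := by
  cases nd with
  | inl a =>
      cases a with
      | inl j => exact hxy j h
      | inr b => exact h
  | inr g =>
      have hg := hnd g rfl
      have h1 := fval_true C l v x v hv n (fun s _ _ => rfl) g hg
      have h2 := fval_true C l v y w hw n hz g hg
      simp only [Circuit.node] at h ⊢
      rw [← h2]
      rw [← h1] at h
      exact fval_mono C l v hxy n g hg h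

/-- some input of a special gate in `S` changes at the step `i` of the chain -/
def Ch (C : Circuit I G) (X : ℕ → I → Bool) (v : ℕ → G → Bool) (S : G → Prop) (i : ℕ) : Prop :=
  ∃ s, ¬ C.Plain s ∧ S s ∧ ∃ k : Fin (C.arity s),
    Circuit.node (X i) (v i) (C.src s k) ≠ Circuit.node (X (i + 1)) (v (i + 1)) (C.src s k)

/-- special gates whose inputs do not change do not change -/
theorem special_eq (C : Circuit I G) {x y : I → Bool} {v w : G → Bool} (hv : C.Consistent x v)
    (hw : C.Consistent y w) (s : G)
    (h : ∀ k : Fin (C.arity s), Circuit.node x v (C.src s k) = Circuit.node y w (C.src s k)) :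
    v s = w s := by
  rw [hv s, hw s]
  congr 1
  funext k
  exact h k

/-- the special gates lie in the layers `0, ..., r - 1`: `rk` does not decrease along the wires
and increases along the wires which leave a special gate, so `rk g` is at least the number of
special gates on any path which ends in `g` (without `g`) -/
def Layered (C : Circuit I G) (rk : G → ℕ) (r : ℕ) : Prop :=
  (∀ g i g', C.src g i = Sum.inr g' → rk g' ≤ rk g ∧ (¬ C.Plain g' → rk g' < rk g)) ∧
    ∀ g, ¬ C.Plain g → rk g < r

/-- the number of input wires of the special gates in the layer `i` -/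
noncomputable def wires (C : Circuit I G) (rk : G → ℕ) (i : ℕ) : ℕ :=
  Nat.card {p : Σ g, Fin (C.arity g) // ¬ C.Plain p.1 ∧ rk p.1 = i}

open Classical in
/-- levels in which the special gates of layer `i` come after the plain gates of layer `i` -/
noncomputable def layLev (C : Circuit I G) (l : Lev C) (rk : G → ℕ)
    (hrk : ∀ g i g', C.src g i = Sum.inr g' → rk g' ≤ rk g ∧ (¬ C.Plain g' → rk g' < rk g))
    (R : ℕ) (hR : ∀ g, rk g ≤ R) : Lev C where
  lev g := (2 * rk g + if C.Plain g then 0 else 1) * (l.top + 1) + l.lev g
  top := (2 * R + 1) * (l.top + 1) + l.top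
  le_top g := by
    have h1 : 2 * rk g + (if C.Plain g then 0 else 1) ≤ 2 * R + 1 := by
      have := hR g
      split_ifs <;> omega
    exact Nat.add_le_add (Nat.mul_le_mul_right _ h1) (l.le_top g)
  lt g i g' h := by
    have h1 := hrk g i g' h
    have h2 := l.lt g i g' h
    by_cases hp' : C.Plain g'
    · have h3 : 2 * rk g' + (if C.Plain g' then 0 else 1) ≤
          2 * rk g + (if C.Plain g then 0 else 1) := by
        rw [if_pos hp']
        have := h1.1
        split_ifs <;> omega
      exact Nat.add_lt_add_of_le_of_lt (Nat.mul_le_mul_right _ h3) h2
    · have h3 : 2 * rk g' + (if C.Plain g' then 0 else 1) + 1 ≤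
          2 * rk g + (if C.Plain g then 0 else 1) := by
        rw [if_neg hp']
        have := h1.2 hp'
        split_ifs <;> omega
      have h4 := Nat.mul_le_mul_right (l.top + 1) h3
      have h5 := l.le_top g'
      have h6 : (2 * rk g' + (if C.Plain g' then 0 else 1) + 1) * (l.top + 1) =
        (2 * rk g' + (if C.Plain g' then 0 else 1)) * (l.top + 1) + (l.top + 1) := by ring
      omega

open Classical in
/-- the number of changes in the layers below `r`, plus one, is at most the product of one
plus the numbers of input wires -/
theorem lay_count [Finite G] (C : Circuit I G) (l : Lev C) (rk : G → ℕ)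
    (hrk : ∀ g i g', C.src g i = Sum.inr g' → rk g' ≤ rk g ∧ (¬ C.Plain g' → rk g' < rk g))
    (X : ℕ → I → Bool) (v : ℕ → G → Bool) (hX : ∀ i e, X i e = true → X (i + 1) e = true)
    (hv : ∀ i, C.Consistent (X i) (v i)) (N r : ℕ) :
    ((Finset.range N).filter (fun i => Ch C X v (fun s => rk s < r) i)).card + 1 ≤
      ∏ i ∈ Finset.range r, (1 + wires C rk i) := by
  have : Fintype G := Fintype.ofFinite G
  obtain ⟨R, hR⟩ : ∃ R, ∀ g, rk g ≤ R :=
    ⟨∑ g, rk g, fun g => Finset.single_le_sum (fun _ _ => Nat.zero_le _) (Finset.mem_univ g)⟩
  induction r with
  | zero =>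
      have h0 : (Finset.range N).filter (fun i => Ch C X v (fun s => rk s < 0) i) = ∅ := by
        rw [Finset.filter_eq_empty_iff]
        rintro i _ ⟨s, _, hs, _⟩
        exact absurd hs (Nat.not_lt_zero _)
      rw [h0]
      simp
  | succ r ih =>
      set A : Finset ℕ := (Finset.range N).filter (fun i => Ch C X v (fun s => rk s < r) i)
        with hA
      let b : (Σ g, Fin (C.arity g)) → ℕ → Bool := fun p i =>
        Circuit.node (X i) (v i) (C.src p.1 p.2)
      -- outside `A` the inputs of the layer `r` can only rise
      have hstep : ∀ p : Σ g, Fin (C.arity g), ¬ C.Plain p.1 → rk p.1 = r → ∀ i < N, i ∉ A →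
          b p i = true → b p (i + 1) = true := by
        intro p hp hpr i hi hiA hb
        have hnc : ¬ Ch C X v (fun s => rk s < r) i := fun hc =>
          hiA (Finset.mem_filter.mpr ⟨Finset.mem_range.mpr hi, hc⟩)
        refine node_step C (layLev C l rk hrk R hR) ((2 * r + 1) * (l.top + 1) - 1) (hX i)
          (hv i) (hv (i + 1)) ?_ _ ?_ hb
        · intro s hs hl
          have hsr : rk s < r := by
            by_contra hcon
            push Not at hcon
            have h1 : (2 * r + 1) * (l.top + 1) ≤ (layLev C l rk hrk R hR).lev s := by
              simp only [layLev]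
              rw [if_neg hs]
              exact (Nat.mul_le_mul_right _ (by omega)).trans (Nat.le_add_right _ _)
            have h2 : 0 < (2 * r + 1) * (l.top + 1) := by positivity
            omega
          refine special_eq C (hv i) (hv (i + 1)) s (fun k => ?_)
          by_contra hk
          exact hnc ⟨s, hs, hsr, k, hk⟩
        · intro g hg
          have h1 := hrk p.1 p.2 g hg
          rw [hpr] at h1
          have h2 : 2 * rk g + (if C.Plain g then 0 else 1) ≤ 2 * r := by
            by_cases hpg : C.Plain g
            · rw [if_pos hpg]
              have := h1.1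
              omega
            · rw [if_neg hpg]
              have := h1.2 hpg
              omega
          have h3 : (layLev C l rk hrk R hR).lev g ≤ 2 * r * (l.top + 1) + l.top := by
            simp only [layLev]
            exact Nat.add_le_add (Nat.mul_le_mul_right _ h2) (l.le_top g)
          have h4 : (2 * r + 1) * (l.top + 1) = 2 * r * (l.top + 1) + (l.top + 1) := by ring
          omega
      have hsub : (Finset.range N).filter (fun i => Ch C X v (fun s => rk s < r + 1) i) ⊆
          A ∪ (Finset.univ : Finset {p : Σ g, Fin (C.arity g) // ¬ C.Plain p.1 ∧ rk p.1 = r}).biUnion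
            (fun p => (Finset.range N).filter (fun i => i ∉ A ∧ b p.1 i ≠ b p.1 (i + 1))) := by
        intro i hi
        rw [Finset.mem_filter] at hi
        rw [Finset.mem_union]
        by_cases hiA : i ∈ A
        · exact Or.inl hiA
        · right
          obtain ⟨s, hs, hsr, k, hk⟩ := hi.2
          have hsr' : rk s = r := by
            by_contra hne
            apply hiA
            exact Finset.mem_filter.mpr ⟨hi.1, s, hs, by omega, k, hk⟩
          rw [Finset.mem_biUnion]
          exact ⟨⟨⟨s, k⟩, hs, hsr'⟩, Finset.mem_univ _,
            Finset.mem_filter.mpr ⟨hi.1, hiA, hk⟩⟩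
      have hone : ∀ p : {p : Σ g, Fin (C.arity g) // ¬ C.Plain p.1 ∧ rk p.1 = r},
          ((Finset.range N).filter (fun i => i ∉ A ∧ b p.1 i ≠ b p.1 (i + 1))).card ≤
            A.card + 1 := by
        intro p
        have h1 := rises_le (b p.1) A N (hstep p.1 p.2.1 p.2.2)
        have h2 : ((Finset.range N).filter (fun i => i ∈ A)).card ≤ A.card := by
          apply Finset.card_le_card
          intro i hi
          exact (Finset.mem_filter.mp hi).2
        have h3 : (if b p.1 N = true then 1 else 0) ≤ 1 := by split_ifs <;> omega
        omega
      have hcard : ((Finset.range N).filter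
          (fun i => Ch C X v (fun s => rk s < r + 1) i)).card ≤
          A.card + wires C rk r * (A.card + 1) := by
        calc ((Finset.range N).filter (fun i => Ch C X v (fun s => rk s < r + 1) i)).card
            ≤ _ := Finset.card_le_card hsub
          _ ≤ A.card + _ := Finset.card_union_le _ _
          _ ≤ A.card + ∑ _p : {p : Σ g, Fin (C.arity g) // ¬ C.Plain p.1 ∧ rk p.1 = r},
              (A.card + 1) := by
              apply Nat.add_le_add_left
              exact Finset.card_biUnion_le.trans (Finset.sum_le_sum (fun p _ => hone p))
          _ = A.card + wires C rk r * (A.card + 1) := by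
              rw [Finset.sum_const, Finset.card_univ, smul_eq_mul]
              unfold wires
              rw [Nat.card_eq_fintype_card]
      rw [Finset.prod_range_succ]
      have h5 : (A.card + 1) * (1 + wires C rk r) ≤
          (∏ i ∈ Finset.range r, (1 + wires C rk i)) * (1 + wires C rk r) :=
        Nat.mul_le_mul_right _ ih
      have h6 : (A.card + 1) * (1 + wires C rk r) =
        A.card + wires C rk r * (A.card + 1) + 1 := by ring
      omega

end Chain

end Pool.Agent.NEGS
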