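import Pool.Agent.Lib.MP_0087d5_lc.NEGS.Pick

/-!
The choice of a block at which few changes happen, for an arbitrary relation between two
inputs, and perfect matchings of the members of the chain.
-/

namespace Pool.Agent.NEGS

open Pool.Agent.NEG

variable {n q L : ℕ} (hq : 0 < q)

/-- all members of the chain have a perfect matching -/
theorem bpm_W (m : ℕ) (t : Fin L → Equiv.Perm (Fin q)) (hn : L * q ≤ n) :
    BPM n (W (n := n) hq m t) := by
  -- the permutation which is `t` in all blocks
  have hlt : ∀ (a : Fin n) (h : (a : ℕ) / q < L) (s : Equiv.Perm (Fin q)),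
      (a : ℕ) / q * q + (s (ps hq a) : ℕ) < n := by
    intro a h s
    have h1 := (s (ps hq a)).2
    have h2 : ((a : ℕ) / q + 1) * q ≤ L * q := Nat.mul_le_mul_right q h
    have h3 : ((a : ℕ) / q + 1) * q = (a : ℕ) / q * q + q := by ring
    omega
  let g : (Fin L → Equiv.Perm (Fin q)) → Fin n → Fin n := fun t a =>
    if h : (a : ℕ) / q < L then ⟨(a : ℕ) / q * q + (t ⟨(a : ℕ) / q, h⟩ (ps hq a) : ℕ), hlt a h _⟩
    else a
  have hdiv : ∀ t (a : Fin n), ((g t a : ℕ)) / q = (a : ℕ) / q := by
    intro t a
    simp only [g]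
    by_cases h : (a : ℕ) / q < L
    · rw [dif_pos h]
      simp only
      rw [Nat.add_comm, Nat.add_mul_div_right _ _ hq, Nat.div_eq_of_lt (t ⟨_, h⟩ (ps hq a)).2,
        Nat.zero_add]
    · rw [dif_neg h]
  have hps : ∀ t (a : Fin n) (h : (a : ℕ) / q < L), ps hq (g t a) = t ⟨(a : ℕ) / q, h⟩ (ps hq a) := by
    intro t a h
    apply Fin.ext
    simp only [ps, g]
    rw [dif_pos h]
    simp only
    rw [Nat.add_comm, Nat.add_mul_mod_self_right, Nat.mod_eq_of_lt]
    exact (t ⟨_, h⟩ _).2
  have hinv : ∀ t (a : Fin n), g (fun i => (t i).symm) (g t a) = a := by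
    intro t a
    by_cases h : (a : ℕ) / q < L
    · have h' : ((g t a : Fin n) : ℕ) / q < L := by rw [hdiv]; exact h
      apply Fin.ext
      have e1 : ((g (fun i => (t i).symm) (g t a) : Fin n) : ℕ) =
          ((g t a : Fin n) : ℕ) / q * q +
            ((t ⟨((g t a : Fin n) : ℕ) / q, h'⟩).symm (ps hq (g t a)) : ℕ) := by
        simp only [g]
        rw [dif_pos (by
          have := h'
          simp only [g] at this
          exact this)]
      rw [e1, hps t a h]
      have e2 : (⟨((g t a : Fin n) : ℕ) / q, h'⟩ : Fin L) = ⟨(a : ℕ) / q, h⟩ :=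
        Fin.ext (hdiv t a)
      rw [e2, Equiv.symm_apply_apply, hdiv]
      simp only [ps]
      rw [Nat.mul_comm]
      exact Nat.div_add_mod _ _
    · have e1 : g t a = a := by
        simp only [g]
        rw [dif_neg h]
      rw [e1]
      simp only [g]
      rw [dif_neg h]
  refine ⟨⟨g t, g (fun i => (t i).symm), fun a => hinv t a, fun a => ?_⟩, fun a => ?_⟩
  · have := hinv (fun i => (t i).symm) a
    simpa using this
  · change W hq m t (a, g t a) = true
    unfold W
    by_cases h : (a : ℕ) / q < L
    · have hs : Same q L (a, g t a) := ⟨(hdiv t a).symm, h⟩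
      rw [dif_pos hs]
      simp only [Bool.or_eq_true, decide_eq_true_eq]
      right
      exact (hps t a h).symm
    · have hs : ¬ Same q L (a, g t a) := fun hs => h hs.2
      rw [dif_neg hs]
      simp only [decide_eq_true_eq, g]
      rw [dif_neg h]

open Classical in
/-- a relation which holds for at most `D` consecutive pairs of every chain holds for at most
an eighth of the permutations of some block -/
theorem chain_pick2 (D : ℕ) (hL : 8 * D ≤ L) (hL0 : 0 < L)
    (Q : (Fin n × Fin n → Bool) → (Fin n × Fin n → Bool) → Prop)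
    (hQ : ∀ t : Fin L → Equiv.Perm (Fin q),
      (Finset.univ.filter (fun j : Fin L => Q (W hq j t) (W hq (j + 1) t))).card ≤ D) :
    ∃ (j : Fin L) (t : Fin L → Equiv.Perm (Fin q)),
      8 * (Finset.univ.filter (fun p : Equiv.Perm (Fin q) =>
        Q (pl (sb hq j t) (xin p)) (pl (sb hq j t) (fun _ => true)))).card ≤ q.factorial := by
  let P : ℕ → (Fin L → Equiv.Perm (Fin q)) → Prop := fun j t => Q (W hq j t) (W hq (j + 1) t)
  let J : Fin L → ℕ := fun j => (Finset.univ.filter
    (fun p : Fin L → Equiv.Perm (Fin q) => P j p)).card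
  have hsum : ∑ j, J j ≤ D * Fintype.card (Fin L → Equiv.Perm (Fin q)) := by
    calc ∑ j, J j = ∑ j : Fin L, ∑ p : Fin L → Equiv.Perm (Fin q),
          (if P j p then 1 else 0) := by
          refine Finset.sum_congr rfl (fun j _ => ?_)
          simp only [J, Finset.card_filter]
      _ = ∑ p : Fin L → Equiv.Perm (Fin q), ∑ j : Fin L,
          (if P j p then 1 else 0) := Finset.sum_comm
      _ ≤ ∑ _p : Fin L → Equiv.Perm (Fin q), D := by
          refine Finset.sum_le_sum (fun p _ => ?_)
          have := hQ p
          rw [Finset.card_filter] at this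
          exact this
      _ = D * Fintype.card (Fin L → Equiv.Perm (Fin q)) := by
          rw [Finset.sum_const, Finset.card_univ, smul_eq_mul, Nat.mul_comm]
  have hj : ∃ j, 8 * J j ≤ Fintype.card (Fin L → Equiv.Perm (Fin q)) := by
    by_contra hcon
    push Not at hcon
    have h1 : ∑ _j : Fin L, Fintype.card (Fin L → Equiv.Perm (Fin q)) < ∑ j, 8 * J j := by
      apply Finset.sum_lt_sum_of_nonempty
      · exact ⟨⟨0, hL0⟩, Finset.mem_univ _⟩
      · intro j _
        exact hcon j
    rw [Finset.sum_const, Finset.card_univ, Fintype.card_fin, smul_eq_mul,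
      ← Finset.mul_sum] at h1
    have h2 : 8 * (D * Fintype.card (Fin L → Equiv.Perm (Fin q))) ≤
        L * Fintype.card (Fin L → Equiv.Perm (Fin q)) := by
      rw [← Nat.mul_assoc]
      exact Nat.mul_le_mul_right _ hL
    omega
  obtain ⟨j, hj⟩ := hj
  let A : (Fin L → Equiv.Perm (Fin q)) → ℕ := fun t => (Finset.univ.filter
    (fun p : Equiv.Perm (Fin q) => P j (Function.update t j p))).card
  have hinv : Function.Involutive (fun p : (Fin L → Equiv.Perm (Fin q)) × Equiv.Perm (Fin q) =>
      (Function.update p.1 j p.2, p.1 j)) := by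
    intro p
    simp
  have hA : ∑ t, A t = q.factorial * J j := by
    calc ∑ t, A t = ∑ t : Fin L → Equiv.Perm (Fin q), ∑ s : Equiv.Perm (Fin q),
          (if P j (Function.update t j s) then 1 else 0) := by
          refine Finset.sum_congr rfl (fun t _ => ?_)
          simp only [A, Finset.card_filter]
      _ = ∑ t : Fin L → Equiv.Perm (Fin q), ∑ _s : Equiv.Perm (Fin q),
          (if P j t then 1 else 0) := by
          rw [← Fintype.sum_prod_type' (f := fun t s =>
              if P j (Function.update t j s) then 1 else 0),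
            ← Fintype.sum_prod_type' (f := fun (t : Fin L → Equiv.Perm (Fin q))
              (_ : Equiv.Perm (Fin q)) => if P j t then 1 else 0)]
          exact Equiv.sum_comp hinv.toPerm (fun p : (Fin L → Equiv.Perm (Fin q)) ×
            Equiv.Perm (Fin q) => if P j p.1 then 1 else 0)
      _ = q.factorial * J j := by
          simp only [J, Finset.card_filter, Finset.sum_const, Finset.card_univ,
            Fintype.card_perm, Fintype.card_fin, smul_eq_mul]
          rw [Finset.mul_sum]
  have ht : ∃ t, 8 * A t ≤ q.factorial := by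
    by_contra hcon
    push Not at hcon
    have h1 : ∑ _t : Fin L → Equiv.Perm (Fin q), q.factorial < ∑ t, 8 * A t := by
      apply Finset.sum_lt_sum_of_nonempty
      · exact Finset.univ_nonempty
      · intro t _
        exact hcon t
    rw [Finset.sum_const, Finset.card_univ, smul_eq_mul, ← Finset.mul_sum, hA] at h1
    have h2 : 8 * (q.factorial * J j) ≤
        q.factorial * Fintype.card (Fin L → Equiv.Perm (Fin q)) := by
      calc 8 * (q.factorial * J j) = q.factorial * (8 * J j) := by ring
        _ ≤ q.factorial * Fintype.card (Fin L → Equiv.Perm (Fin q)) :=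
          Nat.mul_le_mul_left _ hj
    rw [Nat.mul_comm (Fintype.card _)] at h1
    omega
  obtain ⟨t, ht⟩ := ht
  refine ⟨j, t, ?_⟩
  have heq : (Finset.univ.filter (fun p : Equiv.Perm (Fin q) =>
        Q (pl (sb hq j t) (xin p)) (pl (sb hq j t) (fun _ => true)))) =
      (Finset.univ.filter (fun p : Equiv.Perm (Fin q) => P j (Function.update t j p))) := by
    apply Finset.filter_congr
    intro p _
    simp only [P]
    rw [pl_sb_perm, pl_sb_one, W_update]
  rw [heq]
  exact ht

end Pool.Agent.NEGS
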