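import Pool.Agent.Lib.MP_66cd2e_lc.DN.Lay
import Pool.Agent.Lib.MP_66cd2e_lc.DN.Pick2

/-!
The contradiction for circuits whose special gates have few changes of their inputs along
every increasing chain.
-/

namespace Pool.Agent.NEGS

open Pool.Agent.NEG

section Final2

variable {n q : ℕ} {G : Type}

/-- the forced values are the true values if all special gates have their true values -/
theorem nv_true {I : Type} (C : Circuit I G) (l : Lev C) (z : G → Bool) (x : I → Bool)
    (v : G → Bool) (hv : C.Consistent x v) (hz : ∀ s, ¬ C.Plain s → z s = v s)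
    (nd : (I ⊕ Bool) ⊕ G) : nv C l z nd x = Circuit.node x v nd := by
  cases nd with
  | inl a => cases a <;> rfl
  | inr g => exact fval_true C l z x v hv l.top (fun s hs _ => hz s hs) g (l.le_top g)

/-- the input wires of the special gates -/
abbrev SW {I : Type} (C : Circuit I G) : Type := {p : Σ g, Fin (C.arity g) // ¬ C.Plain p.1}

open Classical in
/-- the number of changes of the inputs of the special gates along a chain is at most the
number of the monotone functions -/
theorem seq_count [Fintype G] (C : Circuit (Fin (2 * n) × Fin (2 * n)) G) (l : Lev C)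
    (X : ℕ → Fin (2 * n) × Fin (2 * n) → Bool) (v : ℕ → G → Bool)
    (hX : ∀ i e, X i e = true → X (i + 1) e = true) (hv : ∀ i, C.Consistent (X i) (v i))
    (N : ℕ) : ((Finset.range N).filter (fun i => Ch C X v (fun _ => True) i)).card ≤
      Fintype.card (Idx C l) := by
  let u : Idx C l → ℕ → Bool := fun k i => nv C l (zOf C l k) (nod C l k) (X i)
  have key : ∀ i, Ch C X v (fun _ => True) i → ∃ k, u k i ≠ u k (i + 1) := by
    intro i hi
    let S : Finset G := Finset.univ.filter (fun s => ¬ C.Plain s ∧ ∃ k : Fin (C.arity s),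
      Circuit.node (X i) (v i) (C.src s k) ≠ Circuit.node (X (i + 1)) (v (i + 1)) (C.src s k))
    have hS : S.Nonempty := by
      obtain ⟨s, hs, _, k, hk⟩ := hi
      exact ⟨s, Finset.mem_filter.mpr ⟨Finset.mem_univ _, hs, k, hk⟩⟩
    obtain ⟨s, hsS, hmin⟩ := Finset.exists_min_image S l.lev hS
    obtain ⟨hs, k, hk⟩ := (Finset.mem_filter.mp hsS).2
    have hlow : ∀ s', ¬ C.Plain s' → l.lev s' < l.lev s → v i s' = v (i + 1) s' := by
      intro s' hs' hlt
      refine special_eq C (hv i) (hv (i + 1)) s' (fun k' => ?_)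
      by_contra hk'
      have := hmin s' (Finset.mem_filter.mpr ⟨Finset.mem_univ _, hs', k', hk'⟩)
      omega
    let κ : Idx C l := Sum.inl ⟨⟨s, hs⟩, fun s' => v i s', k⟩
    have hval : ∀ i', (∀ s', ¬ C.Plain s' → l.lev s' < l.lev s → v i s' = v i' s') →
        u κ i' = Circuit.node (X i') (v i') (C.src s k) := by
      intro i' hi'
      change nv C l (ext C l (l.lev s) (fun s' => v i s')) (C.src s k) (X i') = _
      unfold nv
      cases hsrc : C.src s k with
      | inl a => cases a <;> rfl
      | inr g' =>
          have hlt := l.lt s k g' hsrc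
          refine fval_true C l _ (X i') (v i') (hv i') (l.lev g') (fun s' hs' hle => ?_) g' le_rfl
          unfold ext
          rw [dif_pos ⟨hs', by omega⟩]
          exact hi' s' hs' (by omega)
    refine ⟨κ, ?_⟩
    rw [hval i (fun _ _ _ => rfl), hval (i + 1) hlow]
    exact hk
  have hmono : ∀ k i i', i ≤ i' → u k i = true → u k i' = true := by
    intro k i i' hii'
    induction i', hii' using Nat.le_induction with
    | base => exact id
    | succ i' _ ih => exact fun h => nv_mono C l _ _ (hX i') (ih h)
  have key2 : ∀ i, ∃ k : Idx C l, Ch C X v (fun _ => True) i → u k i ≠ u k (i + 1) := by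
    intro i
    by_cases hi : Ch C X v (fun _ => True) i
    · obtain ⟨k, hk⟩ := key i hi
      exact ⟨k, fun _ => hk⟩
    · exact ⟨Sum.inr (fun _ => false), fun h => absurd h hi⟩
  choose f hf using key2
  rw [← Finset.card_univ (α := Idx C l)]
  apply Finset.card_le_card_of_injOn f
  · intro i _
    exact Finset.mem_coe.mpr (Finset.mem_univ _)
  · intro i hi i' hi' hff
    have h1 := hf i (Finset.mem_filter.mp (Finset.mem_coe.mp hi)).2
    have h2 := hf i' (Finset.mem_filter.mp (Finset.mem_coe.mp hi')).2
    have hlt : ∀ a b : ℕ, u (f a) a ≠ u (f a) (a + 1) → u (f b) b ≠ u (f b) (b + 1) →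
        f a = f b → ¬ a < b := by
      intro a b ha hb hab hltab
      have e1 : u (f a) a = false := by
        cases h : u (f a) a
        · rfl
        · exact absurd (h.trans (hmono _ a (a + 1) (by omega) h).symm) ha
      have e2 : u (f a) (a + 1) = true := by
        cases h : u (f a) (a + 1)
        · exact absurd (e1.trans h.symm) ha
        · rfl
      rw [hab] at e2
      have e3 := hmono _ (a + 1) b (by omega) e2
      exact hb (e3.trans (hmono _ b (b + 1) (by omega) e3).symm)
    have h3 := hlt i i' h1 h2 hff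
    have h4 := hlt i' i h2 h1 hff.symm
    omega

open Classical in
theorem main_false2 {E s D L : ℕ} {𝒜 : Set ((Fin q × Fin q → Bool) → Prop)}
    (h𝒜 : IsApp E q 𝒜) (hq : 0 < q) [Finite G]
    (C : Circuit (Fin (2 * n) × Fin (2 * n)) G) (hC : ∃ d, C.DepthLE d)
    (hcard : Nat.card G ≤ s) (hs : s ≤ 2 ^ E)
    (hD : ∀ (X : ℕ → Fin (2 * n) × Fin (2 * n) → Bool) (v : ℕ → G → Bool),
      (∀ i e, X i e = true → X (i + 1) e = true) → (∀ i, C.Consistent (X i) (v i)) →
      ∀ N, ((Finset.range N).filter (fun i => Ch C X v (fun _ => True) i)).card ≤ D)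
    (hT : 2 * (Nat.card (SW C) + 1) < 2 ^ (3 * E))
    (hL : 8 * D ≤ L) (hL0 : 0 < L) (hLq : L * q ≤ n) (hPM : DecidesPM n C) :
    False := by
  obtain ⟨d, lev, hlev1, hlev2⟩ := hC
  let l : Lev C := ⟨lev, d, fun g => (hlev1 g).2, hlev2⟩
  have : Fintype G := Fintype.ofFinite G
  rw [Nat.card_eq_fintype_card] at hcard
  have hι : Fintype.card (Option (SW C)) = Nat.card (SW C) + 1 := by
    rw [Fintype.card_option, Nat.card_eq_fintype_card]
  -- the true values
  have hex : ∀ x : Fin n × Fin n → Bool, ∃ v, C.Consistent (pull (sig n) x) v := fun x =>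
    exists_consistent C l.lev l.top l.le_top l.lt (pull (sig n) x)
  choose vv hvv using hex
  obtain ⟨Q, hQ⟩ : ∃ Q : (Fin n × Fin n → Bool) → (Fin n × Fin n → Bool) → Prop,
      ∀ x y, Q x y ↔ ∃ s, ¬ C.Plain s ∧ ∃ k : Fin (C.arity s),
        Circuit.node (pull (sig n) x) (vv x) (C.src s k) ≠
          Circuit.node (pull (sig n) y) (vv y) (C.src s k) := ⟨_, fun _ _ => Iff.rfl⟩
  obtain ⟨j, τ, hjτ⟩ := chain_pick2 (n := n) hq D hL hL0 Q (by
    intro t
    refine le_trans ?_ (hD (fun i => pull (sig n) (W hq i t)) (fun i => vv (W hq i t))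
      (fun i e he => pl_mono (sig n) (fun e' he' => W_mono hq i t e' he') e he)
      (fun i => hvv _) L)
    apply Finset.card_le_card_of_injOn (fun j : Fin L => (j : ℕ))
    · intro j hj
      have hj' := (Finset.mem_filter.mp (Finset.mem_coe.mp hj)).2
      obtain ⟨s, hs, k, hk⟩ := (hQ _ _).mp hj'
      exact Finset.mem_coe.mpr (Finset.mem_filter.mpr
        ⟨Finset.mem_range.mpr j.2, s, hs, trivial, k, hk⟩)
    · intro a _ b _ hab
      exact Fin.ext hab)
  -- the frozen functions
  set v1 : G → Bool := vv (pl (sb hq j τ) (fun _ => true)) with hv1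
  let nd : Option (SW C) → ((Fin (2 * n) × Fin (2 * n)) ⊕ Bool) ⊕ G := fun k =>
    match k with
    | none => Sum.inr C.out
    | some p => C.src p.1.1 p.1.2
  let u : Option (SW C) → (Fin n × Fin n → Bool) → Bool := fun k X =>
    nv C l v1 (nd k) (pull (sig n) X)
  have hu : ∀ k x y, (∀ e, x e = true → y e = true) → u k x = true → u k y = true := by
    intro k x y hxy hx
    exact nv_mono C l _ _ (fun e he => pl_mono (sig n) hxy e he) hx
  -- at a good permutation the frozen functions which are one at the full block are one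
  have hgood : ∀ σ : Equiv.Perm (Fin q),
      ¬ Q (pl (sb hq j τ) (xin σ)) (pl (sb hq j τ) (fun _ => true)) →
      ∀ k, u k (pl (sb hq j τ) (fun _ => true)) = true →
        u k (pl (sb hq j τ) (xin σ)) = true := by
    intro σ hσ k hk
    have hin : ∀ s, ¬ C.Plain s → ∀ i : Fin (C.arity s),
        Circuit.node (pull (sig n) (pl (sb hq j τ) (xin σ)))
          (vv (pl (sb hq j τ) (xin σ))) (C.src s i) =
        Circuit.node (pull (sig n) (pl (sb hq j τ) (fun _ => true))) v1 (C.src s i) := by
      intro s hs i
      by_contra hne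
      exact hσ ((hQ _ _).mpr ⟨s, hs, i, hne⟩)
    have hz : ∀ s, ¬ C.Plain s → v1 s = vv (pl (sb hq j τ) (xin σ)) s := by
      intro s hs
      exact (special_eq C (hvv _) (hvv _) s (hin s hs)).symm
    have e1 : ∀ k, u k (pl (sb hq j τ) (xin σ)) =
        Circuit.node (pull (sig n) (pl (sb hq j τ) (xin σ)))
          (vv (pl (sb hq j τ) (xin σ))) (nd k) := fun k =>
      nv_true C l v1 _ _ (hvv _) hz (nd k)
    have e2 : ∀ k, u k (pl (sb hq j τ) (fun _ => true)) =
        Circuit.node (pull (sig n) (pl (sb hq j τ) (fun _ => true))) v1 (nd k) := fun k =>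
      nv_true C l v1 _ _ (hvv _) (fun _ _ => rfl) (nd k)
    cases k with
    | none =>
        refine (e1 none).trans ?_
        change vv (pl (sb hq j τ) (xin σ)) C.out = true
        refine (decides_iff C hPM _ _ (hvv _)).mpr ?_
        rw [pl_sb_perm]
        exact bpm_W hq j _ hLq
    | some p =>
        exact (e1 (some p)).trans ((hin p.1.1 p.2 p.1.2).trans ((e2 (some p)).symm.trans hk))
  -- every function which is one at the full block is one at almost all colourings
  have hdich : ∀ k : Option (SW C), u k (pl (sb hq j τ) (fun _ => true)) = true →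
      2 ^ (3 * E) * (Finset.univ.filter (fun c : Fin q ⊕ Fin q → Bool =>
        u k (pl (sb hq j τ) (yin c)) = false)).card ≤ 2 ^ (2 * q) := by
    intro k hk
    have hfac : (0 : ℝ) < q.factorial := by exact_mod_cast Nat.factorial_pos q
    have hgap : ∀ a : (sysOf h𝒜).A, (({p : Equiv.Perm (Fin q) |
        (sysOf h𝒜).ev a (xin p) = true} : Set _).ncard : ℝ) ≤ (q.factorial : ℝ) / 8 ∨
        ∀ p, (sysOf h𝒜).ev a (yin p) = true := by
      intro a
      rcases h𝒜.dich a.1 a.2 with h | h
      · right
        intro p
        exact decide_eq_true (h _)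
      · left
        have e : ({p : Equiv.Perm (Fin q) | (sysOf h𝒜).ev a (xin p) = true} : Set _) =
            ((Finset.univ.filter (fun σ : Equiv.Perm (Fin q) => a.1 (xin σ))) : Set _) := by
          ext p
          simp only [Set.mem_ofPred_eq, Finset.coe_filter, Finset.mem_univ, true_and]
          exact decide_eq_true_iff
        rw [e, Set.ncard_coe_finset, le_div_iff₀ (by norm_num), mul_comm]
        exact_mod_cast h
    have hsR : (Fintype.card G : ℝ) ≤ 2 ^ E := by
      exact_mod_cast hcard.trans hs
    have hcomp : ∀ x, u k (pl (sb hq j τ) x) =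
        nv C l v1 (nd k) (pl (cmp (sig n) (sb hq j τ)) x) := by
      intro x
      rw [pl_cmp]
    rcases node_dich (sysOf h𝒜) C l v1 (cmp (sig n) (sb hq j τ)) (nd k)
      ((q.factorial : ℝ) / 8) hgap with h | h
    · -- too few positive tests
      exfalso
      have h1 : ({p : Equiv.Perm (Fin q) | nv C l v1 (nd k)
          (pl (cmp (sig n) (sb hq j τ)) (xin p)) = true} : Set _) =
          ((Finset.univ.filter (fun σ : Equiv.Perm (Fin q) =>
            u k (pl (sb hq j τ) (xin σ)) = true)) : Set _) := by
        ext p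
        simp only [Set.mem_ofPred_eq, Finset.coe_filter, Finset.mem_univ, true_and]
        rw [hcomp]
      rw [h1, Set.ncard_coe_finset] at h
      have h2 : (Finset.univ.filter (fun σ : Equiv.Perm (Fin q) =>
            u k (pl (sb hq j τ) (xin σ)) = true)).card +
          (Finset.univ.filter (fun σ : Equiv.Perm (Fin q) =>
            ¬ u k (pl (sb hq j τ) (xin σ)) = true)).card = q.factorial := by
        rw [Finset.card_filter_add_card_filter_not, Finset.card_univ, Fintype.card_perm,
          Fintype.card_fin]
      have h3 : (Finset.univ.filter (fun σ : Equiv.Perm (Fin q) =>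
            ¬ u k (pl (sb hq j τ) (xin σ)) = true)).card ≤
          (Finset.univ.filter (fun σ : Equiv.Perm (Fin q) =>
            Q (pl (sb hq j τ) (xin σ)) (pl (sb hq j τ) (fun _ => true)))).card := by
        apply Finset.card_le_card
        intro σ hσ
        rw [Finset.mem_filter] at hσ ⊢
        refine ⟨hσ.1, ?_⟩
        by_contra hQσ
        exact hσ.2 (hgood σ hQσ k hk)
      have h4 : (8 : ℝ) * ((Finset.univ.filter (fun σ : Equiv.Perm (Fin q) =>
            ¬ u k (pl (sb hq j τ) (xin σ)) = true)).card : ℝ) ≤ q.factorial := by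
        exact_mod_cast (Nat.mul_le_mul_left 8 h3).trans hjτ
      have h5 : ((Finset.univ.filter (fun σ : Equiv.Perm (Fin q) =>
            u k (pl (sb hq j τ) (xin σ)) = true)).card : ℝ) +
          ((Finset.univ.filter (fun σ : Equiv.Perm (Fin q) =>
            ¬ u k (pl (sb hq j τ) (xin σ)) = true)).card : ℝ) = q.factorial := by
        exact_mod_cast h2
      have h6 : (Fintype.card G : ℝ) * ((q.factorial : ℝ) / (8 * 2 ^ E)) ≤
          (q.factorial : ℝ) / 8 := by
        calc (Fintype.card G : ℝ) * ((q.factorial : ℝ) / (8 * 2 ^ E))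
            ≤ 2 ^ E * ((q.factorial : ℝ) / (8 * 2 ^ E)) := by gcongr
          _ = (q.factorial : ℝ) / 8 := by field_simp
      linarith
    · have h1 : ({p : Fin q ⊕ Fin q → Bool | nv C l v1 (nd k)
          (pl (cmp (sig n) (sb hq j τ)) (yin p)) = false} : Set _) =
          ((Finset.univ.filter (fun c : Fin q ⊕ Fin q → Bool =>
            u k (pl (sb hq j τ) (yin c)) = false)) : Set _) := by
        ext p
        simp only [Set.mem_ofPred_eq, Finset.coe_filter, Finset.mem_univ, true_and]
        rw [hcomp]
      rw [h1, Set.ncard_coe_finset] at h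
      have h2 : (Fintype.card G : ℝ) * ((2 : ℝ) ^ (2 * q) / 2 ^ (4 * E)) ≤
          (2 : ℝ) ^ (2 * q) / 2 ^ (3 * E) := by
        calc (Fintype.card G : ℝ) * ((2 : ℝ) ^ (2 * q) / 2 ^ (4 * E))
            ≤ 2 ^ E * ((2 : ℝ) ^ (2 * q) / 2 ^ (4 * E)) := by gcongr
          _ = (2 : ℝ) ^ (2 * q) / 2 ^ (3 * E) := by
              rw [show 4 * E = E + 3 * E by ring, pow_add]
              field_simp
      have h3 := h.trans h2
      rw [le_div_iff₀ (by positivity), mul_comm] at h3
      exact_mod_cast h3
  -- the bad colourings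
  let B : Finset (Fin q ⊕ Fin q → Bool) := Finset.univ.filter (fun c =>
    ∃ k : Option (SW C), u k (pl (sb hq j τ) (yin c)) ≠ u k (pl (sb hq j τ) (fun _ => true)))
  have hB : 2 ^ (3 * E) * B.card ≤ Fintype.card (Option (SW C)) * 2 ^ (2 * q) := by
    have hsub : B ⊆ Finset.univ.biUnion (fun k : Option (SW C) => Finset.univ.filter
        (fun c : Fin q ⊕ Fin q → Bool => u k (pl (sb hq j τ) (fun _ => true)) = true ∧
          u k (pl (sb hq j τ) (yin c)) = false)) := by
      intro c hc
      rw [Finset.mem_filter] at hc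
      obtain ⟨k, hk⟩ := hc.2
      rw [Finset.mem_biUnion]
      refine ⟨k, Finset.mem_univ _, ?_⟩
      rw [Finset.mem_filter]
      refine ⟨Finset.mem_univ _, ?_⟩
      have hmon : u k (pl (sb hq j τ) (yin c)) = true →
          u k (pl (sb hq j τ) (fun _ => true)) = true := by
        apply hu
        intro e he
        exact pl_mono _ (fun _ _ => rfl) e he
      cases h1 : u k (pl (sb hq j τ) (fun _ => true))
      · cases h2 : u k (pl (sb hq j τ) (yin c))
        · rw [h1, h2] at hk
          exact absurd rfl hk
        · rw [hmon h2] at h1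
          exact absurd h1 (by decide)
      · cases h2 : u k (pl (sb hq j τ) (yin c))
        · exact ⟨rfl, rfl⟩
        · rw [h1, h2] at hk
          exact absurd rfl hk
    calc 2 ^ (3 * E) * B.card ≤ 2 ^ (3 * E) * ∑ k : Option (SW C), (Finset.univ.filter
        (fun c : Fin q ⊕ Fin q → Bool => u k (pl (sb hq j τ) (fun _ => true)) = true ∧
          u k (pl (sb hq j τ) (yin c)) = false)).card :=
          Nat.mul_le_mul_left _ ((Finset.card_le_card hsub).trans Finset.card_biUnion_le)
      _ = ∑ k : Option (SW C), 2 ^ (3 * E) * (Finset.univ.filter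
        (fun c : Fin q ⊕ Fin q → Bool => u k (pl (sb hq j τ) (fun _ => true)) = true ∧
          u k (pl (sb hq j τ) (yin c)) = false)).card := by rw [Finset.mul_sum]
      _ ≤ ∑ _k : Option (SW C), 2 ^ (2 * q) := by
          refine Finset.sum_le_sum (fun k _ => ?_)
          by_cases hk : u k (pl (sb hq j τ) (fun _ => true)) = true
          · refine (Nat.mul_le_mul_left _ (Finset.card_le_card ?_)).trans (hdich k hk)
            intro c hc
            rw [Finset.mem_filter] at hc ⊢
            exact ⟨hc.1, hc.2.2⟩
          · have : (Finset.univ.filter (fun c : Fin q ⊕ Fin q → Bool =>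
                u k (pl (sb hq j τ) (fun _ => true)) = true ∧
                  u k (pl (sb hq j τ) (yin c)) = false)) = ∅ := by
              rw [Finset.filter_eq_empty_iff]
              intro c _ h
              exact hk h.1
            rw [this, Finset.card_empty, Nat.mul_zero]
            exact Nat.zero_le _
      _ = Fintype.card (Option (SW C)) * 2 ^ (2 * q) := by
          rw [Finset.sum_const, Finset.card_univ, smul_eq_mul]
  -- an odd colouring which is not bad
  obtain ⟨c, hc1, hc2⟩ : ∃ c : Fin q ⊕ Fin q → Bool, par c = 1 ∧ c ∉ B := by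
    by_contra hcon
    push Not at hcon
    have h1 : (Finset.univ.filter (fun c : Fin q ⊕ Fin q → Bool => par c = 1)).card ≤
        B.card := by
      apply Finset.card_le_card
      intro c hc
      rw [Finset.mem_filter] at hc
      exact hcon c hc.2
    have h2 := card_odd hq
    have h3 : 2 ^ (3 * E) * 2 ^ (2 * q) ≤ 2 * (Fintype.card (Option (SW C)) * 2 ^ (2 * q)) := by
      calc 2 ^ (3 * E) * 2 ^ (2 * q) = 2 * (2 ^ (3 * E) *
            (Finset.univ.filter (fun c : Fin q ⊕ Fin q → Bool => par c = 1)).card) := by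
            rw [← h2]; ring
        _ ≤ 2 * (2 ^ (3 * E) * B.card) := by
            exact Nat.mul_le_mul_left _ (Nat.mul_le_mul_left _ h1)
        _ ≤ 2 * (Fintype.card (Option (SW C)) * 2 ^ (2 * q)) := Nat.mul_le_mul_left _ hB
    have h4 : 2 * (Fintype.card (Option (SW C)) * 2 ^ (2 * q)) < 2 ^ (3 * E) * 2 ^ (2 * q) := by
      rw [← Nat.mul_assoc]
      apply Nat.mul_lt_mul_of_pos_right _ (by positivity)
      rw [hι]
      exact hT
    omega
  have hall : ∀ k : Option (SW C), u k (pl (sb hq j τ) (yin c)) = u k (pl (sb hq j τ) (fun _ => true)) := by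
    intro k
    by_contra hk
    apply hc2
    rw [Finset.mem_filter]
    exact ⟨Finset.mem_univ _, k, hk⟩
  -- the two inputs have the same output
  obtain ⟨w, hw⟩ := exists_consistent C l.lev l.top l.le_top l.lt
    (pull (sig n) (pl (sb hq j τ) (yin c)))
  have hout : v1 C.out = w C.out := by
    refine out_eq C l _ _ v1 w v1 (hvv _) hw (fun _ _ => rfl) ?_ ?_
    · intro s i hs
      exact (hall (some ⟨⟨s, i⟩, hs⟩)).symm
    · exact (hall none).symm
  have h1 := (decides_iff C hPM _ v1 (hvv _)).mpr (bpm_one hq j τ hLq)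
  rw [hout] at h1
  have h2 := (decides_iff C hPM _ w hw).mp h1
  exact odd_not_bpm c hc1 (bpm_block hq j τ hLq _ h2)

end Final2

end Pool.Agent.NEGS
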