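import Pool.Agent.Lib.MP_66cd2e_lc.DN.Def
import Pool.Agent.Lib.MP_66cd2e_lc.DN.SunGen

/-!
The robust sunflower lemma for the cliques of a `k`-partite graph.
-/

namespace Pool.Agent.DN

open Finset

variable {k q : ℕ}

theorem mem_kedge {R : Finset (Vx k q)} {e : Ed k q} :
    e ∈ kedge R ↔ e.1.1 ∈ R ∧ e.1.2 ∈ R := by
  unfold kedge
  rw [mem_filter]
  exact ⟨fun h => h.2, fun h => ⟨mem_univ _, h⟩⟩

theorem kedge_mono {R S : Finset (Vx k q)} (h : R ⊆ S) : kedge R ⊆ kedge S := by
  intro e he
  rw [mem_kedge] at he ⊢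
  exact ⟨h he.1, h he.2⟩

/-- the number of edges of a clique -/
theorem card_kedge {l : ℕ} {R : Finset (Vx k q)} (hR : Term l R) :
    2 * (kedge R).card + R.card = R.card ^ 2 := by
  classical
  have h0 : (kedge R).card = ((R ×ˢ R).filter (fun e => e.1.1 < e.2.1)).card := by
    apply card_bij (fun (e : Ed k q) _ => e.1)
    · intro e he
      rw [mem_kedge] at he
      rw [mem_filter, mem_product]
      exact ⟨he, e.2⟩
    · intro e _ f _ h
      exact Subtype.ext h
    · intro e he
      rw [mem_filter, mem_product] at he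
      exact ⟨⟨e, he.2⟩, mem_kedge.mpr he.1, rfl⟩
  have h1 : ((R ×ˢ R).filter (fun e => e.2.1 < e.1.1)).card =
      ((R ×ˢ R).filter (fun e => e.1.1 < e.2.1)).card := by
    apply card_bij (fun e _ => (e.2, e.1))
    · intro e he
      rw [mem_filter, mem_product] at he ⊢
      exact ⟨⟨he.1.2, he.1.1⟩, he.2⟩
    · intro e _ f _ h
      exact Prod.ext (Prod.mk.inj h).2 (Prod.mk.inj h).1
    · intro e he
      rw [mem_filter, mem_product] at he
      refine ⟨(e.2, e.1), ?_, rfl⟩
      rw [mem_filter, mem_product]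
      exact ⟨⟨he.1.2, he.1.1⟩, he.2⟩
  have h2 : ((R ×ˢ R).filter (fun e => e.1.1 = e.2.1)).card = R.card := by
    symm
    apply card_bij (fun a _ => (a, a))
    · intro a ha
      rw [mem_filter, mem_product]
      exact ⟨⟨ha, ha⟩, rfl⟩
    · intro a _ b _ h
      exact (Prod.mk.inj h).1
    · intro e he
      rw [mem_filter, mem_product] at he
      refine ⟨e.1, he.1.1, Prod.ext rfl ?_⟩
      exact hR.2 _ he.1.1 _ he.1.2 he.2
  have h3 : (R ×ˢ R).card = ((R ×ˢ R).filter (fun e => e.1.1 < e.2.1)).card +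
      (((R ×ˢ R).filter (fun e => e.1.1 = e.2.1)).card +
        ((R ×ˢ R).filter (fun e => e.2.1 < e.1.1)).card) := by
    rw [← card_union_of_disjoint, ← card_union_of_disjoint]
    · congr 1
      ext e
      rw [mem_union, mem_union, mem_filter, mem_filter, mem_filter]
      constructor
      · intro he
        rcases lt_trichotomy e.1.1 e.2.1 with h | h | h
        · exact Or.inl ⟨he, h⟩
        · exact Or.inr (Or.inl ⟨he, h⟩)
        · exact Or.inr (Or.inr ⟨he, h⟩)
      · rintro (h | h | h)
        · exact h.1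
        · exact h.1
        · exact h.1
    · rw [disjoint_left]
      intro e he he'
      rw [mem_filter] at he
      rw [mem_union, mem_filter, mem_filter] at he'
      rcases he' with h | h
      · exact absurd h.2 (ne_of_lt he.2)
      · exact absurd h.2 (lt_asymm he.2)
    · rw [disjoint_left]
      intro e he he'
      rw [mem_filter] at he he'
      exact absurd he.2 (ne_of_gt he'.2)
  rw [card_product, ← sq, h1, h2, ← h0] at h3
  omega

/-- two members share few edges outside the clique on `K` -/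
theorem card_inter_le {l : ℕ} {R S K : Finset (Vx k q)} (hR : Term l R) :
    ((kedge R \ kedge K) ∩ (kedge S \ kedge K)).card ≤ l * ((R \ K) ∩ (S \ K)).card := by
  classical
  calc ((kedge R \ kedge K) ∩ (kedge S \ kedge K)).card
      ≤ (((R \ K) ∩ (S \ K)) ×ˢ R).card := by
        apply card_le_card_of_injOn
          (fun e : Ed k q => if e.1.1 ∈ K then (e.1.2, e.1.1) else (e.1.1, e.1.2))
        · intro e he
          rw [mem_coe, mem_inter, mem_sdiff, mem_sdiff, mem_kedge, mem_kedge, mem_kedge] at he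
          obtain ⟨⟨⟨h1, h2⟩, h3⟩, ⟨h4, h5⟩, -⟩ := he
          rw [mem_coe, mem_product]
          by_cases h6 : e.1.1 ∈ K
          · simp only [if_pos h6]
            have h7 : e.1.2 ∉ K := fun h => h3 ⟨h6, h⟩
            exact ⟨mem_inter.mpr ⟨mem_sdiff.mpr ⟨h2, h7⟩, mem_sdiff.mpr ⟨h5, h7⟩⟩, h1⟩
          · simp only [if_neg h6]
            exact ⟨mem_inter.mpr ⟨mem_sdiff.mpr ⟨h1, h6⟩, mem_sdiff.mpr ⟨h4, h6⟩⟩, h2⟩
        · intro e _ f _ hef
          have he := e.2
          have hf := f.2
          apply Subtype.ext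
          by_cases h1 : e.1.1 ∈ K <;> by_cases h2 : f.1.1 ∈ K
          · simp only [if_pos h1, if_pos h2] at hef
            exact Prod.ext (Prod.mk.inj hef).2 (Prod.mk.inj hef).1
          · simp only [if_pos h1, if_neg h2] at hef
            have h3 := (Prod.mk.inj hef).1
            have h4 := (Prod.mk.inj hef).2
            rw [← h3, ← h4] at hf
            exact absurd hf (lt_asymm he)
          · simp only [if_neg h1, if_pos h2] at hef
            have h3 := (Prod.mk.inj hef).1
            have h4 := (Prod.mk.inj hef).2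
            rw [h3, h4] at he
            exact absurd hf (lt_asymm he)
          · simp only [if_neg h1, if_neg h2] at hef
            exact Prod.ext (Prod.mk.inj hef).1 (Prod.mk.inj hef).2
    _ = ((R \ K) ∩ (S \ K)).card * R.card := card_product _ _
    _ ≤ ((R \ K) ∩ (S \ K)).card * l := Nat.mul_le_mul_left _ hR.1
    _ = _ := Nat.mul_comm _ _

open Classical in
/-- the members over `K` -/
noncomputable def ovr (F : Finset (Finset (Vx k q))) (K : Finset (Vx k q)) :
    Finset (Finset (Vx k q)) :=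
  F.filter fun R => K ⊆ R

open Classical in
/-- **the robust sunflower lemma for cliques** -/
theorem robust {P : ℕ} (hP : 0 < P) {m l i : ℕ} (hm : 1 ≤ m) (hil : i ≤ l) (F : Finset (Finset (Vx k q)))
    (hT : ∀ R ∈ F, Term l R) (hc : ∀ R ∈ F, R.card = i)
    (hF : (2 * l * m * P ^ l) ^ i < F.card) :
    ∃ K : Finset (Vx k q), K.card < i ∧ (∃ R ∈ F, K ⊆ R) ∧
      ((fail P F K).card : ℝ) ≤ P ^ Fintype.card (Ed k q) * Real.exp (- (m / 2)) := by
  have hF0 : 0 < F.card := by omega
  obtain ⟨R0, hR0⟩ := card_pos.1 hF0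
  rcases Nat.eq_zero_or_pos i with hi | hi
  · exfalso
    subst hi
    have h1 : ∀ R ∈ F, R = ∅ := fun R hR => card_eq_zero.1 (hc R hR)
    have h2 : F.card ≤ 1 := card_le_one.2 fun a ha b hb => (h1 a ha).trans (h1 b hb).symm
    rw [pow_zero] at hF
    omega
  have hl : 1 ≤ l := by omega
  set B : ℕ := 2 * l * m * P ^ l with hBd
  have hB0 : 0 < B := by positivity
  obtain ⟨K, -, hmax⟩ := exists_max_image (univ : Finset (Finset (Vx k q)))
    (fun K => (ovr F K).card * B ^ K.card) ⟨∅, mem_univ _⟩
  have hmax' : ∀ K', (ovr F K').card * B ^ K'.card ≤ (ovr F K).card * B ^ K.card :=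
    fun K' => hmax K' (mem_univ _)
  have hbig : B ^ i < (ovr F K).card * B ^ K.card := by
    refine lt_of_lt_of_le ?_ (hmax' ∅)
    have h1 : ovr F ∅ = F := by
      unfold ovr
      exact filter_true_of_mem (fun R _ => empty_subset R)
    rw [h1, card_empty, pow_zero, mul_one]
    exact hF
  have hne : (ovr F K).Nonempty := by
    rw [← card_pos]
    rcases Nat.eq_zero_or_pos (ovr F K).card with h | h
    · rw [h, zero_mul] at hbig
      exact absurd hbig (Nat.not_lt_zero _)
    · exact h
  obtain ⟨R1, hR1⟩ := hne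
  have hmem : ∀ R, R ∈ ovr F K ↔ R ∈ F ∧ K ⊆ R := fun R => by
    unfold ovr
    rw [mem_filter]
  obtain ⟨hR1F, hR1K⟩ := (hmem R1).1 hR1
  have hKi : K.card < i := by
    rcases Nat.lt_or_ge K.card i with h | h
    · exact h
    · exfalso
      have h1 : ∀ R ∈ ovr F K, R = K := by
        intro R hR
        obtain ⟨h2, h3⟩ := (hmem R).1 hR
        exact (eq_of_subset_of_card_le h3 ((hc R h2).le.trans h)).symm
      have h2 : (ovr F K).card ≤ 1 :=
        card_le_one.2 fun a ha b hb => (h1 a ha).trans (h1 b hb).symm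
      have h4 : K.card = i := le_antisymm ((card_le_card hR1K).trans (hc R1 hR1F).le) h
      rw [h4] at hbig
      have h5 : (ovr F K).card * B ^ i ≤ 1 * B ^ i := Nat.mul_le_mul_right _ h2
      omega
  refine ⟨K, hKi, ⟨R1, hR1F, hR1K⟩, ?_⟩
  have hcK := card_kedge ((show Term l K from
    ⟨(card_le_card hR1K).trans (hT R1 hR1F).1,
      fun a ha b hb => (hT R1 hR1F).2 a (hR1K ha) b (hR1K hb)⟩))
  have hkey := spread_zer hP (W := Ed k q) (V := Vx k q) (h := (kedge R1).card - (kedge K).card)
    (a := i - K.card) (l := l) hm hl ((Nat.sub_le _ _).trans hil)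
    (fun R : Finset (Vx k q) => R \ K) (fun R => kedge R \ kedge K) (ovr F K) ⟨R1, hR1⟩
    (by
      intro R hR
      obtain ⟨h1, h2⟩ := (hmem R).1 hR
      have h3 := card_kedge (hT R h1)
      have h4 := card_kedge (hT R1 hR1F)
      rw [hc R h1] at h3
      rw [hc R1 hR1F] at h4
      have h5 : (kedge R).card = (kedge R1).card := by omega
      change (kedge R \ kedge K).card = _
      rw [card_sdiff_of_subset (kedge_mono h2), h5])
    (by
      intro R hR
      obtain ⟨h1, h2⟩ := (hmem R).1 hR
      rw [card_sdiff_of_subset h2, hc R h1])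
    (by
      intro R hR S _
      exact card_inter_le (hT R ((hmem R).1 hR).1))
    (by
      intro R _ U hU H' hH' hUH'
      have hUK : Disjoint K U := by
        rw [disjoint_left]
        intro w hw hw'
        exact (mem_sdiff.1 (hU hw')).2 hw
      have h1 := hmax' (K ∪ U)
      rw [card_union_of_disjoint hUK, pow_add] at h1
      have h2 : H' ⊆ ovr F (K ∪ U) := by
        intro S hS
        obtain ⟨h3, h4⟩ := (hmem S).1 (hH' hS)
        unfold ovr
        exact mem_filter.2 ⟨h3, union_subset h4 ((hUH' S hS).trans sdiff_subset)⟩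
      have h3 : (ovr F (K ∪ U)).card * B ^ U.card * B ^ K.card ≤
          (ovr F K).card * B ^ K.card := by
        calc (ovr F (K ∪ U)).card * B ^ U.card * B ^ K.card
            = (ovr F (K ∪ U)).card * (B ^ K.card * B ^ U.card) := by ring
          _ ≤ _ := h1
      have h4 := Nat.le_of_mul_le_mul_right h3 (pow_pos hB0 _)
      exact (Nat.mul_le_mul_right _ (card_le_card h2)).trans h4)
    (fail P F K)
  refine hkey ?_
  intro c hc' R hR h3
  unfold fail at hc'
  obtain ⟨h1, h2⟩ := (hmem R).1 hR
  apply (mem_filter.1 hc').2 R h1 h2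
  intro e he
  have h4 := h3 e he
  unfold py
  exact decide_eq_true h4

/-- the robust sunflower lemma with `m = 2 p` parts -/
theorem sun_gen {P : ℕ} (hP : 0 < P) (l p : ℕ) (hp : 1 ≤ p) :
    Sun k q P l (P ^ Fintype.card (Ed k q) / 2 ^ p) (2 * l * (2 * p) * P ^ l) := by
  classical
  intro i F _ hil hF hcard
  obtain ⟨K, h1, h2, h3⟩ := robust hP (m := 2 * p) (l := l) (i := i) (by omega) hil F
    (fun R hR => (hF R hR).1) (fun R hR => (hF R hR).2) hcard
  refine ⟨K, h1, h2, ?_⟩
  rw [Nat.le_div_iff_mul_le (by positivity)]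
  have h6 : Real.exp (-(((2 * p : ℕ) : ℝ) / 2)) ≤ 1 / 2 ^ p := by
    have h7 : -(((2 * p : ℕ) : ℝ) / 2) = (p : ℝ) * (-1) := by
      push_cast
      ring
    rw [h7, Real.exp_nat_mul, ← one_div_pow]
    refine pow_le_pow_left₀ (Real.exp_pos _).le ?_ p
    rw [Real.exp_neg, ← one_div]
    refine one_div_le_one_div_of_le (by norm_num) ?_
    have h8 := Real.exp_one_gt_d9
    linarith
  have h7 := h3.trans (mul_le_mul_of_nonneg_left h6 (by positivity))
  rw [mul_one_div, le_div_iff₀ (by positivity)] at h7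
  exact_mod_cast h7

theorem Sun.mono {P l ρ B B' : ℕ} (h : Sun k q P l ρ B) (hB : B ≤ B') : Sun k q P l ρ B' :=
  fun i F hi hil hF hcard =>
    h i F hi hil hF (lt_of_le_of_lt (Nat.pow_le_pow_left hB i) hcard)

/-- the robust sunflower property used for the approximators -/
theorem sun (k q P l g : ℕ) (hP : 2 ≤ P) (hl : 1 ≤ l) (hg : 1 ≤ g)
    (hB : 28 * g * l ^ 2 * P ^ l ≤ 2 ^ g) :
    Sun k q P l (P ^ Fintype.card (Ed k q) / 2 ^ (7 * g * l)) (2 ^ g) :=
  (sun_gen (by omega) l (7 * g * l) (Nat.mul_pos (Nat.mul_pos (by norm_num) hg) hl)).mono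
    ((le_of_eq (by ring)).trans hB)

end Pool.Agent.DN
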